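import Mathlib

/-!
# Finite generation of cocompact discrete subgroups
-/

namespace Pool.Agent.T6.H51.NS

open Topology Pointwise

theorem fg_lemma {G : Type} [Group G] [TopologicalSpace G] [IsTopologicalGroup G] [T2Space G]
    (Γ : Subgroup G) (hΓ : DiscreteTopology Γ) (C : Set G) (hC : IsCompact C)
    (hCgen : Subgroup.closure C = ⊤)
    (K : Set G) (hK : IsCompact K) (hKΓ : ∀ g : G, ∃ x ∈ K, ∃ γ ∈ Γ, g = x * γ) : Γ.FG := by
  -- the compact sets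
  let C' : Set G := C ∪ C⁻¹
  have hC' : IsCompact C' := hC.union hC.inv
  let P : Set G := K⁻¹ * C' * K ∪ (K ∪ K⁻¹)
  have hP : IsCompact P := ((hK.inv.mul hC').mul hK).union (hK.union hK.inv)
  have hclosed : IsClosed (Γ : Set G) := Subgroup.isClosed_of_discrete
  let Φ : Set G := (Γ : Set G) ∩ P
  have hΦc : IsCompact Φ := hP.inter_left hclosed
  have hΦf : Φ.Finite := by
    have h1 : IsCompact ((Subtype.val : Γ → G) ⁻¹' P) :=
      hclosed.isClosedEmbedding_subtypeVal.isCompact_preimage hP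
    have h2 : ((Subtype.val : Γ → G) ⁻¹' P).Finite := h1.finite_of_discrete
    have h3 : Φ ⊆ Subtype.val '' ((Subtype.val : Γ → G) ⁻¹' P) := by
      rintro g ⟨hg, hgP⟩
      exact ⟨⟨g, hg⟩, hgP, rfl⟩
    exact (h2.image _).subset h3
  -- every element is a product of an element of `K` and an element generated by `Φ`
  have hstep : ∀ s ∈ C', ∀ x ∈ K, ∀ γ ∈ Subgroup.closure Φ,
      ∃ x' ∈ K, ∃ γ' ∈ Subgroup.closure Φ, s * (x * γ) = x' * γ' := by
    intro s hs x hx γ hγ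
    obtain ⟨x₁, hx₁, γ₁, hγ₁, h⟩ := hKΓ (s * x)
    refine ⟨x₁, hx₁, γ₁ * γ, Subgroup.mul_mem _ (Subgroup.subset_closure ?_) hγ, ?_⟩
    · refine ⟨hγ₁, Or.inl ?_⟩
      have h1 : γ₁ = x₁⁻¹ * s * x := by
        rw [mul_assoc, h, inv_mul_cancel_left]
      rw [h1]
      exact Set.mul_mem_mul (Set.mul_mem_mul (Set.inv_mem_inv.mpr hx₁) hs) hx
    · rw [← mul_assoc, h, mul_assoc]
  obtain ⟨x₀, hx₀, γ₀, hγ₀, h0⟩ := hKΓ 1
  have hγ₀Φ : γ₀ ∈ Φ := by
    refine ⟨hγ₀, Or.inr (Or.inr ?_)⟩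
    rw [Set.mem_inv, ← eq_inv_of_mul_eq_one_left h0.symm]
    exact hx₀
  have hall : ∀ g : G, ∃ x ∈ K, ∃ γ ∈ Subgroup.closure Φ, g = x * γ := by
    intro g
    have hg : g ∈ Subgroup.closure C := by rw [hCgen]; trivial
    induction hg using Subgroup.closure_induction_left with
    | one => exact ⟨x₀, hx₀, γ₀, Subgroup.subset_closure hγ₀Φ, h0⟩
    | mul_left s hs y _ ih =>
      obtain ⟨x, hx, γ, hγ, rfl⟩ := ih
      exact hstep s (Or.inl hs) x hx γ hγ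
    | inv_mul_cancel s hs y _ ih =>
      obtain ⟨x, hx, γ, hγ, rfl⟩ := ih
      exact hstep s⁻¹ (Or.inr (Set.inv_mem_inv.mpr hs)) x hx γ hγ
  have hΦΓ : Subgroup.closure Φ ≤ Γ := by
    rw [Subgroup.closure_le]
    exact Set.inter_subset_left
  rw [Subgroup.fg_iff]
  refine ⟨Φ, le_antisymm hΦΓ ?_, hΦf⟩
  intro γ hγ
  obtain ⟨x, hx, γ', hγ', rfl⟩ := hall γ
  have hxΓ : x ∈ Γ := by
    have := Γ.mul_mem hγ (Γ.inv_mem (hΦΓ hγ'))
    rwa [mul_inv_cancel_right] at this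
  exact Subgroup.mul_mem _ (Subgroup.subset_closure ⟨hxΓ, Or.inr (Or.inl hx)⟩) hγ'

end Pool.Agent.T6.H51.NS
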