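import Pool.Agent.T6.H51.NS.Defs
import Pool.Agent.V11106.Nil2

/-!
# Rationality of the lower central series
-/

set_option autoImplicit false

namespace Pool.Agent.T6.H51.NS

open Filter Topology
open scoped commutatorElement Pointwise

namespace RatL

open Pool.Agent.V11106 (q q_eq_one q_eq q_comm q_comm_mul_left q_comm_mul_right q_comm_congr
  q_comm_one_left q_comm_one_right comm_mem comm_mem')

section alg
variable {G : Type*} [Group G]

/-- nested commutators of `k + 1` elements -/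
def Mc : (k : ℕ) → (Fin (k + 1) → G) → G
  | 0, v => v 0
  | k + 1, v => ⁅v 0, Mc k (fun i => v i.succ)⁆

theorem Mc_mem : ∀ (k : ℕ) (v : Fin (k + 1) → G), Mc k v ∈ LC G k
  | 0, _ => Subgroup.mem_top _
  | k + 1, v => comm_mem (Mc_mem k _) (v 0)

theorem Mc_one : ∀ (k : ℕ) (v : Fin (k + 1) → G) (i : Fin (k + 1)), v i = 1 → Mc k v = 1
  | 0, v, i, h => by
    have : i = 0 := Fin.ext (by omega)
    subst this
    exact h
  | k + 1, v, i, h => by
    change ⁅v 0, Mc k (fun i => v i.succ)⁆ = 1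
    refine Fin.cases ?_ (fun j => ?_) i (motive := fun i => v i = 1 → ⁅v 0, Mc k (fun i => v i.succ)⁆ = 1) h
    · intro h
      rw [h, commutatorElement_one_left]
    · intro h
      rw [Mc_one k (fun i => v i.succ) j h, commutatorElement_one_right]

theorem Mc_sub (Γ : Subgroup G) : ∀ (k : ℕ) (v : Fin (k + 1) → G), (∀ i, v i ∈ Γ) → Mc k v ∈ Γ
  | 0, _, h => h 0
  | k + 1, v, h => by
    have h1 := Mc_sub Γ k (fun i => v i.succ) fun i => h _
    change ⁅v 0, Mc k (fun i => v i.succ)⁆ ∈ Γ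
    rw [commutatorElement_def]
    exact mul_mem (mul_mem (mul_mem (h 0) h1) (inv_mem (h 0))) (inv_mem h1)

theorem Mc_mul : ∀ (k : ℕ) (v : Fin (k + 1) → G) (i : Fin (k + 1)) (g h : G),
    q (k + 1) (Mc k (Function.update v i (g * h))) =
      q (k + 1) (Mc k (Function.update v i g)) * q (k + 1) (Mc k (Function.update v i h))
  | 0, v, i, g, h => by
    have : i = 0 := Fin.ext (by omega)
    subst this
    change q 1 (Function.update v 0 (g * h) 0) = q 1 (Function.update v 0 g 0) *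
      q 1 (Function.update v 0 h 0)
    simp only [Function.update_self, map_mul]
  | k + 1, v, i, g, h => by
    refine Fin.cases ?_ (fun j => ?_) i
    · have h1 : ∀ x : G, Mc (k + 1) (Function.update v 0 x) =
          ⁅x, Mc k (fun i => v i.succ)⁆ := by
        intro x
        change ⁅Function.update v 0 x 0, Mc k (fun i => Function.update v 0 x i.succ)⁆ = _
        rw [Function.update_self]
        congr 2
      rw [h1, h1, h1]
      exact q_comm_mul_left (Mc_mem k _) g h
    · have h1 : ∀ x : G, Mc (k + 1) (Function.update v j.succ x) =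
          ⁅v 0, Mc k (Function.update (fun i => v i.succ) j x)⁆ := by
        intro x
        change ⁅Function.update v j.succ x 0, Mc k (fun i => Function.update v j.succ x i.succ)⁆ = _
        rw [Function.update_of_ne (Fin.succ_ne_zero j).symm]
        congr 2
        funext l
        by_cases hl : l = j
        · subst hl
          rw [Function.update_self, Function.update_self]
        · rw [Function.update_of_ne hl, Function.update_of_ne]
          intro h
          exact hl (Fin.succ_injective _ h)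
      rw [h1, h1, h1]
      have h2 := Mc_mul k (fun i => v i.succ) j g h
      rw [← map_mul] at h2
      rw [q_comm_congr (mul_mem (Mc_mem k _) (Mc_mem k _)) h2,
        q_comm_mul_right (Mc_mem k _) (Mc_mem k _)]

theorem Mc_continuous [TopologicalSpace G] [IsTopologicalGroup G] : ∀ k : ℕ,
    Continuous (Mc k : (Fin (k + 1) → G) → G)
  | 0 => continuous_apply 0
  | k + 1 => by
    have h1 : Continuous fun v : Fin (k + 1 + 1) → G => Mc k (fun i => v i.succ) :=
      (Mc_continuous k).comp (by fun_prop)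
    have h2 : (Mc (k + 1) : (Fin (k + 1 + 1) → G) → G) = fun v =>
        v 0 * Mc k (fun i => v i.succ) * (v 0)⁻¹ * (Mc k (fun i => v i.succ))⁻¹ := by
      funext v
      change ⁅v 0, Mc k (fun i => v i.succ)⁆ = _
      rw [commutatorElement_def]
    rw [h2]
    fun_prop

theorem Mc_gen : ∀ k : ℕ, LC G k ≤
    Subgroup.closure (Set.range (Mc k : (Fin (k + 1) → G) → G)) ⊔ LC G (k + 1)
  | 0 => by
    intro x _
    refine (le_sup_left : _ ≤ Subgroup.closure (Set.range (Mc 0)) ⊔ LC G (0 + 1)) ?_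
    exact Subgroup.subset_closure ⟨fun _ => x, rfl⟩
  | k + 1 => by
    set Z : Subgroup G := Subgroup.closure (Set.range (Mc (k + 1) : (Fin (k + 1 + 1) → G) → G)) ⊔
      LC G (k + 1 + 1) with hZ
    have hLZ : LC G (k + 1 + 1) ≤ Z := le_sup_right
    have hcong : ∀ {x y : G}, q (k + 2) x = q (k + 2) y → y ∈ Z → x ∈ Z := by
      intro x y h hy
      have h1 := Z.mul_mem (hLZ (q_eq.1 h)) hy
      rwa [inv_mul_cancel_right] at h1
    let Y : Subgroup G :=
      { carrier := {x | x ∈ LC G k ∧ ∀ g : G, ⁅g, x⁆ ∈ Z}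
        one_mem' := ⟨one_mem _, fun g => by rw [commutatorElement_one_right]; exact one_mem _⟩
        mul_mem' := by
          rintro x y ⟨hx, hx'⟩ ⟨hy, hy'⟩
          refine ⟨mul_mem hx hy, fun g => ?_⟩
          refine hcong (y := ⁅g, x⁆ * ⁅g, y⁆) ?_ (mul_mem (hx' g) (hy' g))
          rw [q_comm_mul_right hx hy, map_mul]
        inv_mem' := by
          rintro x ⟨hx, hx'⟩
          refine ⟨inv_mem hx, fun g => ?_⟩
          refine hcong (y := ⁅g, x⁆⁻¹) ?_ (inv_mem (hx' g))
          rw [Pool.Agent.V11106.q_comm_inv_right hx, map_inv] }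
    have hY : LC G k ≤ Y := by
      refine (Mc_gen k).trans (sup_le ?_ ?_)
      · rw [Subgroup.closure_le]
        rintro _ ⟨v, rfl⟩
        refine ⟨Mc_mem k v, fun g => ?_⟩
        refine (le_sup_left : _ ≤ Z) (Subgroup.subset_closure ⟨Fin.cons g v, ?_⟩)
        change ⁅(Fin.cons g v : Fin (k + 1 + 1) → G) 0,
          Mc k (fun i => (Fin.cons g v : Fin (k + 1 + 1) → G) i.succ)⁆ = _
        simp only [Fin.cons_zero, Fin.cons_succ]
      · intro x hx
        exact ⟨Pool.Agent.V11106.LC_anti (Nat.le_succ k) hx, fun g => hLZ (comm_mem hx g)⟩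
    change ⁅LC G k, (⊤ : Subgroup G)⁆ ≤ Z
    rw [Subgroup.commutator_le]
    intro x hx g _
    rw [← commutatorElement_inv]
    exact inv_mem ((hY hx).2 g)

end alg

section top
variable {G : Type*} [Group G] [TopologicalSpace G] [IsTopologicalGroup G]

/-- subgroups of `LC G k` which are compact modulo `Γ` -/
def Good (Γ : Subgroup G) (k : ℕ) (Z : Subgroup G) : Prop :=
  LC G (k + 1) ≤ Z ∧ Γ ⊓ LC G k ≤ Z ∧ Z ≤ LC G k ∧ ∃ C : Set G, IsCompact C ∧ (∀ c ∈ C, c ∈ Z) ∧
    ∀ z ∈ Z, ∃ c ∈ C, ∃ γ ∈ Γ, γ ∈ LC G k ∧ ∃ l ∈ LC G (k + 1), z = c * γ * l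

omit [IsTopologicalGroup G] in
theorem good_base (Γ : Subgroup G) (k : ℕ) : Good Γ k ((Γ ⊓ LC G k) ⊔ LC G (k + 1)) := by
  refine ⟨le_sup_right, le_sup_left, sup_le inf_le_right
    (Pool.Agent.V11106.LC_anti (Nat.le_succ k)), {1}, isCompact_singleton, ?_, ?_⟩
  · intro c hc
    rw [Set.mem_singleton_iff.1 hc]
    exact one_mem _
  · intro z hz
    rw [← SetLike.mem_coe, Subgroup.mul_normal] at hz
    obtain ⟨γ, hγ, l, hl, rfl⟩ := Set.mem_mul.1 hz
    exact ⟨1, rfl, γ, hγ.1, hγ.2, l, hl, by rw [one_mul]⟩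

theorem isClosed_subset [T2Space G] {Γ : Subgroup G} (hΓ : DiscreteTopology Γ) {s : Set G}
    (hs : s ⊆ Γ) : IsClosed s := by
  have h1 : IsClosed (Γ : Set G) := Subgroup.isClosed_of_discrete
  have h2 : s = (Subtype.val : Γ → G) '' {x : Γ | (x : G) ∈ s} := by
    ext x
    constructor
    · intro hx
      exact ⟨⟨x, hs hx⟩, hx, rfl⟩
    · rintro ⟨y, hy, rfl⟩
      exact hy
  rw [h2]
  exact h1.isClosedEmbedding_subtypeVal.isClosedMap _ (isClosed_discrete _)

theorem good_closed [T2Space G] {Γ : Subgroup G} (hΓ : DiscreteTopology Γ) {k : ℕ}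
    {Z : Subgroup G} (hZ : Good Γ k Z) {K₁ : Set G} (hK₁ : IsCompact K₁)
    (hK₁L : ∀ x ∈ K₁, x ∈ LC G (k + 1))
    (hK₁Γ : ∀ g ∈ LC G (k + 1), ∃ x ∈ K₁, ∃ γ ∈ Γ, γ ∈ LC G (k + 1) ∧ g = x * γ) :
    IsClosed (Z : Set G) := by
  obtain ⟨h1, h2, h3, C, hC, hCZ, hCz⟩ := hZ
  have h4 : (Z : Set G) = (C * K₁) * ((Γ ⊓ LC G k : Subgroup G) : Set G) := by
    ext z
    constructor
    · intro hz
      obtain ⟨c, hc, γ, hγ, hγk, l, hl, rfl⟩ := hCz z hz
      have h5 : γ * l * γ⁻¹ ∈ LC G (k + 1) :=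
        (inferInstance : (LC G (k + 1)).Normal).conj_mem l hl γ
      obtain ⟨x, hx, γ', hγ', hγ'k, h6⟩ := hK₁Γ _ h5
      refine Set.mem_mul.2 ⟨c * x, Set.mul_mem_mul hc hx, γ' * γ, ?_, ?_⟩
      · exact ⟨mul_mem hγ' hγ, mul_mem (Pool.Agent.V11106.LC_anti (Nat.le_succ k) hγ'k) hγk⟩
      · have : c * x * (γ' * γ) = c * (x * γ') * γ := by group
        rw [this, ← h6]
        group
    · intro hz
      obtain ⟨y, hy, γ, hγ, rfl⟩ := Set.mem_mul.1 hz
      obtain ⟨c, hc, x, hx, rfl⟩ := Set.mem_mul.1 hy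
      exact mul_mem (mul_mem (hCZ c hc) (h1 (hK₁L x hx))) (h2 hγ)
  rw [h4]
  refine IsClosed.mul_left_of_isCompact ?_ (hC.mul hK₁)
  exact isClosed_subset hΓ fun x hx => hx.1

theorem good_step {Γ : Subgroup G} {k : ℕ} {Z : Subgroup G} (hZ : Good Γ k Z)
    {K : Set G} (hK : IsCompact K) (hKΓ : ∀ g : G, ∃ x ∈ K, ∃ γ ∈ Γ, g = x * γ)
    (Ψ : G → G) (hΨc : Continuous Ψ) (hΨk : ∀ g, Ψ g ∈ LC G k)
    (hΨm : ∀ g h, q (k + 1) (Ψ (g * h)) = q (k + 1) (Ψ g) * q (k + 1) (Ψ h))
    (hΨΓ : ∀ γ ∈ Γ, Ψ γ ∈ Γ) :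
    ∃ Z' : Subgroup G, Z ≤ Z' ∧ Good Γ k Z' ∧ ∀ g, Ψ g ∈ Z' := by
  obtain ⟨h1, h2, h3, C, hC, hCZ, hCz⟩ := hZ
  have hΨ1 : q (k + 1) (Ψ 1) = 1 := by
    have := hΨm 1 1
    rw [mul_one] at this
    exact mul_eq_left.1 this.symm
  have hcen : ∀ {z : G}, z ∈ LC G k → ∀ g : G,
      q (k + 1) g * q (k + 1) z = q (k + 1) z * q (k + 1) g := fun hz g => q_comm hz g
  let Z' : Subgroup G :=
    { carrier := {x | ∃ g : G, ∃ z ∈ Z, q (k + 1) x = q (k + 1) (Ψ g) * q (k + 1) z}
      one_mem' := ⟨1, 1, one_mem _, by rw [hΨ1, map_one, one_mul]⟩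
      mul_mem' := by
        rintro x y ⟨g, z, hz, hx⟩ ⟨g', z', hz', hy⟩
        refine ⟨g * g', z * z', mul_mem hz hz', ?_⟩
        rw [map_mul, map_mul, hx, hy, hΨm]
        have := hcen (h3 hz) (Ψ g')
        calc q (k + 1) (Ψ g) * q (k + 1) z * (q (k + 1) (Ψ g') * q (k + 1) z')
            = q (k + 1) (Ψ g) * (q (k + 1) z * q (k + 1) (Ψ g')) * q (k + 1) z' := by
              simp only [mul_assoc]
          _ = _ := by
              rw [← this]
              simp only [mul_assoc]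
      inv_mem' := by
        rintro x ⟨g, z, hz, hx⟩
        refine ⟨g⁻¹, z⁻¹, inv_mem hz, ?_⟩
        have h4 : q (k + 1) (Ψ g⁻¹) = (q (k + 1) (Ψ g))⁻¹ := by
          rw [eq_inv_iff_mul_eq_one, ← hΨm, inv_mul_cancel, hΨ1]
        rw [map_inv, hx, mul_inv_rev, h4, map_inv, ← mul_inv_rev, ← mul_inv_rev, hcen (h3 hz)] }
  have hZZ' : Z ≤ Z' := fun z hz => ⟨1, z, hz, by rw [hΨ1, one_mul]⟩
  have hΨZ' : ∀ g, Ψ g ∈ Z' := fun g => ⟨g, 1, one_mem _, by rw [map_one, mul_one]⟩
  refine ⟨Z', hZZ', ⟨h1.trans hZZ', h2.trans hZZ', ?_, Ψ '' K * C, (hK.image hΨc).mul hC, ?_, ?_⟩,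
    hΨZ'⟩
  · rintro x ⟨g, z, hz, hx⟩
    rw [← map_mul, q_eq] at hx
    have h4 := mul_mem (Pool.Agent.V11106.LC_anti (Nat.le_succ k) hx) (mul_mem (hΨk g) (h3 hz))
    rwa [inv_mul_cancel_right] at h4
  · rintro _ ⟨_, ⟨x, hx, rfl⟩, c, hc, rfl⟩
    exact mul_mem (hΨZ' x) (hZZ' (hCZ c hc))
  · rintro x ⟨g, z, hz, hx⟩
    obtain ⟨κ, hκ, γ, hγ, rfl⟩ := hKΓ g
    obtain ⟨c, hc, γ', hγ', hγ'k, l, hl, rfl⟩ := hCz z hz
    refine ⟨Ψ κ * c, Set.mul_mem_mul ⟨κ, hκ, rfl⟩ hc, Ψ γ * γ', mul_mem (hΨΓ γ hγ) hγ',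
      mul_mem (hΨk γ) hγ'k, (Ψ κ * c * (Ψ γ * γ'))⁻¹ * x, ?_, by group⟩
    rw [← q_eq_one, map_mul, map_inv, inv_mul_eq_one, hx, hΨm]
    simp only [map_mul]
    rw [q_eq_one.2 hl, mul_one]
    have := hcen (h3 (hCZ c hc)) (Ψ γ)
    calc q (k + 1) (Ψ κ) * q (k + 1) c * (q (k + 1) (Ψ γ) * q (k + 1) γ')
        = q (k + 1) (Ψ κ) * (q (k + 1) c * q (k + 1) (Ψ γ)) * q (k + 1) γ' := by
          simp only [mul_assoc]
      _ = _ := by
          rw [← this]
          simp only [mul_assoc]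

/-- finitely many steps -/
theorem good_steps {Γ : Subgroup G} {k : ℕ}
    {K : Set G} (hK : IsCompact K) (hKΓ : ∀ g : G, ∃ x ∈ K, ∃ γ ∈ Γ, g = x * γ)
    {I : Type*} (Ψ : I → G → G) (hΨc : ∀ i, Continuous (Ψ i)) (hΨk : ∀ i g, Ψ i g ∈ LC G k)
    (hΨm : ∀ i g h, q (k + 1) (Ψ i (g * h)) = q (k + 1) (Ψ i g) * q (k + 1) (Ψ i h))
    (hΨΓ : ∀ i, ∀ γ ∈ Γ, Ψ i γ ∈ Γ) (s : Finset I) :
    ∃ Z : Subgroup G, Good Γ k Z ∧ ∀ i ∈ s, ∀ g, Ψ i g ∈ Z := by
  classical
  induction s using Finset.induction_on with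
  | empty => exact ⟨_, good_base Γ k, fun i hi => absurd hi (Finset.notMem_empty i)⟩
  | insert i s _ ih =>
    obtain ⟨Z, hZ, hZs⟩ := ih
    obtain ⟨Z', hZZ', hZ', hi⟩ := good_step hZ hK hKΓ (Ψ i) (hΨc i) (hΨk i) (hΨm i) (hΨΓ i)
    refine ⟨Z', hZ', fun j hj g => ?_⟩
    rcases Finset.mem_insert.1 hj with rfl | hj
    · exact hi g
    · exact hZZ' (hZs j hj g)

/-- the rooted step -/
theorem rooted_step {Γ : Subgroup G} {K : Set G} (hK : IsCompact K)
    (hKΓ : ∀ g : G, ∃ x ∈ K, ∃ γ ∈ Γ, g = x * γ) {Z : Subgroup G} (hZc : IsClosed (Z : Set G))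
    (m : ℕ) (hLZ : LC G m ≤ Z) (F : G → G → G) (hFc : Continuous fun p : G × G => F p.1 p.2)
    (hF1 : ∀ h, F 1 h = 1) (hF1' : ∀ g, F g 1 = 1)
    (hFl : ∀ g g' h, q m (F (g * g') h) = q m (F g h) * q m (F g' h))
    (hFr : ∀ g h h', q m (F g (h * h')) = q m (F g h) * q m (F g h'))
    (hFΓ : ∀ g, ∀ γ ∈ Γ, F g γ ∈ Z) {v : G} (hv : Rooted v) (h : G) : F v h ∈ Z := by
  obtain ⟨f, hf, hf2⟩ := hv
  by_contra hcon
  have hpow1 : ∀ g h (n : ℕ), q m (F (g ^ n) h) = q m (F g h) ^ n := by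
    intro g h n
    induction n with
    | zero => rw [pow_zero, pow_zero, hF1, map_one]
    | succ n ih => rw [pow_succ, pow_succ, hFl, ih]
  have hpow2 : ∀ g h (n : ℕ), q m (F g (h ^ n)) = q m (F g h) ^ n := by
    intro g h n
    induction n with
    | zero => rw [pow_zero, pow_zero, hF1', map_one]
    | succ n ih => rw [pow_succ, pow_succ, hFr, ih]
  have hopen : IsOpen {p : G × G | (F p.1 p.2)⁻¹ * F v h ∉ Z} := by
    have hc : Continuous fun p : G × G => (F p.1 p.2)⁻¹ * F v h := hFc.inv.mul continuous_const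
    exact hZc.isOpen_compl.preimage hc
  have hsub : ({1} : Set G) ×ˢ K ⊆ {p : G × G | (F p.1 p.2)⁻¹ * F v h ∉ Z} := by
    rintro ⟨x, y⟩ ⟨hx, _⟩
    rw [Set.mem_singleton_iff] at hx
    have hx' : x = 1 := hx
    subst hx'
    change (F 1 y)⁻¹ * F v h ∉ Z
    rw [hF1, inv_one, one_mul]
    exact hcon
  obtain ⟨A, B, hA, hB, h1A, hKB, hAB⟩ := generalized_tube_lemma isCompact_singleton hK hopen hsub
  have hAn : A ∈ 𝓝 (1 : G) := hA.mem_nhds (h1A rfl)
  obtain ⟨n, hn1, hn2⟩ := ((hf.eventually hAn).and hf2).exists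
  obtain ⟨κ, hκ, γ, hγ, hh⟩ := hKΓ (h ^ n)
  have h2 : (F (f n) κ)⁻¹ * F v h ∉ Z := hAB (Set.mk_mem_prod hn1 (hKB hκ))
  apply h2
  have e1 : q m (F v h) = q m (F (f n) κ) * q m (F (f n) γ) := by
    rw [← hFr, ← hh, hpow2, ← hpow1, hn2]
  have e2 : q m ((F (f n) κ)⁻¹ * F v h) = q m (F (f n) γ) := by
    rw [map_mul, map_inv, e1, inv_mul_cancel_left]
  have h3 := mul_mem (hLZ (q_eq.1 e2)) (hFΓ (f n) γ hγ)
  rwa [inv_mul_cancel_right] at h3

omit [TopologicalSpace G] [IsTopologicalGroup G] in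
/-- congruence -/
theorem mem_congr {Z : Subgroup G} {m : ℕ} (hLZ : LC G m ≤ Z) {x y : G} (h : q m x = q m y)
    (hy : y ∈ Z) : x ∈ Z := by
  have h1 := mul_mem (hLZ (q_eq.1 h)) hy
  rwa [inv_mul_cancel_right] at h1

omit [TopologicalSpace G] [IsTopologicalGroup G] in
/-- the set of entries at which `Mc` stays in `Z` is closed under products and inverses -/
theorem slot_closure {k : ℕ} {Z : Subgroup G} (hLZ : LC G (k + 1) ≤ Z) (S : Set G)
    (v : Fin (k + 1) → G) (i : Fin (k + 1)) (hS : ∀ g ∈ S, Mc k (Function.update v i g) ∈ Z) :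
    ∀ g ∈ Subgroup.closure S, Mc k (Function.update v i g) ∈ Z := by
  intro g hg
  induction hg using Subgroup.closure_induction with
  | mem x hx => exact hS x hx
  | one =>
    rw [Mc_one k _ i (Function.update_self i 1 v)]
    exact one_mem _
  | mul x y _ _ hx hy =>
    exact mem_congr hLZ (y := Mc k (Function.update v i x) * Mc k (Function.update v i y))
      (by rw [Mc_mul, map_mul]) (mul_mem hx hy)
  | inv x _ hx =>
    refine mem_congr hLZ (y := (Mc k (Function.update v i x))⁻¹) ?_ (inv_mem hx)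
    rw [map_inv, eq_inv_iff_mul_eq_one, ← Mc_mul, inv_mul_cancel,
      Mc_one k _ i (Function.update_self i 1 v), map_one]

/-- all nested commutators lie in a good subgroup -/
theorem exists_good [T2Space G] {Γ : Subgroup G} (hΓ : DiscreteTopology Γ)
    {K : Set G} (hK : IsCompact K) (hKΓ : ∀ g : G, ∃ x ∈ K, ∃ γ ∈ Γ, g = x * γ)
    (hfg : Γ.FG) (hgen : Subgroup.closure ((Γ : Set G) ∪ {c | Rooted c}) = ⊤) (k : ℕ)
    {K₁ : Set G} (hK₁ : IsCompact K₁) (hK₁L : ∀ x ∈ K₁, x ∈ LC G (k + 1))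
    (hK₁Γ : ∀ g ∈ LC G (k + 1), ∃ x ∈ K₁, ∃ γ ∈ Γ, γ ∈ LC G (k + 1) ∧ g = x * γ) :
    ∃ Z : Subgroup G, Good Γ k Z ∧ ∀ v : Fin (k + 1) → G, Mc k v ∈ Z := by
  classical
  obtain ⟨S, hS, h1S⟩ : ∃ S : Finset G, Subgroup.closure (S : Set G) = Γ ∧ (1 : G) ∈ S := by
    obtain ⟨S, hS⟩ := hfg
    refine ⟨insert 1 S, ?_, Finset.mem_insert_self 1 S⟩
    rw [Finset.coe_insert, Subgroup.closure_insert_one, hS]
  have hSΓ : ∀ s ∈ S, s ∈ Γ := fun s hs => by
    rw [← hS]
    exact Subgroup.subset_closure hs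
  obtain ⟨Z, hZ, hZi⟩ := good_steps (Γ := Γ) (k := k) hK hKΓ
    (I := Fin (k + 1) × (Fin (k + 1) → S))
    (fun p g => Mc k (Function.update (fun i => ((p.2 i : S) : G)) p.1 g))
    (fun p => (Mc_continuous k).comp (by fun_prop))
    (fun p g => Mc_mem k _)
    (fun p g h => Mc_mul k _ _ g h)
    (fun p γ hγ => Mc_sub Γ k _ fun i => by
      by_cases hi : i = p.1
      · subst hi
        rw [Function.update_self]
        exact hγ
      · rw [Function.update_of_ne hi]
        exact hSΓ _ (p.2 i).2) Finset.univ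
  have hLZ : LC G (k + 1) ≤ Z := hZ.1
  have hZc : IsClosed (Z : Set G) := good_closed hΓ hZ hK₁ hK₁L hK₁Γ
  -- one free entry, the others in `Γ`
  have hE1 : ∀ T : Finset (Fin (k + 1)), ∀ (i : Fin (k + 1)) (v : Fin (k + 1) → G),
      (∀ j, j ≠ i → j ∈ T → v j ∈ Γ) → (∀ j, j ≠ i → j ∉ T → v j ∈ S) → Mc k v ∈ Z := by
    intro T
    induction T using Finset.induction_on with
    | empty =>
      intro i v _ hv
      have h1 := hZi (i, fun j => if h : v j ∈ S then ⟨v j, h⟩ else ⟨1, h1S⟩)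
        (Finset.mem_univ _) (v i)
      have h2 : Function.update (fun j => (((if h : v j ∈ S then ⟨v j, h⟩ else ⟨1, h1S⟩ : S)) : G))
          i (v i) = v := by
        funext j
        by_cases hj : j = i
        · subst hj
          rw [Function.update_self]
        · rw [Function.update_of_ne hj, dif_pos (hv j hj (Finset.notMem_empty j))]
      simp only at h1
      rw [h2] at h1
      exact h1
    | insert t T ht ih =>
      intro i v hv hvS
      by_cases hti : t = i
      · refine ih i v (fun j hj hjT => hv j hj (Finset.mem_insert_of_mem hjT)) fun j hj hjT => ?_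
        refine hvS j hj ?_
        rw [Finset.mem_insert]
        rintro (h | h)
        · exact hj (h.trans hti)
        · exact hjT h
      · have h1 : v t ∈ Subgroup.closure (S : Set G) := by
          rw [hS]
          exact hv t hti (Finset.mem_insert_self t T)
        have h2 := slot_closure hLZ (S : Set G) v t (fun g hg => by
          refine ih i _ (fun j hj hjT => ?_) fun j hj hjT => ?_
          · have hjt : j ≠ t := fun h => ht (h ▸ hjT)
            rw [Function.update_of_ne hjt]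
            exact hv j hj (Finset.mem_insert_of_mem hjT)
          · by_cases hjt : j = t
            · subst hjt
              rw [Function.update_self]
              exact hg
            · rw [Function.update_of_ne hjt]
              refine hvS j hj ?_
              rw [Finset.mem_insert]
              rintro (h | h)
              · exact hjt h
              · exact hjT h) (v t) h1
        rwa [Function.update_eq_self] at h2
  -- general
  have hE : ∀ T : Finset (Fin (k + 1)), ∀ v : Fin (k + 1) → G, (∀ j, j ∉ T → v j ∈ Γ) →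
      Mc k v ∈ Z := by
    intro T
    induction T using Finset.strongInduction with
    | H T ih =>
      intro v hv
      by_cases hT : ∃ i ∈ T, ∃ j ∈ T, i ≠ j
      · obtain ⟨i, hi, j, hj, hij⟩ := hT
        -- entries `i` and `j`
        have hu1 : ∀ g h, Function.update (Function.update v i g) j h =
            Function.update (Function.update v j h) i g := fun g h =>
          Function.update_comm hij g h v
        have hFl : ∀ g g' h, q (k + 1) (Mc k (Function.update (Function.update v i (g * g')) j h)) =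
            q (k + 1) (Mc k (Function.update (Function.update v i g) j h)) *
            q (k + 1) (Mc k (Function.update (Function.update v i g') j h)) := by
          intro g g' h
          rw [hu1, hu1, hu1, Mc_mul]
        have hFΓ : ∀ g, ∀ γ ∈ Γ, Mc k (Function.update (Function.update v i g) j γ) ∈ Z := by
          intro g γ hγ
          refine ih (T.erase j) (Finset.erase_ssubset hj) _ fun l hl => ?_
          by_cases hlj : l = j
          · subst hlj
            rw [Function.update_self]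
            exact hγ
          · have hlT : l ∉ T := fun h => hl (Finset.mem_erase.2 ⟨hlj, h⟩)
            have hli : l ≠ i := fun h => hlT (h ▸ hi)
            rw [Function.update_of_ne hlj, Function.update_of_ne hli]
            exact hv l hlT
        have hΓF : ∀ γ ∈ Γ, ∀ h, Mc k (Function.update (Function.update v i γ) j h) ∈ Z := by
          intro γ hγ h
          refine ih (T.erase i) (Finset.erase_ssubset hi) _ fun l hl => ?_
          by_cases hli : l = i
          · subst hli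
            rw [hu1, Function.update_self]
            exact hγ
          · have hlT : l ∉ T := fun h => hl (Finset.mem_erase.2 ⟨hli, h⟩)
            have hlj : l ≠ j := fun h => hlT (h ▸ hj)
            rw [Function.update_of_ne hlj, Function.update_of_ne hli]
            exact hv l hlT
        have hroot : ∀ c, Rooted c → ∀ h,
            Mc k (Function.update (Function.update v i c) j h) ∈ Z := by
          intro c hc h
          refine rooted_step hK hKΓ hZc (k + 1) hLZ
            (fun g h => Mc k (Function.update (Function.update v i g) j h)) ?_ ?_ ?_ hFl ?_ hFΓ hc h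
          · exact (Mc_continuous k).comp (by fun_prop)
          · intro h
            exact Mc_one k _ i (by rw [hu1, Function.update_self])
          · intro g
            exact Mc_one k _ j (by rw [Function.update_self])
          · intro g h h'
            exact Mc_mul k _ j h h'
        have h1 : v i ∈ Subgroup.closure ((Γ : Set G) ∪ {c | Rooted c}) := by
          rw [hgen]
          exact Subgroup.mem_top _
        have h2 := slot_closure hLZ ((Γ : Set G) ∪ {c | Rooted c}) v i (fun g hg => by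
          have h3 : Function.update v i g =
              Function.update (Function.update v i g) j (v j) := by
            rw [hu1, Function.update_eq_self]
          rw [h3]
          rcases hg with hg | hg
          · exact hΓF g hg (v j)
          · exact hroot g hg (v j)) (v i) h1
        rwa [Function.update_eq_self] at h2
      · push Not at hT
        rcases T.eq_empty_or_nonempty with rfl | ⟨i, hi⟩
        · exact hE1 Finset.univ 0 v (fun j _ _ => hv j (Finset.notMem_empty j))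
            fun j _ hj => absurd (Finset.mem_univ j) hj
        · refine hE1 Finset.univ i v (fun j hj _ => hv j fun hjT => ?_)
            fun j _ hj => absurd (Finset.mem_univ j) hj
          exact hj (hT j hjT i hi)
  exact ⟨Z, hZ, fun v => hE Finset.univ v fun j hj => absurd (Finset.mem_univ j) hj⟩

end top

end RatL

theorem rat_lemma {G : Type} [Group G] [TopologicalSpace G] [IsTopologicalGroup G] [T2Space G]
    (hG : Group.IsNilpotent G) (Γ : Subgroup G) (hΓ : DiscreteTopology Γ)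
    (K : Set G) (hK : IsCompact K) (hKΓ : ∀ g : G, ∃ x ∈ K, ∃ γ ∈ Γ, g = x * γ)
    (hfg : Γ.FG) (hgen : Subgroup.closure ((Γ : Set G) ∪ {c | Rooted c}) = ⊤) :
    ∀ k : ℕ, ∃ K' : Set G, IsCompact K' ∧ (∀ x ∈ K', x ∈ LC G k) ∧
      ∀ g ∈ LC G k, ∃ x ∈ K', ∃ γ ∈ Γ, γ ∈ LC G k ∧ g = x * γ := by
  obtain ⟨c, hc⟩ := (Subgroup.nilpotent_iff_lowerCentralSeries (G := G)).1 hG
  have hbot : ∀ k, c ≤ k → LC G k = ⊥ := fun k hk =>
    le_bot_iff.1 ((Pool.Agent.V11106.LC_anti hk).trans hc.le)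
  have key : ∀ d k : ℕ, c ≤ k + d → ∃ K' : Set G, IsCompact K' ∧ (∀ x ∈ K', x ∈ LC G k) ∧
      ∀ g ∈ LC G k, ∃ x ∈ K', ∃ γ ∈ Γ, γ ∈ LC G k ∧ g = x * γ := by
    intro d
    induction d with
    | zero =>
      intro k hk
      refine ⟨{1}, isCompact_singleton, ?_, ?_⟩
      · intro x hx
        rw [Set.mem_singleton_iff.1 hx]
        exact one_mem _
      · intro g hg
        rw [hbot k (by omega), Subgroup.mem_bot] at hg
        subst hg
        exact ⟨1, rfl, 1, one_mem _, one_mem _, by rw [one_mul]⟩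
    | succ d ih =>
      intro k hk
      obtain ⟨K₁, hK₁, hK₁L, hK₁Γ⟩ := ih (k + 1) (by omega)
      obtain ⟨Z, ⟨h1, h2, h3, C, hC, hCZ, hCz⟩, hM⟩ :=
        RatL.exists_good hΓ hK hKΓ hfg hgen k hK₁ hK₁L hK₁Γ
      have hZ : LC G k ≤ Z := by
        refine (RatL.Mc_gen k).trans (sup_le ?_ h1)
        rw [Subgroup.closure_le]
        rintro _ ⟨v, rfl⟩
        exact hM v
      refine ⟨C * K₁, hC.mul hK₁, ?_, ?_⟩
      · rintro _ ⟨x, hx, y, hy, rfl⟩
        exact mul_mem (h3 (hCZ x hx)) (Pool.Agent.V11106.LC_anti (Nat.le_succ k) (hK₁L y hy))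
      · intro g hg
        obtain ⟨x, hx, γ, hγ, hγk, l, hl, rfl⟩ := hCz g (hZ hg)
        have h5 : γ * l * γ⁻¹ ∈ LC G (k + 1) :=
          (inferInstance : (LC G (k + 1)).Normal).conj_mem l hl γ
        obtain ⟨y, hy, γ', hγ', hγ'k, h6⟩ := hK₁Γ _ h5
        refine ⟨x * y, Set.mul_mem_mul hx hy, γ' * γ, mul_mem hγ' hγ,
          mul_mem (Pool.Agent.V11106.LC_anti (Nat.le_succ k) hγ'k) hγk, ?_⟩
        have : x * y * (γ' * γ) = x * (y * γ') * γ := by group
        rw [this, ← h6]
        group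
  intro k
  exact key c k (by omega)

end Pool.Agent.T6.H51.NS
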