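import Pool.Agent.T6.H51.NS.Defs
import Pool.Agent.T6.H51.NS.Rat
import Pool.Agent.T6.H51.NS.FG
import Pool.Agent.V11106.Nil8

/-!
# Reduction of the frozen statement to the abstract nilsystems
-/

set_option autoImplicit false

namespace Pool.Agent.T6.H51.NS

open Filter Topology
open scoped commutatorElement Pointwise

namespace LieRed

section T0
variable {E : Type*} [TopologicalSpace E] [T2Space E] {G : Type*} [TopologicalSpace G]
  [ChartedSpace E G]

theorem t0 (E : Type*) [TopologicalSpace E] [T2Space E] (G : Type*) [TopologicalSpace G]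
    [ChartedSpace E G] : T0Space G := by
  refine ⟨fun x y hxy => ?_⟩
  have hx : x ∈ (chartAt E x).source := mem_chart_source E x
  have hy : y ∈ (chartAt E x).source := (hxy.mem_open_iff (chartAt E x).open_source).1 hx
  have h1 : ContinuousAt (chartAt E x) x := (chartAt E x).continuousAt hx
  have h2 : Inseparable (chartAt E x x) (chartAt E x y) := by
    have h3 : Inseparable (⟨x, hx⟩ : (chartAt E x).source) ⟨y, hy⟩ :=
      Topology.IsInducing.subtypeVal.inseparable_iff.1 hxy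
    have h4 : Continuous ((chartAt E x).source.domRestrict (chartAt E x)) :=
      continuousOn_iff_continuous_domRestrict.1 (chartAt E x).continuousOn
    exact h3.map h4
  exact (chartAt E x).injOn hx hy h2.eq

end T0

section grp
variable {G : Type*} [Group G] [TopologicalSpace G] [IsTopologicalGroup G]

/-- the identity component -/
def N0 (G : Type*) [Group G] [TopologicalSpace G] [IsTopologicalGroup G] : Subgroup G :=
  Subgroup.connectedComponentOfOne G

theorem N0_coe : (N0 G : Set G) = connectedComponent (1 : G) := rfl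

theorem N0_normal : (N0 G).Normal := by
  refine ⟨fun n hn g => ?_⟩
  have h1 : IsPreconnected ((fun x => g * x * g⁻¹) '' connectedComponent (1 : G)) :=
    isPreconnected_connectedComponent.image _ (by fun_prop)
  have h2 : (1 : G) ∈ (fun x => g * x * g⁻¹) '' connectedComponent (1 : G) :=
    ⟨1, mem_connectedComponent, by simp⟩
  exact h1.subset_connectedComponent h2 ⟨n, hn, rfl⟩

theorem N0_open [LocallyConnectedSpace G] : IsOpen (N0 G : Set G) := by
  rw [N0_coe]
  exact isOpen_connectedComponent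

theorem N0_conn : IsPreconnected (N0 G : Set G) := isPreconnected_connectedComponent

/-- a connected open subgroup is contained in every subgroup which is a neighbourhood of `1` -/
theorem le_of_nhds {N : Subgroup G} (hN : IsPreconnected (N : Set G)) {H : Subgroup G}
    (hH : (H : Set G) ∈ 𝓝 (1 : G)) : N ≤ H := by
  have ho : IsOpen (H : Set G) := H.isOpen_of_mem_nhds hH
  have hc : IsClopen (H : Set G) := ⟨H.isClosed_of_isOpen ho, ho⟩
  exact hN.subset_isClopen hc ⟨1, N.one_mem, H.one_mem⟩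

end grp

section trans
variable {G : Type*} [Group G] [TopologicalSpace G] [IsTopologicalGroup G]

/-- transitivity of an open normal subgroup on a totally minimal system -/
theorem transitive (N : Subgroup G) (hN : N.Normal) (hNo : IsOpen (N : Set G)) (Γ : Subgroup G)
    [CompactSpace (G ⧸ Γ)] (g : G)
    (hg : ∀ m : ℕ, 0 < m → ∀ x : G ⧸ Γ, Dense (Set.range (fun n : ℤ => (g ^ m) ^ n • x)))
    (w : G) : ∃ v ∈ N, ∃ γ ∈ Γ, w = v * γ := by
  let O : G ⧸ Γ → Set (G ⧸ Γ) := fun x => {y | ∃ v ∈ N, y = v • x}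
  have hself : ∀ x, x ∈ O x := fun x => ⟨1, N.one_mem, (one_smul _ _).symm⟩
  have hopen : ∀ x, IsOpen (O x) := by
    intro x
    obtain ⟨h, rfl⟩ := QuotientGroup.mk_surjective x
    have : O (QuotientGroup.mk h) = (fun y : G => (QuotientGroup.mk y : G ⧸ Γ)) ''
        ((fun v => v * h) '' (N : Set G)) := by
      ext y
      constructor
      · rintro ⟨v, hv, rfl⟩
        exact ⟨v * h, ⟨v, hv, rfl⟩, rfl⟩
      · rintro ⟨_, ⟨v, hv, rfl⟩, rfl⟩
        exact ⟨v, hv, rfl⟩
    rw [this]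
    exact QuotientGroup.isOpenMap_coe _ (isOpenMap_mul_right h _ hNo)
  have hsymm : ∀ {x y}, y ∈ O x → x ∈ O y := by
    rintro x y ⟨v, hv, rfl⟩
    exact ⟨v⁻¹, N.inv_mem hv, (inv_smul_smul v x).symm⟩
  have htrans : ∀ {x y z}, y ∈ O x → z ∈ O y → z ∈ O x := by
    rintro x y z ⟨v, hv, rfl⟩ ⟨u, hu, rfl⟩
    exact ⟨u * v, N.mul_mem hu hv, (mul_smul u v x).symm⟩
  have hgO : ∀ (k : G) {x y}, y ∈ O x → k • y ∈ O (k • x) := by
    rintro k x y ⟨v, hv, rfl⟩
    refine ⟨k * v * k⁻¹, hN.conj_mem v hv k, ?_⟩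
    rw [mul_smul, mul_smul, inv_smul_smul]
  have hclosed : ∀ x, IsClosed (O x) := by
    intro x
    rw [← isOpen_compl_iff]
    have : (O x)ᶜ = ⋃ y ∈ (O x)ᶜ, O y := by
      ext z
      constructor
      · intro hz
        exact Set.mem_biUnion hz (hself z)
      · intro hz
        obtain ⟨y, hy, hzy⟩ := Set.mem_iUnion₂.1 hz
        intro hzx
        exact hy (htrans hzx (hsymm hzy))
    rw [this]
    exact isOpen_biUnion fun y _ => hopen y
  set x₀ : G ⧸ Γ := ((1 : G) : G ⧸ Γ) with hx₀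
  obtain ⟨t, ht⟩ := isCompact_univ.elim_finite_subcover O hopen (by
    intro y _
    exact Set.mem_iUnion.2 ⟨y, hself y⟩)
  have hch : ∀ n : ℕ, ∃ y : t, g ^ n • x₀ ∈ O y := by
    intro n
    obtain ⟨y, hy, h⟩ := Set.mem_iUnion₂.1 (ht (Set.mem_univ (g ^ n • x₀)))
    exact ⟨⟨y, hy⟩, h⟩
  choose c hc using hch
  obtain ⟨n, m, hnm, hcnm⟩ := Finite.exists_ne_map_eq_of_infinite c
  -- wlog n < m
  have key : ∀ n m : ℕ, n < m → c n = c m → ∃ k : ℕ, 0 < k ∧ g ^ k • x₀ ∈ O x₀ := by
    intro n m hnm hcnm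
    refine ⟨m - n, by omega, ?_⟩
    have h1 : g ^ m • x₀ ∈ O (g ^ n • x₀) := by
      have h2 := hc n
      rw [hcnm] at h2
      exact htrans (hsymm h2) (hc m)
    have h2 := hgO (g ^ n)⁻¹ h1
    rw [inv_smul_smul, ← mul_smul] at h2
    have h3 : (g ^ n)⁻¹ * g ^ m = g ^ (m - n) := by
      have : g ^ m = g ^ n * g ^ (m - n) := by
        rw [← pow_add]
        congr 1
        omega
      rw [this]
      group
    rwa [h3] at h2
  obtain ⟨k, hk, hkO⟩ : ∃ k : ℕ, 0 < k ∧ g ^ k • x₀ ∈ O x₀ := by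
    rcases Nat.lt_or_gt_of_ne hnm with h | h
    · exact key n m h hcnm
    · exact key m n h hcnm.symm
  have hz : ∀ j : ℤ, (g ^ k) ^ j • x₀ ∈ O x₀ := by
    have h1 : ∀ y ∈ O x₀, g ^ k • y ∈ O x₀ := fun y hy => htrans hkO (hgO _ hy)
    have h2 : (g ^ k)⁻¹ • x₀ ∈ O x₀ := by
      have := hgO (g ^ k)⁻¹ hkO
      rw [inv_smul_smul] at this
      exact hsymm this
    have h3 : ∀ y ∈ O x₀, (g ^ k)⁻¹ • y ∈ O x₀ := fun y hy => htrans h2 (hgO _ hy)
    intro j
    induction j using Int.induction_on with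
    | zero => simpa using hself x₀
    | succ i ih =>
      rw [add_comm, zpow_add, zpow_one, mul_smul]
      exact h1 _ ih
    | pred i ih =>
      have : -(i : ℤ) - 1 = -1 + -(i : ℤ) := by ring
      rw [this, zpow_add, zpow_neg_one, mul_smul]
      exact h3 _ ih
  have huniv : O x₀ = Set.univ := by
    rw [Set.eq_univ_iff_forall]
    intro y
    have h1 : closure (Set.range fun n : ℤ => (g ^ k) ^ n • x₀) ⊆ O x₀ := by
      refine (hclosed x₀).closure_subset_iff.2 ?_
      rintro _ ⟨j, rfl⟩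
      exact hz j
    exact h1 (hg k hk x₀ y)
  have hw : (w : G ⧸ Γ) ∈ O x₀ := by rw [huniv]; exact Set.mem_univ _
  obtain ⟨v, hv, h⟩ := hw
  refine ⟨v, hv, v⁻¹ * w, ?_, by group⟩
  rw [← QuotientGroup.eq, h, hx₀]
  change _ = ((v * 1 : G) : G ⧸ Γ)
  rw [mul_one]

end trans

section core
variable {G : Type} [Group G] [TopologicalSpace G] [IsTopologicalGroup G]

/-- the reduction for locally compact, locally connected groups with small roots -/
theorem core [T2Space G] [LocallyCompactSpace G] [LocallyConnectedSpace G] [Group.IsNilpotent G]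
    (hroot : ∀ᶠ c in 𝓝 (1 : G), Rooted c)
    (Γ : Subgroup G) (hΓ : DiscreteTopology Γ) (hX : CompactSpace (G ⧸ Γ)) (g : G)
    (hg : ∀ m : ℕ, 0 < m → ∀ x : G ⧸ Γ, Dense (Set.range (fun n : ℤ => (g ^ m) ^ n • x))) :
    ∃ (G₁ : Type) (_ : Group G₁) (_ : TopologicalSpace G₁) (_ : IsTopologicalGroup G₁)
      (N Γ₁ : Subgroup G₁) (a : G₁) (π : (G₁ ⧸ Γ₁) → G ⧸ Γ), NilSys G₁ N Γ₁ a ∧
      Continuous π ∧ Function.Surjective π ∧
      ∀ (n : ℤ) (x : G₁ ⧸ Γ₁), π (a ^ n • x) = g ^ n • π x := by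
  classical
  have hNn : (N0 G).Normal := N0_normal
  have hNo : IsOpen (N0 G : Set G) := N0_open
  have hNc : IsPreconnected (N0 G : Set G) := N0_conn
  have htr := transitive (N0 G) hNn hNo Γ g hg
  have hΓc : IsClosed (Γ : Set G) := Subgroup.isClosed_of_discrete
  set S : Subgroup G := N0 G ⊔ Subgroup.zpowers g with hS
  have hNS : N0 G ≤ S := le_sup_left
  have hgS : g ∈ S := (le_sup_right : Subgroup.zpowers g ≤ S) (Subgroup.mem_zpowers g)
  have hSo : IsOpen (S : Set G) := Subgroup.isOpen_mono hNS hNo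
  have hSmem : ∀ s ∈ S, ∃ v ∈ N0 G, ∃ n : ℤ, s = v * g ^ n := by
    intro s hs
    have h1 : s ∈ ((N0 G : Set G) * (Subgroup.zpowers g : Set G)) := by
      rw [← Subgroup.normal_mul]
      exact hs
    obtain ⟨v, hv, x, hx, rfl⟩ := Set.mem_mul.1 h1
    obtain ⟨n, rfl⟩ := Subgroup.mem_zpowers_iff.1 hx
    exact ⟨v, hv, n, rfl⟩
  have hSmap : IsOpenMap (Subtype.val : S → G) := hSo.isOpenMap_subtype_val
  set a : S := ⟨g, hgS⟩ with ha
  set N : Subgroup S := (N0 G).subgroupOf S with hN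
  set Γ₁ : Subgroup S := Γ.subgroupOf S with hΓ₁
  have hNopen : IsOpen (N : Set S) := hNo.preimage continuous_subtype_val
  have hNconn : IsPreconnected (N : Set S) := by
    have h1 : ((fun x : S => (x : G)) '' (N : Set S) : Set G) = (N0 G : Set G) := by
      ext x
      constructor
      · rintro ⟨y, hy, rfl⟩
        exact hy
      · intro hx
        exact ⟨⟨x, hNS hx⟩, hx, rfl⟩
    have h2 : IsPreconnected ((fun x : S => (x : G)) '' (N : Set S)) := by
      rw [h1]
      exact hNc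
    exact (Topology.IsInducing.isPreconnected_image Topology.IsInducing.subtypeVal).1 h2
  have hgenA : ∀ s : S, ∃ v ∈ N, ∃ n : ℤ, s = v * a ^ n := by
    rintro ⟨s, hs⟩
    obtain ⟨v, hv, n, rfl⟩ := hSmem s hs
    exact ⟨⟨v, hNS hv⟩, hv, n, rfl⟩
  have hgenΓ : ∀ s : S, ∃ v ∈ N, ∃ γ ∈ Γ₁, s = v * γ := by
    rintro ⟨s, hs⟩
    obtain ⟨v, hv, γ, hγ, rfl⟩ := htr s
    have hγS : γ ∈ S := by
      have := S.mul_mem (S.inv_mem (hNS hv)) hs
      rwa [inv_mul_cancel_left] at this
    exact ⟨⟨v, hNS hv⟩, hv, ⟨γ, hγS⟩, hγ, rfl⟩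
  have hclosed : IsClosed (Γ₁ : Set S) := hΓc.preimage continuous_subtype_val
  have hdisc : DiscreteTopology Γ₁ := by
    have h1 : Topology.IsEmbedding (fun x : Γ₁ => (⟨((x : S) : G), x.2⟩ : Γ)) := by
      refine ⟨?_, ?_⟩
      · have h2 : Topology.IsInducing (fun x : Γ₁ => ((x : S) : G)) :=
          Topology.IsInducing.subtypeVal.comp Topology.IsInducing.subtypeVal
        exact Topology.IsInducing.of_comp (by fun_prop) continuous_subtype_val h2
      · intro x y hxy
        have h2 : ((x : S) : G) = ((y : S) : G) :=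
          congrArg (fun z : Γ => (z : G)) hxy
        exact Subtype.ext (Subtype.ext h2)
    exact h1.discreteTopology
  -- the map to `G ⧸ Γ`
  let π : (S ⧸ Γ₁) → G ⧸ Γ := Quotient.lift (fun s : S => ((s : G) : G ⧸ Γ)) (by
    intro x y hxy
    rw [QuotientGroup.eq]
    have h1 : x⁻¹ * y ∈ Γ₁ := QuotientGroup.leftRel_apply.1 hxy
    exact h1)
  have hπ : ∀ s : S, π (s : S ⧸ Γ₁) = ((s : G) : G ⧸ Γ) := fun s => rfl
  have hπc : Continuous π := by
    refine Continuous.quotient_lift ?_ _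
    exact QuotientGroup.continuous_mk.comp continuous_subtype_val
  have hπinj : Function.Injective π := by
    intro x y hxy
    obtain ⟨x, rfl⟩ := QuotientGroup.mk_surjective x
    obtain ⟨y, rfl⟩ := QuotientGroup.mk_surjective y
    rw [hπ, hπ, QuotientGroup.eq] at hxy
    exact QuotientGroup.eq.2 hxy
  have hπsurj : Function.Surjective π := by
    intro x
    obtain ⟨x, rfl⟩ := QuotientGroup.mk_surjective x
    obtain ⟨v, hv, γ, hγ, rfl⟩ := htr x
    refine ⟨((⟨v, hNS hv⟩ : S) : S ⧸ Γ₁), ?_⟩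
    rw [hπ, QuotientGroup.eq]
    simpa using hγ
  have hopen1 : IsOpenMap (fun s : S => ((s : G) : G ⧸ Γ)) :=
    QuotientGroup.isOpenMap_coe.comp hSmap
  have hπopen : IsOpenMap π := by
    intro W hW
    have h1 : π '' W = (fun s : S => ((s : G) : G ⧸ Γ)) ''
        ((fun s : S => (s : S ⧸ Γ₁)) ⁻¹' W) := by
      ext y
      constructor
      · rintro ⟨x, hx, rfl⟩
        obtain ⟨x, rfl⟩ := QuotientGroup.mk_surjective x
        exact ⟨x, hx, rfl⟩
      · rintro ⟨x, hx, rfl⟩
        exact ⟨(x : S ⧸ Γ₁), hx, rfl⟩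
    rw [h1]
    exact hopen1 _ (hW.preimage QuotientGroup.continuous_mk)
  have hπeq : ∀ (n : ℤ) (x : S ⧸ Γ₁), π (a ^ n • x) = g ^ n • π x := by
    intro n x
    obtain ⟨x, rfl⟩ := QuotientGroup.mk_surjective x
    rfl
  have hmini : ∀ x : S ⧸ Γ₁, Dense (Set.range fun n : ℤ => a ^ n • x) := by
    intro x
    rw [dense_iff_inter_open]
    intro W hW hWne
    obtain ⟨z, hz1, hz2⟩ := (hg 1 one_pos (π x)).inter_open_nonempty (π '' W) (hπopen W hW)
      (hWne.image π)
    obtain ⟨n, rfl⟩ := hz2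
    obtain ⟨u, hu, huz⟩ := hz1
    refine ⟨a ^ n • x, ?_, n, rfl⟩
    have h1 : u = a ^ n • x := by
      apply hπinj
      rw [huz, hπeq, pow_one]
    rw [← h1]
    exact hu
  -- compact sets
  have hSlc : LocallyCompactSpace S := hSo.locallyCompactSpace
  obtain ⟨K, hK, hKΓ⟩ : ∃ K : Set S, IsCompact K ∧ ∀ s : S, ∃ x ∈ K, ∃ γ ∈ Γ₁, s = x * γ := by
    have h1 : ∀ s : S, ∃ C : Set S, IsCompact C ∧ C ∈ 𝓝 s := fun s => exists_compact_mem_nhds s
    choose C hC hCn using h1
    obtain ⟨t, ht⟩ := isCompact_univ.elim_finite_subcover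
      (fun s : S => (fun s : S => ((s : G) : G ⧸ Γ)) '' interior (C s))
      (fun s => hopen1 _ isOpen_interior) (by
        intro y _
        obtain ⟨x, hx⟩ := hπsurj y
        obtain ⟨s, rfl⟩ := QuotientGroup.mk_surjective x
        exact Set.mem_iUnion.2 ⟨s, s, mem_interior_iff_mem_nhds.2 (hCn s), hx⟩)
    refine ⟨⋃ s ∈ t, C s, t.isCompact_biUnion fun s _ => hC s, ?_⟩
    intro s
    obtain ⟨i, hi, c, hc, hcs⟩ := Set.mem_iUnion₂.1 (ht (Set.mem_univ ((s : G) : G ⧸ Γ)))
    refine ⟨c, Set.mem_biUnion hi (interior_subset hc), c⁻¹ * s, ?_, by group⟩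
    have h2 : ((c : G) : G ⧸ Γ) = ((s : G) : G ⧸ Γ) := hcs
    rw [QuotientGroup.eq] at h2
    exact h2
  -- generation by a compact set
  obtain ⟨C, hC, hCn, hCN⟩ := local_compact_nhds (hNopen.mem_nhds N.one_mem)
  have hCgen : Subgroup.closure (C ∪ {a}) = ⊤ := by
    rw [eq_top_iff]
    intro s _
    have h1 : N ≤ Subgroup.closure (C ∪ {a}) := by
      refine le_of_nhds hNconn ?_
      refine Filter.mem_of_superset hC ?_
      exact fun x hx => Subgroup.subset_closure (Or.inl hx)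
    have h2 : a ∈ Subgroup.closure (C ∪ {a}) := Subgroup.subset_closure (Or.inr rfl)
    obtain ⟨v, hv, n, rfl⟩ := hgenA s
    exact mul_mem (h1 hv) (zpow_mem h2 n)
  have hfg : Γ₁.FG := fg_lemma Γ₁ hdisc (C ∪ {a}) (hCN.union isCompact_singleton) hCgen K hK hKΓ
  -- rooted elements
  have hrootS : ∀ᶠ c : S in 𝓝 (1 : S), Rooted c := by
    have h1 : ∀ᶠ c : S in 𝓝 (1 : S), Rooted (c : G) :=
      (continuous_subtype_val.tendsto (1 : S)).eventually hroot
    filter_upwards [h1] with c hc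
    obtain ⟨f, hf, hf2⟩ := hc
    have hev : ∀ᶠ n in atTop, f n ∈ S := hf.eventually (hSo.mem_nhds S.one_mem)
    refine ⟨fun n => if h : f n ∈ S then ⟨f n, h⟩ else 1, ?_, ?_⟩
    · rw [tendsto_subtype_rng]
      refine hf.congr' ?_
      filter_upwards [hev] with n hn
      rw [dif_pos hn]
    · filter_upwards [hev, hf2] with n hn hn2
      rw [dif_pos hn]
      exact Subtype.ext hn2
  have hgen : Subgroup.closure ((Γ₁ : Set S) ∪ {c | Rooted c}) = ⊤ := by
    rw [eq_top_iff]
    intro s _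
    have h1 : N ≤ Subgroup.closure ((Γ₁ : Set S) ∪ {c | Rooted c}) := by
      refine le_of_nhds hNconn ?_
      refine Filter.mem_of_superset hrootS ?_
      exact fun x hx => Subgroup.subset_closure (Or.inr hx)
    obtain ⟨v, hv, γ, hγ, rfl⟩ := hgenΓ s
    exact mul_mem (h1 hv) (Subgroup.subset_closure (Or.inl hγ))
  have hnil : Group.IsNilpotent S := inferInstance
  exact ⟨S, inferInstance, inferInstance, inferInstance, N, Γ₁, a, π,
    { nil := hnil
      t2 := inferInstance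
      normal := inferInstance
      isOpen := hNopen
      conn := hNconn
      genA := hgenA
      genΓ := hgenΓ
      closedΓ := hclosed
      rat := rat_lemma hnil Γ₁ hdisc K hK hKΓ hfg hgen
      mini := hmini }, hπc, hπsurj, hπeq⟩

end core

end LieRed

open scoped Manifold in
theorem lie_reduce (E : Type) [NormedAddCommGroup E] [NormedSpace ℝ E] [FiniteDimensional ℝ E]
    (G : Type) [Group G] [TopologicalSpace G] [ChartedSpace E G]
    [LieGroup (modelWithCornersSelf ℝ E) ((⊤ : ℕ∞) : WithTop ℕ∞) G] [Group.IsNilpotent G]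
    (Γ : Subgroup G) (hΓ : DiscreteTopology Γ) (hX : CompactSpace (G ⧸ Γ)) (g : G)
    (hg : ∀ m : ℕ, 0 < m → ∀ x : G ⧸ Γ, Dense (Set.range (fun n : ℤ => (g ^ m) ^ n • x))) :
    ∃ (G₁ : Type) (_ : Group G₁) (_ : TopologicalSpace G₁) (_ : IsTopologicalGroup G₁)
      (N Γ₁ : Subgroup G₁) (a : G₁) (π : (G₁ ⧸ Γ₁) → G ⧸ Γ), NilSys G₁ N Γ₁ a ∧
      Continuous π ∧ Function.Surjective π ∧
      ∀ (n : ℤ) (x : G₁ ⧸ Γ₁), π (a ^ n • x) = g ^ n • π x := by
  have htop : IsTopologicalGroup G := topologicalGroup_of_lieGroup 𝓘(ℝ, E) ((⊤ : ℕ∞) : WithTop ℕ∞)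
  have h0 : T0Space G := LieRed.t0 E G
  have h2 : T2Space G := inferInstance
  have hE : ProperSpace E := FiniteDimensional.proper ℝ E
  have hlc : LocallyCompactSpace G := ChartedSpace.locallyCompactSpace E G
  have hlcn : LocallyConnectedSpace G := ChartedSpace.locallyConnectedSpace E G
  have hroot : ∀ᶠ c in 𝓝 (1 : G), Rooted c := by
    have h := Pool.Agent.V11106.rooted_nhds (E := E) (G := G)
    filter_upwards [h] with c hc
    exact hc
  exact LieRed.core hroot Γ hΓ hX g hg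

end Pool.Agent.T6.H51.NS
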