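import Pool.Agent.T6.H51.NS.MI

set_option autoImplicit false

namespace Pool.Agent.T6.H51.NS

open Filter Topology
open scoped commutatorElement Pointwise

section fin
variable {G : Type} [Group G] {D : ℕ} [TopologicalSpace G] [IsTopologicalGroup G]

/-- everything we know about `X = G ⧸ Γ`, packaged -/
theorem package {N Γ : Subgroup G} {a : G} (hS : NilSys G N Γ a) (D : ℕ) :
    IsClosed (PP D Γ) ∧ Dist D Γ ∧ Inv D N a Γ := by
  have hn := hS.nil
  obtain ⟨c, hc⟩ := Subgroup.nilpotent_iff_lowerCentralSeries.1 hn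
  have hCC : CC Γ c = Γ := by
    change LC G c ⊔ Γ = Γ
    rw [show LC G c = ⊥ from hc, bot_sup_eq]
  have h1 := Dist_all (D := D) hS.closedΓ hS.rat c
  have h2 := Inv_all (D := D) hS c
  rw [hCC] at h1 h2
  exact ⟨PP_closed Γ Γ le_rfl hS.closedΓ hc hS.rat, h1, h2⟩

/-- translates of the orbit closure `M` of the base point under the `k`-th power -/
theorem sg_FF_smul {a : G} {k : ℕ} {C : Subgroup G} (i : ℤ) {y : A D → G ⧸ C}
    (hy : y ∈ FF D a k C) :
    sg D a ^ i • y ∈ closure {z | ∃ t ∈ AA D a k, z = t • (sg D a ^ i • om D C)} := by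
  refine map_mem_closure (smul_cont _) hy ?_
  rintro z ⟨t, ht, rfl⟩
  refine ⟨t, ht, ?_⟩
  rw [← mul_smul, ← mul_smul]
  congr 1
  have h1 : sg D a ^ i ∈ AA D a 1 := by
    have := sg_mem_AA (D := D) a 1 i
    simpa using this
  exact AA_comm h1 (AA_le_one a k ht)

/-- the orbit closure of `sg a ^ i • ω` -/
def FI (D : ℕ) (a : G) (k : ℕ) (C : Subgroup G) (i : ℤ) : Set (A D → G ⧸ C) :=
  closure {z | ∃ t ∈ AA D a k, z = t • (sg D a ^ i • om D C)}

omit [IsTopologicalGroup G] in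
theorem FI_zero (a : G) (k : ℕ) (C : Subgroup G) : FI D a k C 0 = FF D a k C := by
  unfold FI FF
  simp only [zpow_zero, one_smul]

theorem sg_mem_AA_one (a : G) (i : ℤ) : sg D a ^ i ∈ AA D a 1 := by
  have := sg_mem_AA (D := D) a 1 i
  simpa using this

theorem FI_smul {a : G} {k : ℕ} {C : Subgroup G} (i j : ℤ) {y : A D → G ⧸ C}
    (hy : y ∈ FI D a k C i) : sg D a ^ j • y ∈ FI D a k C (j + i) := by
  refine map_mem_closure (smul_cont _) hy ?_
  rintro z ⟨t, ht, rfl⟩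
  refine ⟨t, ht, ?_⟩
  rw [← mul_smul, ← mul_smul, ← mul_smul, zpow_add]
  congr 1
  rw [AA_comm (sg_mem_AA_one a j) (AA_le_one a k ht), mul_assoc]

theorem FI_add {a : G} {k : ℕ} {C : Subgroup G} (i n : ℤ) :
    FI D a k C (i + k * n) ⊆ FI D a k C i := by
  refine closure_minimal ?_ isClosed_closure
  rintro z ⟨t, ht, rfl⟩
  refine subset_closure ⟨t * sg D a ^ ((k : ℤ) * n), (AA D a k).mul_mem ht (sg_mem_AA a k n), ?_⟩
  rw [← mul_smul, ← mul_smul, mul_assoc, ← zpow_add, add_comm i]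

theorem FI_mod {a : G} {k : ℕ} {C : Subgroup G} (i j : ℤ) (h : i % k = j % k) :
    FI D a k C i = FI D a k C j := by
  have h1 : ∀ i : ℤ, FI D a k C i = FI D a k C (i % k) := by
    intro i
    apply Set.Subset.antisymm
    · have := FI_add (D := D) (a := a) (k := k) (C := C) (i % k) (i / k)
      rwa [Int.emod_add_mul_ediv] at this
    · have := FI_add (D := D) (a := a) (k := k) (C := C) i (-(i / k))
      have h2 : i + k * -(i / k) = i % k := by
        have := Int.emod_add_mul_ediv i k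
        linarith
      rwa [h2] at this
  rw [h1 i, h1 j, h]

theorem FI_sub_FF {a : G} {k : ℕ} {C : Subgroup G} (i : ℤ) :
    FI D a k C i ⊆ FF D a 1 C := by
  refine closure_mono ?_
  rintro z ⟨t, ht, rfl⟩
  exact ⟨t * sg D a ^ i, (AA D a 1).mul_mem (AA_le_one a k ht) (sg_mem_AA_one a i),
    by rw [mul_smul]⟩

theorem FF_cover {a : G} {k : ℕ} (hk : 0 < k) {C : Subgroup G} {y : A D → G ⧸ C}
    (hy : y ∈ FF D a 1 C) : ∃ i : Fin k, y ∈ FI D a k C (i : ℕ) := by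
  have hcl : IsClosed (⋃ i : Fin k, FI D a k C (i : ℕ)) :=
    isClosed_iUnion_of_finite fun i => isClosed_closure
  have : FF D a 1 C ⊆ ⋃ i : Fin k, FI D a k C (i : ℕ) := by
    refine closure_minimal ?_ hcl
    rintro z ⟨t, ht, rfl⟩
    obtain ⟨n, m, rfl⟩ := mem_AA ht
    rw [Set.mem_iUnion]
    have h1 : (0 : ℤ) < k := by exact_mod_cast hk
    have h2 : 0 ≤ n % (k : ℤ) := Int.emod_nonneg _ h1.ne'
    have h3 : n % (k : ℤ) < k := Int.emod_lt_of_pos _ h1
    refine ⟨⟨(n % (k : ℤ)).toNat, by omega⟩, ?_⟩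
    have h4 : (((n % (k : ℤ)).toNat : ℕ) : ℤ) = n % k := Int.toNat_of_nonneg h2
    change _ ∈ FI D a k C (((n % (k : ℤ)).toNat : ℕ) : ℤ)
    rw [h4]
    refine subset_closure ⟨sg D a ^ ((k : ℤ) * (n / k)) * Tg D a ^ m,
      (AA D a k).mul_mem (sg_mem_AA a k _) (Tg_mem_AA a k m), ?_⟩
    rw [← mul_smul]
    congr 1
    have h5 := AA_comm (Tg_mem_AA (D := D) a 1 m) (sg_mem_AA_one (D := D) a (n % k))
    rw [mul_assoc, h5, ← mul_assoc, ← zpow_add, Nat.cast_one, one_mul]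
    congr 2
    have := Int.emod_add_mul_ediv n k
    linarith
  exact Set.mem_iUnion.1 (this hy)

/-- **The orbit closure under the `k`-th power is everything.** -/
theorem FF_pow {N Γ : Subgroup G} {a : G} (hS : NilSys G N Γ a) (D : ℕ) {k : ℕ} (hk : 0 < k) :
    FF D a 1 Γ ⊆ FF D a k Γ := by
  obtain ⟨hP, hDist, hInv⟩ := package hS D
  have : CompactSpace (G ⧸ Γ) := X_compact Γ _ le_rfl hS.rat
  have hcl := hS.closedΓ
  have : T2Space (G ⧸ Γ) := QuotientGroup.instT2Space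
  -- pieces are equal or disjoint
  have hmin : ∀ i : ℤ, ∀ y ∈ FI D a k Γ i, FI D a k Γ i ⊆
      closure {z | ∃ t ∈ AA D a k, z = t • y} := by
    intro i y hy
    exact min_of_Dist hP hDist (PP_smul (AA_Pl (sg_mem_AA_one a i)) (PP_om _)) hy
  have hsub : ∀ i : ℤ, ∀ y ∈ FI D a k Γ i, closure {z | ∃ t ∈ AA D a k, z = t • y} ⊆
      FI D a k Γ i := by
    intro i y hy
    refine closure_minimal ?_ isClosed_closure
    rintro z ⟨t, ht, rfl⟩
    refine map_mem_closure (smul_cont _) hy ?_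
    rintro z ⟨s, hs, rfl⟩
    exact ⟨t * s, (AA D a k).mul_mem ht hs, by rw [mul_smul]⟩
  have heq : ∀ i j : ℤ, ∀ y, y ∈ FI D a k Γ i → y ∈ FI D a k Γ j →
      FI D a k Γ i = FI D a k Γ j := by
    intro i j y hi hj
    exact Set.Subset.antisymm ((hmin i y hi).trans (hsub j y hj))
      ((hmin j y hj).trans (hsub i y hi))
  -- the map from `N`
  let F : N → (A D → G ⧸ Γ) := fun v => sg D ((v : G) * a) • om D Γ
  have hF : Continuous F := by
    refine continuous_pi fun q => ?_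
    change Continuous fun v : N => ((((v : G) * a) ^ ev q 1 * 1 : G) : G ⧸ Γ)
    refine QuotientGroup.continuous_mk.comp ?_
    exact ((continuous_subtype_val.mul continuous_const).zpow _).mul continuous_const
  have hFm : ∀ v, F v ∈ FF D a 1 Γ := fun v => hInv _ (sg_mem D N a v) _ FF_om
  let S : Set N := F ⁻¹' FI D a k Γ 1
  have hSc : IsClosed S := isClosed_closure.preimage hF
  have hSc' : IsClosed Sᶜ := by
    have : Sᶜ = ⋃ i : {i : Fin k // FI D a k Γ ((i : ℕ) : ℤ) ≠ FI D a k Γ 1},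
        F ⁻¹' FI D a k Γ ((i : Fin k) : ℕ) := by
      ext v
      rw [Set.mem_compl_iff, Set.mem_iUnion]
      constructor
      · intro hv
        obtain ⟨i, hi⟩ := FF_cover hk (hFm v)
        refine ⟨⟨i, fun h => hv ?_⟩, hi⟩
        change F v ∈ FI D a k Γ 1
        rw [← h]
        exact hi
      · rintro ⟨⟨i, hi⟩, hv⟩ hv'
        exact hi (heq _ _ _ hv hv')
    rw [this]
    exact isClosed_iUnion_of_finite fun i => isClosed_closure.preimage hF
  have hSn : (1 : N) ∈ S := by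
    change sg D (((1 : N) : G) * a) • om D Γ ∈ FI D a k Γ 1
    refine subset_closure ⟨1, (AA D a k).one_mem, ?_⟩
    simp
  have hconn : PreconnectedSpace N := isPreconnected_iff_preconnectedSpace.1 hS.conn
  have hSu : S = Set.univ := IsClopen.eq_univ ⟨hSc, isClosed_compl_iff.1 hSc'⟩ ⟨1, hSn⟩
  -- an element of `Γ` in `N a`
  obtain ⟨v, hv, γ, hγ, hvγ⟩ := hS.genΓ a
  have hγ1 : v⁻¹ * a = γ := by rw [hvγ]; group
  have hω : F ⟨v⁻¹, N.inv_mem hv⟩ = om D Γ := by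
    change sg D (v⁻¹ * a) • om D Γ = om D Γ
    rw [hγ1]
    funext q
    change ((γ ^ ev q 1 * 1 : G) : G ⧸ Γ) = ((1 : G) : G ⧸ Γ)
    rw [eq_comm, QuotientGroup.eq]
    simpa using Γ.zpow_mem hγ _
  have hω1 : om D Γ ∈ FI D a k Γ 1 := by
    rw [← hω]
    have : (⟨v⁻¹, N.inv_mem hv⟩ : N) ∈ S := by rw [hSu]; trivial
    exact this
  have h01 : FI D a k Γ 0 = FI D a k Γ 1 := by
    refine heq 0 1 (om D Γ) ?_ hω1
    rw [FI_zero]; exact FF_om
  have hall : ∀ i : ℕ, FI D a k Γ (i : ℤ) = FI D a k Γ 0 := by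
    intro i
    induction i with
    | zero => rfl
    | succ i ih =>
      have h1 : sg D a ^ (i : ℤ) • om D Γ ∈ FI D a k Γ ((i : ℤ) + 1) := FI_smul 1 i hω1
      have h2 : sg D a ^ (i : ℤ) • om D Γ ∈ FI D a k Γ (i : ℤ) :=
        subset_closure ⟨1, (AA D a k).one_mem, by rw [one_smul]⟩
      push_cast
      rw [← ih]
      exact heq _ _ _ h1 h2
  intro y hy
  obtain ⟨i, hi⟩ := FF_cover hk hy
  rw [hall, FI_zero] at hi
  exact hi

/-- **Recurrence.** -/
theorem recurrence {N Γ : Subgroup G} {a : G} (hS : NilSys G N Γ a) (D : ℕ) {k : ℕ} (hk : 0 < k)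
    (j : ℕ) (g : G) (O : Set (A D → G ⧸ Γ)) (hO : IsOpen O)
    (hg : (fun _ : A D => (g : G ⧸ Γ)) ∈ O) :
    ∃ n : ℕ, 0 < n ∧ ∃ m : ℤ,
      (fun q : A D => a ^ (ev q ((k : ℤ) * n + j) + m) • ((1 : G) : G ⧸ Γ)) ∈ O := by
  obtain ⟨hP, hDist, -⟩ := package hS D
  have : CompactSpace (G ⧸ Γ) := X_compact Γ _ le_rfl hS.rat
  have hcl := hS.closedΓ
  have : T2Space (G ⧸ Γ) := QuotientGroup.instT2Space
  set s : Sg D G := sg D a with hs
  -- the target point
  have ht : s ^ (-(j : ℤ)) • (fun _ : A D => (g : G ⧸ Γ)) ∈ FF D a k Γ :=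
    FF_pow hS D hk (FF_inv (sg_mem_AA_one a _) (const_mem le_rfl 1 (hS.mini _) g))
  set O' : Set (A D → G ⧸ Γ) := (fun y => s ^ (j : ℤ) • y) ⁻¹' O with hO'
  have hO'o : IsOpen O' := hO.preimage (smul_cont _)
  have htO : s ^ (-(j : ℤ)) • (fun _ : A D => (g : G ⧸ Γ)) ∈ O' := by
    change s ^ (j : ℤ) • s ^ (-(j : ℤ)) • (fun _ : A D => (g : G ⧸ Γ)) ∈ O
    rw [← mul_smul, ← zpow_add, add_neg_cancel, zpow_zero, one_smul]
    exact hg
  -- a cluster point of `s^(k n) ω`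
  obtain ⟨z, -, hz⟩ := (isCompact_univ (X := A D → G ⧸ Γ)).exists_mapClusterPt
    (f := (atTop : Filter ℕ)) (u := fun n : ℕ => s ^ ((k : ℤ) * n) • om D Γ) (by simp)
  have hzF : z ∈ FF D a k Γ := by
    refine isClosed_closure.mem_of_mapClusterPt hz ?_
    exact Eventually.of_forall fun n => FF_inv (sg_mem_AA a k n) FF_om
  have h1 : s ^ (-(j : ℤ)) • (fun _ : A D => (g : G ⧸ Γ)) ∈
      closure {w | ∃ t ∈ AA D a k, w = t • z} := min_of_Dist hP hDist (PP_om _) hzF ht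
  obtain ⟨w, hw, t, ht', rfl⟩ := mem_closure_iff.1 h1 O' hO'o htO
  obtain ⟨n₁, m, rfl⟩ := mem_AA ht'
  have h2 : IsOpen ((fun y : A D → G ⧸ Γ => (s ^ ((k : ℤ) * n₁) * Tg D a ^ m) • y) ⁻¹' O') :=
    hO'o.preimage (smul_cont _)
  have h3 := hz.frequently (h2.mem_nhds hw)
  obtain ⟨n, hn, h4⟩ := (h3.and_eventually (eventually_gt_atTop (n₁.natAbs))).exists
  refine ⟨((n : ℤ) + n₁).toNat, by omega, m, ?_⟩
  have h5 : ((((n : ℤ) + n₁).toNat : ℕ) : ℤ) = n + n₁ := Int.toNat_of_nonneg (by omega)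
  rw [h5]
  have h6 : s ^ (j : ℤ) • (s ^ ((k : ℤ) * n₁) * Tg D a ^ m) • (s ^ ((k : ℤ) * n) • om D Γ) ∈ O :=
    hn
  convert h6 using 1
  rw [← mul_smul, ← mul_smul]
  have h7 : s ^ (j : ℤ) * (s ^ ((k : ℤ) * n₁) * Tg D a ^ m * s ^ ((k : ℤ) * n)) =
      s ^ ((k : ℤ) * (n + n₁) + j) * Tg D a ^ m := by
    have h8 := AA_comm (Tg_mem_AA (D := D) a 1 m) (sg_mem_AA_one (D := D) a ((k : ℤ) * n))
    rw [mul_assoc (s ^ ((k : ℤ) * n₁)), hs, h8, ← mul_assoc, ← mul_assoc, ← zpow_add, ← zpow_add]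
    congr 2
    ring
  rw [mul_assoc (s ^ (j : ℤ)), h7, mul_smul, hs, sg_zpow_smul, Tg_zpow, Tg_smul]
  funext q
  change _ = a ^ _ • a ^ m • ((1 : G) : G ⧸ Γ)
  rw [zpow_add, mul_smul]

end fin

end Pool.Agent.T6.H51.NS
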