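import Pool.Agent.T6.H51.NS.Pl

/-!
# Newton expansions of polynomial maps (module Newton of the nilsystem project)

A polynomial map `A D → G` into a filtered group which is trivial at all points of total degree
`< k` has values in the `k`-th group of the filtration.  Peeling off factors `x ^ bin μ` we get
Newton expansions, lifts of the parts of polynomial maps modulo a subgroup `Γ`, and compactness of
the space of polynomial maps modulo `Γ`-valued maps.
-/

set_option autoImplicit false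

namespace Pool.Agent.T6.H51.NS

open Filter Topology
open scoped commutatorElement

section
variable {G : Type} [Group G] {F : ℕ → Subgroup G} {D : ℕ}

private theorem pt_zero : (pt (0 : Fin D → ℕ) : A D) = 0 := by
  funext l; simp [pt]

private theorem pt_add_single (ν : Fin D → ℕ) (l : Fin D) :
    (pt (ν + Pi.single l 1) : A D) = pt ν + Pi.single l 1 := by
  funext m
  by_cases h : m = l
  · subst h; simp [pt]
  · simp [pt, h]

private theorem single_mem (S : AddSubgroup (A D)) (h : ∀ l, (Pi.single l 1 : A D) ∈ S) :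
    S = ⊤ := by
  rw [eq_top_iff]
  intro q _
  have h1 : q = ∑ l, q l • (Pi.single l 1 : A D) := by
    funext m
    rw [Finset.sum_apply, Finset.sum_eq_single m]
    · simp
    · intro b _ hb
      simp [Pi.single_eq_of_ne (Ne.symm hb)]
    · intro hm; exact absurd (Finset.mem_univ m) hm
  rw [h1]
  exact S.sum_mem (fun l _ => S.zsmul_mem (h l) _)

theorem vanish (_hF : IsFilt F) {j k : ℕ} {p : A D → G} (hp : Pl F j p)
    (h : ∀ ν : Fin D → ℕ, ∑ l, ν l < k → p (pt ν) = 1) : ∀ q, p q ∈ F (j + k) := by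
  induction k generalizing j p with
  | zero => intro q; simpa using Pl_mem hp q
  | succ k ih =>
    have h1 : ∀ (l : Fin D) (q : A D), Dif (Pi.single l 1 : A D) p q ∈ F (j + (k + 1)) := by
      intro l q
      have h2 := ih (Pl_Dif hp (Pi.single l 1 : A D)) (fun ν hν => by
        have e1 : p (pt ν) = 1 := h ν (by omega)
        have e2 : p (pt ν + Pi.single l 1) = 1 := by
          rw [← pt_add_single]
          apply h
          have : ∑ m, (ν + Pi.single l 1 : Fin D → ℕ) m = ∑ m, ν m + 1 := by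
            simp only [Pi.add_apply, Finset.sum_add_distrib]
            congr 1
            rw [Finset.sum_eq_single l]
            · simp
            · intro b _ hb; simp [Pi.single_eq_of_ne hb]
            · intro hm; exact absurd (Finset.mem_univ l) hm
          rw [this]; omega
        simp only [Dif, e1, e2, inv_one, mul_one]) q
      have : j + 1 + k = j + (k + 1) := by omega
      rwa [this] at h2
    let S : AddSubgroup (A D) :=
      { carrier := {v | ∀ q, p (q + v) ∈ F (j + (k + 1)) ↔ p q ∈ F (j + (k + 1))}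
        zero_mem' := fun q => by rw [add_zero]
        add_mem' := fun {a b} ha hb q => by
          have e := hb (q + a)
          rw [add_assoc] at e
          exact e.trans (ha q)
        neg_mem' := fun {a} ha q => by
          have := ha (q + -a)
          rw [neg_add_cancel_right] at this
          exact this.symm }
    have hS : S = ⊤ := single_mem S (fun l q => by
      have := h1 l q
      have e : p (q + Pi.single l 1) = Dif (Pi.single l 1 : A D) p q * p q := by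
        simp [Dif]
      rw [e]
      exact (F (j + (k + 1))).mul_mem_cancel_left this)
    intro q
    have hq : q ∈ S := by rw [hS]; trivial
    have h0 := hq 0
    rw [zero_add] at h0
    rw [h0, ← pt_zero, h 0 (by simp)]
    exact one_mem _

private theorem bin_self (μ : Fin D → ℕ) : bin μ (pt μ) = 1 := by
  unfold bin pt
  apply Finset.prod_eq_one
  intro l _
  rw [Ring.choose_natCast, Nat.choose_self, Nat.cast_one]

private theorem bin_ne (μ ν : Fin D → ℕ) (hne : ν ≠ μ) (h : ∑ l, ν l ≤ ∑ l, μ l) :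
    bin μ (pt ν) = 0 := by
  have h1 : ∃ l, ν l < μ l := by
    by_contra hcon
    push Not at hcon
    apply hne
    have h2 : ∑ l, μ l ≤ ∑ l, ν l := Finset.sum_le_sum (fun l _ => hcon l)
    have h3 : ∑ l, μ l = ∑ l, ν l := le_antisymm h2 h
    have h4 := (Finset.sum_eq_sum_iff_of_le (fun l _ => hcon l)).1 h3
    funext l
    exact (h4 l (Finset.mem_univ l)).symm
  obtain ⟨l, hl⟩ := h1
  unfold bin pt
  apply Finset.prod_eq_zero (Finset.mem_univ l)
  rw [Ring.choose_natCast, Nat.choose_eq_zero_of_lt hl, Nat.cast_zero]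

/-- the multi-indices of total degree at most `i` -/
private def box (D i : ℕ) : Finset (Fin D → ℕ) :=
  (Fintype.piFinset (fun _ : Fin D => Finset.range (i + 1))).filter (fun ν => ∑ l, ν l ≤ i)

private theorem mem_box {i : ℕ} {ν : Fin D → ℕ} : ν ∈ box D i ↔ ∑ l, ν l ≤ i := by
  unfold box
  rw [Finset.mem_filter, Fintype.mem_piFinset]
  refine ⟨fun h => h.2, fun h => ⟨fun l => ?_, h⟩⟩
  rw [Finset.mem_range]
  have := Finset.single_le_sum (f := ν) (fun m _ => Nat.zero_le _) (Finset.mem_univ l)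
  omega

private theorem peel (i : ℕ) (Q : Finset (Fin D → ℕ) → Prop) (base : Q (box D i))
    (step : ∀ (T : Finset (Fin D → ℕ)) (μ : Fin D → ℕ), μ ∉ T → ∑ l, μ l ≤ i →
      (∀ ν : Fin D → ℕ, ∑ l, ν l < ∑ l, μ l → ν ∈ T) →
      (∀ ν ∈ T, ∑ l, ν l ≤ ∑ l, μ l) → Q (insert μ T) → Q T) : Q ∅ := by
  have key : ∀ (n : ℕ) (T : Finset (Fin D → ℕ)),
      (∀ ν ∈ T, ∀ μ : Fin D → ℕ, μ ∉ T → ∑ l, ν l ≤ ∑ l, μ l) → T ⊆ box D i →
      (box D i \ T).card = n → Q T := by
    intro n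
    induction n with
    | zero =>
      intro T _ hT hc
      rw [Finset.card_eq_zero, Finset.sdiff_eq_empty_iff_subset] at hc
      rw [Finset.Subset.antisymm hT hc]
      exact base
    | succ n ih =>
      intro T hI hT hc
      have hne : (box D i \ T).Nonempty := by
        rw [← Finset.card_pos]; omega
      obtain ⟨μ, hμ, hmin⟩ := Finset.exists_min_image (box D i \ T) (fun ν => ∑ l, ν l) hne
      rw [Finset.mem_sdiff] at hμ
      have hlt : ∀ ν : Fin D → ℕ, ∑ l, ν l < ∑ l, μ l → ν ∈ T := by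
        intro ν hν
        by_contra hcon
        have h1 : ν ∈ box D i \ T := by
          rw [Finset.mem_sdiff]
          exact ⟨mem_box.2 (le_trans hν.le (mem_box.1 hμ.1)), hcon⟩
        have := hmin ν h1
        omega
      refine step T μ hμ.2 (mem_box.1 hμ.1) hlt (fun ν hν => hI ν hν μ hμ.2) ?_
      apply ih
      · intro ν hν κ hκ
        rw [Finset.mem_insert, not_or] at hκ
        rw [Finset.mem_insert] at hν
        rcases hν with rfl | hν
        · by_contra hcon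
          push Not at hcon
          exact hκ.2 (hlt κ hcon)
        · exact hI ν hν κ hκ.2
      · intro ν hν
        rw [Finset.mem_insert] at hν
        rcases hν with rfl | hν
        · exact hμ.1
        · exact hT hν
      · have e : box D i \ insert μ T = (box D i \ T).erase μ := by
          ext ν
          simp only [Finset.mem_sdiff, Finset.mem_insert, Finset.mem_erase, not_or]
          tauto
        rw [e, Finset.card_erase_of_mem (by rw [Finset.mem_sdiff]; exact hμ), hc]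
        rfl
  exact key _ ∅ (fun ν hν => absurd hν (Finset.notMem_empty ν)) (Finset.empty_subset _) rfl

/-- the peeled map -/
private theorem peeled (hF : IsFilt F) {p : A D → G} (hp : Pl F 0 p)
    {T : Finset (Fin D → ℕ)} {μ : Fin D → ℕ} (hμ : μ ∉ T) (hT : ∀ ν ∈ T, ∑ l, ν l ≤ ∑ l, μ l)
    (h1 : ∀ ν ∈ T, p (pt ν) = 1) {x y : G} (hx : x ∈ F (∑ l, μ l)) (hy : y ∈ F (∑ l, μ l))
    (hxy : p (pt μ) = x * y) :
    ∃ p' : A D → G, Pl F 0 p' ∧ (∀ q, p' q = (x ^ bin μ q)⁻¹ * p q * (y ^ bin μ q)⁻¹) ∧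
      ∀ ν ∈ insert μ T, p' (pt ν) = 1 := by
  refine ⟨(fun q => x ^ bin μ q)⁻¹ * p * (fun q => y ^ bin μ q)⁻¹, ?_, fun q => rfl, ?_⟩
  · exact Pl_mul hF (Pl_mul hF (Pl_inv hF (Pl_bin hF hx μ le_rfl)) hp)
      (Pl_inv hF (Pl_bin hF hy μ le_rfl))
  · intro ν hν
    rw [Finset.mem_insert] at hν
    change (x ^ bin μ (pt ν))⁻¹ * p (pt ν) * (y ^ bin μ (pt ν))⁻¹ = 1
    rcases hν with rfl | hν
    · rw [bin_self, hxy, zpow_one, zpow_one]; group
    · rw [bin_ne μ ν (fun e => hμ (e ▸ hν)) (hT ν hν), h1 ν hν]; simp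

private theorem mem_of_one (hF : IsFilt F) {p : A D → G} (hp : Pl F 0 p)
    {T : Finset (Fin D → ℕ)} {k : ℕ} (hlt : ∀ ν : Fin D → ℕ, ∑ l, ν l < k → ν ∈ T)
    (h1 : ∀ ν ∈ T, p (pt ν) = 1) (q : A D) : p q ∈ F k := by
  have := vanish hF hp (fun ν hν => h1 ν (hlt ν hν)) q
  rwa [zero_add] at this

theorem newton (hF : IsFilt F) {i : ℕ} {p : A D → G} (hp : Pl F 0 p) (hpi : ∀ q, p q ∈ F i) :
    ∃ L : List (G × (Fin D → ℕ)), (∀ x ∈ L, x.1 ∈ F i ∧ ∑ l, x.2 l ≤ i) ∧
      ∀ q, ∃ w ∈ F (i + 1), p q = (L.map fun x => x.1 ^ bin x.2 q).prod * w := by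
  have key := peel (D := D) i (fun T => ∀ p : A D → G, Pl F 0 p → (∀ q, p q ∈ F i) →
      (∀ ν ∈ T, p (pt ν) = 1) →
      ∃ L : List (G × (Fin D → ℕ)), (∀ x ∈ L, x.1 ∈ F i ∧ ∑ l, x.2 l ≤ i) ∧
      ∀ q, ∃ w ∈ F (i + 1), p q = (L.map fun x => x.1 ^ bin x.2 q).prod * w) ?_ ?_
  · exact key p hp hpi (fun ν hν => absurd hν (Finset.notMem_empty ν))
  · intro p hp _ h1
    refine ⟨[], fun x hx => absurd hx (List.not_mem_nil), fun q => ⟨p q, ?_, by simp⟩⟩
    exact mem_of_one hF hp (T := box D i) (fun ν hν => mem_box.2 (by omega)) h1 q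
  · intro T μ hμ hμi hlt hle IH p hp hpi h1
    obtain ⟨p', hp', hp'q, h1'⟩ := peeled hF hp hμ hle h1 (x := p (pt μ)) (y := 1)
      (mem_of_one hF hp hlt h1 _) (one_mem _) (by simp)
    have hx : p (pt μ) ∈ F i := hpi _
    obtain ⟨L, hL, hLq⟩ := IH p' hp' (fun q => by
      rw [hp'q, one_zpow, inv_one, mul_one]
      exact mul_mem (inv_mem (zpow_mem hx _)) (hpi q)) h1'
    refine ⟨(p (pt μ), μ) :: L, ?_, fun q => ?_⟩
    · intro x hxL
      rw [List.mem_cons] at hxL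
      rcases hxL with rfl | hxL
      · exact ⟨hx, hμi⟩
      · exact hL x hxL
    · obtain ⟨w, hw, hwq⟩ := hLq q
      refine ⟨w, hw, ?_⟩
      rw [List.map_cons, List.prod_cons, mul_assoc, ← hwq, hp'q]
      simp

theorem fibre (hF : IsFilt F) (Γ : Subgroup G) {i : ℕ} {p : A D → G} (hp : Pl F 0 p)
    (hpi : ∀ q, ∃ z ∈ F i, ∃ γ ∈ Γ, p q = z * γ) :
    ∃ Z : A D → G, Pl F 0 Z ∧ (∀ q, Z q ∈ F i) ∧
      ∀ q, ∃ w ∈ F (i + 1), ∃ γ ∈ Γ, p q = Z q * w * γ := by
  have key := peel (D := D) i (fun T => ∀ p : A D → G, Pl F 0 p →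
      (∀ q, ∃ z ∈ F i, ∃ γ ∈ Γ, p q = z * γ) → (∀ ν ∈ T, p (pt ν) = 1) →
      ∃ Z : A D → G, Pl F 0 Z ∧ (∀ q, Z q ∈ F i) ∧
      ∀ q, ∃ w ∈ F (i + 1), ∃ γ ∈ Γ, p q = Z q * w * γ) ?_ ?_
  · exact key p hp hpi (fun ν hν => absurd hν (Finset.notMem_empty ν))
  · intro p hp _ h1
    refine ⟨1, Pl_one 0, fun q => one_mem _, fun q => ⟨p q, ?_, 1, one_mem _, by simp⟩⟩
    exact mem_of_one hF hp (T := box D i) (fun ν hν => mem_box.2 (by omega)) h1 q
  · intro T μ hμ hμi hlt hle IH p hp hpi h1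
    obtain ⟨z, hz, γ, hγ, hzγ⟩ := hpi (pt μ)
    have hz' : z ∈ F (∑ l, μ l) := hF.anti hμi hz
    have hγ' : γ ∈ F (∑ l, μ l) := by
      have h2 := mem_of_one hF hp hlt h1 (pt μ)
      rw [hzγ] at h2
      exact ((F (∑ l, μ l)).mul_mem_cancel_left hz').1 h2
    obtain ⟨p', hp', hp'q, h1'⟩ := peeled hF hp hμ hle h1 hz' hγ' hzγ
    obtain ⟨Z, hZ, hZi, hZq⟩ := IH p' hp' (fun q => by
      obtain ⟨z₁, hz₁, γ₁, hγ₁, h⟩ := hpi q
      refine ⟨(z ^ bin μ q)⁻¹ * z₁, mul_mem (inv_mem (zpow_mem hz _)) hz₁,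
        γ₁ * (γ ^ bin μ q)⁻¹, mul_mem hγ₁ (inv_mem (zpow_mem hγ _)), ?_⟩
      rw [hp'q, h]
      group) h1'
    refine ⟨(fun q => z ^ bin μ q) * Z, Pl_mul hF (Pl_bin hF hz' μ le_rfl) hZ, fun q => ?_,
      fun q => ?_⟩
    · exact mul_mem (zpow_mem hz _) (hZi q)
    · obtain ⟨w, hw, γ₁, hγ₁, h⟩ := hZq q
      refine ⟨w, hw, γ₁ * γ ^ bin μ q, mul_mem hγ₁ (zpow_mem hγ _), ?_⟩
      rw [hp'q] at h
      change p q = z ^ bin μ q * Z q * w * (γ₁ * γ ^ bin μ q)
      calc p q = z ^ bin μ q * ((z ^ bin μ q)⁻¹ * p q * (γ ^ bin μ q)⁻¹) * γ ^ bin μ q := by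
            group
        _ = z ^ bin μ q * (Z q * w * γ₁) * γ ^ bin μ q := by rw [h]
        _ = z ^ bin μ q * Z q * w * (γ₁ * γ ^ bin μ q) := by group

theorem compact_Pl [TopologicalSpace G] [IsTopologicalGroup G] (hF : IsFilt F) (Γ : Subgroup G)
    {c : ℕ} (hc : F (c + 1) = ⊥)
    (hK : ∀ k, ∃ K : Set G, IsCompact K ∧ (∀ x ∈ K, x ∈ F k) ∧
      ∀ g ∈ F k, ∃ x ∈ K, ∃ γ ∈ Γ, γ ∈ F k ∧ g = x * γ) :
    ∃ 𝒦 : Set (A D → G), IsCompact 𝒦 ∧ (∀ k ∈ 𝒦, Pl F 0 k) ∧
      ∀ p : A D → G, Pl F 0 p → ∃ k ∈ 𝒦, ∀ q, ∃ γ ∈ Γ, p q = k q * γ := by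
  have key := peel (D := D) c (fun T => ∃ 𝒦 : Set (A D → G), IsCompact 𝒦 ∧
      (∀ k ∈ 𝒦, Pl F 0 k) ∧ ∀ p : A D → G, Pl F 0 p → (∀ ν ∈ T, p (pt ν) = 1) →
        ∃ k ∈ 𝒦, ∀ q, ∃ γ ∈ Γ, p q = k q * γ) ?_ ?_
  · obtain ⟨𝒦, h1, h2, h3⟩ := key
    exact ⟨𝒦, h1, h2, fun p hp => h3 p hp (fun ν hν => absurd hν (Finset.notMem_empty ν))⟩
  · refine ⟨{1}, isCompact_singleton, ?_, ?_⟩
    · intro k hk
      rw [Set.mem_singleton_iff] at hk
      rw [hk]; exact Pl_one 0
    · intro p hp h1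
      refine ⟨1, rfl, fun q => ⟨1, one_mem _, ?_⟩⟩
      have := mem_of_one hF hp (T := box D c) (k := c + 1)
        (fun ν hν => mem_box.2 (by omega)) h1 q
      rw [hc, Subgroup.mem_bot] at this
      rw [this]; simp
  · intro T μ hμ hμi hlt hle IH
    obtain ⟨𝒦, h𝒦, h𝒦P, h𝒦p⟩ := IH
    obtain ⟨K, hKc, hKF, hKg⟩ := hK (∑ l, μ l)
    refine ⟨(fun y : G × (A D → G) => (fun q => y.1 ^ bin μ q * y.2 q : A D → G)) '' (K ×ˢ 𝒦),
      ?_, ?_, ?_⟩
    · apply (hKc.prod h𝒦).image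
      apply continuous_pi
      intro q
      exact ((continuous_zpow (bin μ q)).comp continuous_fst).mul
        ((continuous_apply q).comp continuous_snd)
    · rintro _ ⟨⟨x, k⟩, ⟨hx, hk⟩, rfl⟩
      exact Pl_mul hF (Pl_bin hF (hKF x hx) μ le_rfl) (h𝒦P k hk)
    · intro p hp h1
      obtain ⟨x, hx, γ, hγ, hγF, hxγ⟩ := hKg (p (pt μ)) (mem_of_one hF hp hlt h1 (pt μ))
      obtain ⟨p', hp', hp'q, h1'⟩ := peeled hF hp hμ hle h1 (hKF x hx) hγF hxγ
      obtain ⟨k, hk, hkq⟩ := h𝒦p p' hp' h1'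
      refine ⟨_, ⟨(x, k), ⟨hx, hk⟩, rfl⟩, fun q => ?_⟩
      obtain ⟨γ₁, hγ₁, h⟩ := hkq q
      refine ⟨γ₁ * γ ^ bin μ q, mul_mem hγ₁ (zpow_mem hγ _), ?_⟩
      rw [hp'q] at h
      change p q = x ^ bin μ q * k q * (γ₁ * γ ^ bin μ q)
      calc p q = x ^ bin μ q * ((x ^ bin μ q)⁻¹ * p q * (γ ^ bin μ q)⁻¹) * γ ^ bin μ q := by
            group
        _ = x ^ bin μ q * (k q * γ₁) * γ ^ bin μ q := by rw [h]
        _ = x ^ bin μ q * k q * (γ₁ * γ ^ bin μ q) := by group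

end

end Pool.Agent.T6.H51.NS
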