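import Pool.Agent.T6.H51.NS.Alg0
import Pool.Agent.T6.H51.NS.Newton

set_option autoImplicit false

namespace Pool.Agent.T6.H51.NS

theorem AlgAux.GG_Pl' {G : Type} [Group G] (D : ℕ) (N : Subgroup G) (a : G) (x : Sg D G)
    (hx : x ∈ GG D N a) : Pl (Fl G) 0 x.left := by
  have hF := isFilt_Fl G
  let P : Subgroup (Sg D G) :=
    { carrier := {x | Pl (Fl G) 0 x.left}
      one_mem' := Pl_one 0
      mul_mem' := by
        intro x y hx hy
        change Pl (Fl G) 0 (x * y).left
        have h1 : (x * y).left = x.left * fun q => y.left (U x.right.toAdd q) := rfl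
        rw [h1]
        exact Pl_mul hF hx (Pl_comp hy (fun q => U x.right.toAdd q)
          (fun q r => U_add_right _ q r))
      inv_mem' := by
        intro x hx
        change Pl (Fl G) 0 (x⁻¹).left
        have h1 : (x⁻¹).left = (fun q => x.left (U (x.right⁻¹).toAdd q))⁻¹ := rfl
        rw [h1]
        exact Pl_inv hF (Pl_comp hx (fun q => U (x.right⁻¹).toAdd q)
          (fun q r => U_add_right _ q r)) }
  have h1 : GG D N a ≤ P := by
    apply AlgAux.GG_ind
    · intro v _
      change Pl (Fl G) 0 (fun q => (v * a) ^ ev q 1)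
      exact Pl_hom hF rfl (v * a) (fun q => ev q 1) (fun q r => ev_add q r 1)
    · intro b
      change Pl (Fl G) 0 (fun _ => b)
      exact Pl_const (Subgroup.mem_top b)
  exact h1 hx

/-- the algebraic core -/
theorem alg_core {G : Type} [Group G] (hG : Group.IsNilpotent G) (D : ℕ) (N : Subgroup G)
    (_hN : N.Normal) (a : G) (hNa : ∀ g : G, ∃ v ∈ N, ∃ n : ℤ, g = v * a ^ n) :
    ∃ M : ℕ, 1 ≤ M ∧ ∀ (V : Type) [CommGroup V] (φ : GG D N a →* V),
      (∀ (b : G) (h : Tg D b ∈ GG D N a), φ ⟨Tg D b, h⟩ = 1) →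
      ∀ p : GG D N a, (p : Sg D G).right = 1 → (∀ q, (p : Sg D G).left q ∈ LC G 1) →
        φ p ^ M = 1 :=
  AlgAux.alg_core_of hG D N a hNa (fun x hx => AlgAux.GG_Pl' D N a x hx)
    (fun _ _ hp hpi => newton (isFilt_Fl G) hp hpi)

theorem sg_mem {G : Type} [Group G] (D : ℕ) (N : Subgroup G) (a : G) (v : N) :
    sg D ((v : G) * a) ∈ GG D N a := Subgroup.subset_closure (Or.inl ⟨v, v.2, rfl⟩)

end Pool.Agent.T6.H51.NS
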