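import Pool.Agent.T6.H51.NS.Defs

set_option autoImplicit false

namespace Pool.Agent.T6.H51.NS

open scoped commutatorElement

namespace AlgAux

/-! ### numerical part -/

section num

open Polynomial

/-- the polynomial vanishing at all `2^e`, `e ≤ W`, `e ≠ 1` -/
noncomputable def KP (W : ℕ) : ℤ[X] :=
  ∏ e ∈ (Finset.range (W + 1)).erase 1, (X - C ((2 : ℤ) ^ e))

theorem KP_eval (W w : ℕ) (hw : w ≤ W) (hw1 : w ≠ 1) : (KP W).eval ((2 : ℤ) ^ w) = 0 := by
  unfold KP
  rw [eval_prod]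
  apply Finset.prod_eq_zero (i := w)
  · simp only [Finset.mem_erase, Finset.mem_range]
    exact ⟨hw1, by omega⟩
  · simp

theorem KP_two (W : ℕ) : (KP W).eval 2 ≠ 0 := by
  unfold KP
  rw [eval_prod, Finset.prod_ne_zero_iff]
  intro e he
  simp only [Finset.mem_erase, Finset.mem_range] at he
  simp only [eval_sub, eval_X, eval_C]
  intro h
  have h1 : (2 : ℤ) ^ 1 = 2 ^ e := by rw [pow_one]; linarith
  have h2 := pow_right_injective₀ (a := (2 : ℤ)) (by norm_num) (by norm_num) h1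
  exact he.1 h2.symm

theorem KP_sum (W : ℕ) (R : ℤ[X]) (hR : R.natDegree ≤ W) :
    ∑ k ∈ Finset.range ((KP W).natDegree + 1), (KP W).coeff k * R.eval ((2 : ℤ) ^ k) =
      R.coeff 1 * (KP W).eval 2 := by
  have h1 : ∀ k : ℕ, R.eval ((2 : ℤ) ^ k) =
      ∑ w ∈ Finset.range (W + 1), R.coeff w * ((2 : ℤ) ^ w) ^ k := by
    intro k
    rw [eval_eq_sum_range' (n := W + 1) (by omega)]
    refine Finset.sum_congr rfl fun w _ => ?_
    rw [← pow_mul, ← pow_mul, mul_comm k w]
  simp only [h1, Finset.mul_sum]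
  rw [Finset.sum_comm]
  have h2 : ∀ w ∈ Finset.range (W + 1), ∑ k ∈ Finset.range ((KP W).natDegree + 1),
      (KP W).coeff k * (R.coeff w * ((2 : ℤ) ^ w) ^ k) = R.coeff w * (KP W).eval ((2 : ℤ) ^ w) := by
    intro w _
    rw [eval_eq_sum_range, Finset.mul_sum]
    refine Finset.sum_congr rfl fun k _ => ?_
    ring
  rw [Finset.sum_congr rfl h2]
  by_cases hW : 1 ≤ W
  · rw [Finset.sum_eq_single 1]
    · rw [pow_one]
    · intro w hw hw1
      rw [KP_eval W w (by simpa [Nat.lt_succ_iff] using hw) hw1, mul_zero]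
    · intro h
      exact absurd (Finset.mem_range.mpr (by omega)) h
  · have hW0 : W = 0 := by omega
    subst hW0
    rw [coeff_eq_zero_of_natDegree_lt (show R.natDegree < 1 by omega), zero_mul]
    apply Finset.sum_eq_zero
    intro w hw
    rw [KP_eval 0 w (by simpa [Nat.lt_succ_iff] using hw) (by
      simp only [Finset.mem_range] at hw; omega), mul_zero]

/-- the polynomial `X ↦ n! choose(c X^(l+1), n)` -/
noncomputable def bp (n : ℕ) (c : ℤ) (l : ℕ) : ℤ[X] :=
  (descPochhammer ℤ n).comp (C c * X ^ (l + 1))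

theorem bp_eval (n : ℕ) (c : ℤ) (l : ℕ) (t : ℤ) :
    (bp n c l).eval t = (n.factorial : ℤ) * Ring.choose (t ^ (l + 1) * c) n := by
  unfold bp
  rw [eval_comp]
  simp only [eval_mul, eval_C, eval_pow, eval_X]
  have h := Ring.descPochhammer_eq_factorial_smul_choose (c * t ^ (l + 1)) n
  rw [← Polynomial.eval_eq_smeval] at h
  rw [h, nsmul_eq_mul, mul_comm c]

theorem comp_coeff (P : ℤ[X]) (c : ℤ) (l : ℕ) :
    (P.comp (C c * X ^ (l + 1))).coeff 0 = P.coeff 0 ∧
    (P.comp (C c * X ^ (l + 1))).coeff 1 = if l = 0 then P.coeff 1 * c else 0 := by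
  induction P using Polynomial.induction_on' with
  | add p q hp hq =>
    rw [add_comp, coeff_add, coeff_add, coeff_add, coeff_add, hp.1, hq.1, hp.2, hq.2]
    refine ⟨rfl, ?_⟩
    split_ifs <;> ring
  | monomial n b =>
    have h1 : (monomial n b).comp (C c * X ^ (l + 1)) = C (b * c ^ n) * X ^ ((l + 1) * n) := by
      rw [← C_mul_X_pow_eq_monomial, mul_comp, C_comp, X_pow_comp, mul_pow, ← C_pow, ← pow_mul,
        ← mul_assoc, ← C_mul]
    rw [h1, coeff_C_mul_X_pow, coeff_C_mul_X_pow, coeff_monomial, coeff_monomial]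
    constructor
    · by_cases hn : n = 0
      · subst hn; simp
      · rw [if_neg (by
          intro h
          rcases Nat.mul_eq_zero.mp h.symm with h | h <;> omega), if_neg hn]
    · by_cases hl : l = 0
      · subst hl
        rw [if_pos rfl]
        by_cases hn : n = 1
        · subst hn; simp
        · rw [if_neg (by omega), if_neg hn, zero_mul]
      · rw [if_neg hl, if_neg]
        intro h
        have h2 : l + 1 ∣ 1 := ⟨n, h⟩
        have := Nat.le_of_dvd one_pos h2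
        omega

theorem bp_natDegree (n : ℕ) (c : ℤ) (l : ℕ) : (bp n c l).natDegree ≤ n * (l + 1) := by
  unfold bp
  refine natDegree_comp_le.trans ?_
  have h1 : (descPochhammer ℤ n).natDegree = n := by
    exact descPochhammer_natDegree ℤ n
  rw [h1]
  exact Nat.mul_le_mul_left _ (natDegree_C_mul_X_pow_le _ _)

/-- the coefficient of `t` of the polynomial attached to `q` -/
def q1 {D : ℕ} (q : A D) : ℤ := ∑ l : Fin D, if (l : ℕ) = 0 then q l else 0

theorem q1_eq {D : ℕ} (q : A D) (l : Fin D) (hl : (l : ℕ) = 0) : q1 q = q l := by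
  unfold q1
  rw [Finset.sum_eq_single l]
  · rw [if_pos hl]
  · intro b _ hb
    rw [if_neg]
    intro h
    exact hb (Fin.ext (by omega))
  · intro h; exact absurd (Finset.mem_univ l) h

theorem prod_bp_coeff {D : ℕ} (μ : Fin D → ℕ) (s : Finset (Fin D)) :
    ∃ a b : ℤ, ∀ q : A D, (∏ l ∈ s, bp (μ l) (q l) l).coeff 0 = a ∧
      (∏ l ∈ s, bp (μ l) (q l) l).coeff 1 = b * q1 q := by
  classical
  induction s using Finset.induction_on with
  | empty =>
    refine ⟨1, 0, fun q => ?_⟩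
    simp [coeff_one]
  | insert l s hl ih =>
    obtain ⟨a, b, hab⟩ := ih
    have hc := fun (q : A D) => comp_coeff (descPochhammer ℤ (μ l)) (q l) l
    by_cases hl0 : (l : ℕ) = 0
    · refine ⟨(descPochhammer ℤ (μ l)).coeff 0 * a,
        (descPochhammer ℤ (μ l)).coeff 0 * b + (descPochhammer ℤ (μ l)).coeff 1 * a,
        fun q => ?_⟩
      rw [Finset.prod_insert hl, mul_coeff_zero, mul_coeff_one, (hab q).1, (hab q).2]
      unfold bp
      rw [(hc q).1, (hc q).2, if_pos hl0, q1_eq q l hl0]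
      refine ⟨rfl, ?_⟩
      ring
    · refine ⟨(descPochhammer ℤ (μ l)).coeff 0 * a,
        (descPochhammer ℤ (μ l)).coeff 0 * b,
        fun q => ?_⟩
      rw [Finset.prod_insert hl, mul_coeff_zero, mul_coeff_one, (hab q).1, (hab q).2]
      unfold bp
      rw [(hc q).1, (hc q).2, if_neg hl0]
      refine ⟨rfl, ?_⟩
      ring

/-- the main numerical lemma -/
theorem bin_key {D : ℕ} (i : ℕ) (μ : Fin D → ℕ) (hμ : ∑ l, μ l ≤ i) :
    ∃ b : ℤ, ∀ q : A D, ∑ k ∈ Finset.range ((KP (D * i + D)).natDegree + 1),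
      (KP (D * i + D)).coeff k * (((i.factorial : ℤ) ^ D) * bin μ (mm (2 ^ k) q)) =
        (KP (D * i + D)).eval 2 * b * q1 q := by
  obtain ⟨a, b, hab⟩ := prod_bp_coeff μ Finset.univ
  have hle : ∀ l, μ l ≤ i := fun l =>
    (Finset.single_le_sum (f := μ) (fun _ _ => Nat.zero_le _) (Finset.mem_univ l)).trans hμ
  have hdvd : (∏ l, ((μ l).factorial : ℤ)) ∣ (i.factorial : ℤ) ^ D := by
    have h1 : (i.factorial : ℤ) ^ D = ∏ l : Fin D, (i.factorial : ℤ) := by simp
    rw [h1]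
    apply Finset.prod_dvd_prod_of_dvd
    intro l _
    exact_mod_cast Nat.factorial_dvd_factorial (hle l)
  obtain ⟨c, hc⟩ := hdvd
  refine ⟨c * b, fun q => ?_⟩
  set R : ℤ[X] := ∏ l, bp (μ l) (q l) l with hR
  have hdeg : R.natDegree ≤ D * i + D := by
    rw [hR]
    refine (natDegree_prod_le _ _).trans ?_
    have h2 : ∀ l ∈ (Finset.univ : Finset (Fin D)), (bp (μ l) (q l) l).natDegree ≤ μ l * D := by
      intro l _
      refine (bp_natDegree _ _ _).trans (Nat.mul_le_mul_left _ ?_)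
      have := l.isLt
      omega
    refine (Finset.sum_le_sum h2).trans ?_
    rw [← Finset.sum_mul]
    have := Nat.mul_le_mul_right D hμ
    rw [mul_comm D i]
    omega
  have hev : ∀ k : ℕ, (i.factorial : ℤ) ^ D * bin μ (mm (2 ^ k) q) = c * R.eval ((2 : ℤ) ^ k) := by
    intro k
    have h3 : R.eval ((2 : ℤ) ^ k) = (∏ l, ((μ l).factorial : ℤ)) * bin μ (mm (2 ^ k) q) := by
      rw [hR, eval_prod]
      unfold bin
      rw [← Finset.prod_mul_distrib]
      refine Finset.prod_congr rfl fun l _ => ?_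
      rw [bp_eval]
      unfold mm
      push_cast
      rfl
    rw [h3, hc]
    ring
  have h4 := KP_sum (D * i + D) R hdeg
  calc ∑ k ∈ Finset.range ((KP (D * i + D)).natDegree + 1),
      (KP (D * i + D)).coeff k * (((i.factorial : ℤ) ^ D) * bin μ (mm (2 ^ k) q))
      = c * ∑ k ∈ Finset.range ((KP (D * i + D)).natDegree + 1),
      (KP (D * i + D)).coeff k * R.eval ((2 : ℤ) ^ k) := by
        rw [Finset.mul_sum]
        refine Finset.sum_congr rfl fun k _ => ?_
        rw [hev k]; ring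
    _ = (KP (D * i + D)).eval 2 * (c * b) * q1 q := by
        rw [h4, (hab q).2]; ring

/-- the linear case -/
theorem ev_key {D : ℕ} (i : ℕ) (q : A D) :
    ∑ k ∈ Finset.range ((KP (D * i + D)).natDegree + 1),
      (KP (D * i + D)).coeff k * ev (mm (2 ^ k) q) 1 = (KP (D * i + D)).eval 2 * q1 q := by
  have h1 : ∀ k : ℕ, ev (mm (2 ^ k) q) 1 = (pol q).eval ((2 : ℤ) ^ k) := by
    intro k
    rw [ev_mm, eval_pol]
    simp
  simp only [h1]
  rw [KP_sum]
  · rw [mul_comm]
    congr 1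
    by_cases hD : 0 < D
    · rw [q1_eq q ⟨0, hD⟩ rfl, ← coeff_pol q ⟨0, hD⟩]
    · have : D = 0 := by omega
      subst this
      simp [q1, pol]
  · refine (natDegree_pol q).trans ?_
    omega

end num

/-! ### dilations -/

section dil

variable {D : ℕ} {G : Type} [Group G]

/-- the dilation of `Sg` -/
noncomputable def Th (D : ℕ) (G : Type) [Group G] (k : ℕ) : Sg D G →* Sg D G where
  toFun x := ⟨fun q => x.left (mm k q), x.right ^ k⟩
  map_one' := by
    ext q
    · rfl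
    · change ((1 : Multiplicative ℤ) ^ k) = 1
      rw [one_pow]
  map_mul' x y := by
    ext q
    · change x.left (mm k q) * y.left (U x.right.toAdd (mm k q)) =
        x.left (mm k q) * y.left (mm k (U (x.right ^ k).toAdd q))
      rw [U_mm, toAdd_pow, nsmul_eq_mul]
    · change (x.right * y.right) ^ k = x.right ^ k * y.right ^ k
      rw [mul_pow]

theorem Th_left (k : ℕ) (x : Sg D G) (q : A D) : (Th D G k x).left q = x.left (mm k q) := rfl

theorem Th_right (k : ℕ) (x : Sg D G) : (Th D G k x).right = x.right ^ k := rfl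

theorem sg_pow (g : G) (k : ℕ) :
    (sg D g) ^ k = ⟨fun q => g ^ ev q k, Multiplicative.ofAdd (k : ℤ)⟩ := by
  induction k with
  | zero =>
    ext q
    · simp [ev_zero_right]
    · simp
  | succ k ih =>
    rw [pow_succ, ih]
    ext q
    · change g ^ ev q k * g ^ ev (U (k : ℤ) q) 1 = g ^ ev q ((k + 1 : ℕ) : ℤ)
      rw [ev_U, ← zpow_add]
      congr 1
      push_cast
      rw [add_comm (1 : ℤ) (k : ℤ)]
      ring
    · change Multiplicative.ofAdd (k : ℤ) * Multiplicative.ofAdd 1 = _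
      rw [← ofAdd_add]
      push_cast
      rfl

theorem Th_sg (k : ℕ) (g : G) : Th D G k (sg D g) = (sg D g) ^ k := by
  rw [sg_pow]
  ext q
  · change g ^ ev (mm k q) 1 = g ^ ev q k
    rw [ev_mm, mul_one]
  · change (Multiplicative.ofAdd (1 : ℤ)) ^ k = Multiplicative.ofAdd (k : ℤ)
    rw [← ofAdd_nsmul]
    simp

theorem Th_Tg (k : ℕ) (b : G) : Th D G k (Tg D b) = Tg D b := by
  ext q
  · rfl
  · change (1 : Multiplicative ℤ) ^ k = 1
    rw [one_pow]

theorem sg_mem' (N : Subgroup G) (a : G) (v : G) (hv : v ∈ N) : sg D (v * a) ∈ GG D N a :=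
  Subgroup.subset_closure (Or.inl ⟨v, hv, rfl⟩)

theorem Tg_mem (N : Subgroup G) (a : G) (b : G) : Tg D b ∈ GG D N a :=
  Subgroup.subset_closure (Or.inr ⟨b, rfl⟩)

theorem GG_ind {N : Subgroup G} {a : G} {P : Subgroup (Sg D G)}
    (h1 : ∀ v ∈ N, sg D (v * a) ∈ P) (h2 : ∀ b, Tg D b ∈ P) : GG D N a ≤ P := by
  unfold GG
  rw [Subgroup.closure_le]
  rintro y (⟨v, hv, rfl⟩ | ⟨b, rfl⟩)
  · exact h1 v hv
  · exact h2 b

theorem Th_mem (N : Subgroup G) (a : G) (k : ℕ) (x : Sg D G) (hx : x ∈ GG D N a) :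
    Th D G k x ∈ GG D N a := by
  have h1 : GG D N a ≤ (GG D N a).comap (Th D G k) := by
    apply GG_ind
    · intro v hv
      change Th D G k (sg D (v * a)) ∈ GG D N a
      rw [Th_sg]
      exact Subgroup.pow_mem _ (sg_mem' N a v hv) k
    · intro b
      change Th D G k (Tg D b) ∈ GG D N a
      rw [Th_Tg]
      exact Tg_mem N a b
  exact h1 hx

/-- the dilation of `GG` -/
noncomputable def ThG (N : Subgroup G) (a : G) (k : ℕ) : GG D N a →* GG D N a where
  toFun x := ⟨Th D G k (x : Sg D G), Th_mem N a k (x : Sg D G) x.2⟩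
  map_one' := Subtype.ext (map_one (Th D G k))
  map_mul' x y := Subtype.ext (map_mul (Th D G k) (x : Sg D G) (y : Sg D G))

theorem ThG_coe (N : Subgroup G) (a : G) (k : ℕ) (x : GG D N a) :
    ((ThG N a k x : GG D N a) : Sg D G) = Th D G k x := rfl

theorem phi_ThG {N : Subgroup G} {a : G} {V : Type} [CommGroup V] (φ : GG D N a →* V)
    (hφ : ∀ (b : G) (h : Tg D b ∈ GG D N a), φ ⟨Tg D b, h⟩ = 1) (k : ℕ) (x : GG D N a) :
    φ (ThG N a k x) = φ x ^ k := by
  let P : Subgroup (GG D N a) :=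
    { carrier := {x | φ (ThG N a k x) = φ x ^ k}
      one_mem' := by
        change φ (ThG N a k 1) = φ 1 ^ k
        rw [map_one, map_one, one_pow]
      mul_mem' := by
        intro x y hx hy
        change φ (ThG N a k (x * y)) = φ (x * y) ^ k
        change φ (ThG N a k x) = φ x ^ k at hx
        change φ (ThG N a k y) = φ y ^ k at hy
        rw [map_mul, map_mul, map_mul, hx, hy, mul_pow]
      inv_mem' := by
        intro x hx
        change φ (ThG N a k x⁻¹) = φ x⁻¹ ^ k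
        change φ (ThG N a k x) = φ x ^ k at hx
        rw [map_inv, map_inv, map_inv, hx, inv_pow] }
  have h1 : GG D N a ≤ P.map (GG D N a).subtype := by
    apply GG_ind
    · intro v hv
      refine ⟨⟨sg D (v * a), sg_mem' N a v hv⟩, ?_, rfl⟩
      change φ (ThG N a k ⟨sg D (v * a), sg_mem' N a v hv⟩) =
        φ ⟨sg D (v * a), sg_mem' N a v hv⟩ ^ k
      have h2 : ThG N a k ⟨sg D (v * a), sg_mem' N a v hv⟩ =
          (⟨sg D (v * a), sg_mem' N a v hv⟩ : GG D N a) ^ k := by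
        apply Subtype.ext
        rw [ThG_coe, Subgroup.coe_pow, Th_sg]
      rw [h2, map_pow]
    · intro b
      refine ⟨⟨Tg D b, Tg_mem N a b⟩, ?_, rfl⟩
      change φ (ThG N a k ⟨Tg D b, Tg_mem N a b⟩) = φ ⟨Tg D b, Tg_mem N a b⟩ ^ k
      have h2 : ThG N a k ⟨Tg D b, Tg_mem N a b⟩ = (⟨Tg D b, Tg_mem N a b⟩ : GG D N a) := by
        apply Subtype.ext
        rw [ThG_coe, Th_Tg]
      rw [h2, hφ b (Tg_mem N a b), one_pow]
  obtain ⟨y, hy, hyx⟩ := h1 x.2
  have h3 : y = x := Subtype.ext hyx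
  rw [← h3]
  exact hy

/-- elements of `GG` without shift and with values in `LC G n` -/
def Er (D : ℕ) (N : Subgroup G) (a : G) (n : ℕ) : Subgroup (GG D N a) where
  carrier := {x | (x : Sg D G).right = 1 ∧ ∀ q, (x : Sg D G).left q ∈ LC G n}
  one_mem' := ⟨rfl, fun q => (LC G n).one_mem⟩
  mul_mem' := by
    intro x y hx hy
    refine ⟨?_, fun q => ?_⟩
    · change (x : Sg D G).right * (y : Sg D G).right = 1
      rw [hx.1, hy.1, one_mul]
    · change (x : Sg D G).left q * (y : Sg D G).left (U (x : Sg D G).right.toAdd q) ∈ LC G n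
      exact (LC G n).mul_mem (hx.2 _) (hy.2 _)
  inv_mem' := by
    intro x hx
    refine ⟨?_, fun q => ?_⟩
    · change ((x : Sg D G).right)⁻¹ = 1
      rw [hx.1, inv_one]
    · change ((x : Sg D G).left (U ((x : Sg D G).right⁻¹).toAdd q))⁻¹ ∈ LC G n
      exact (LC G n).inv_mem (hx.2 _)

theorem mem_Er (N : Subgroup G) (a : G) (n : ℕ) (x : GG D N a) :
    x ∈ Er D N a n ↔ (x : Sg D G).right = 1 ∧ ∀ q, (x : Sg D G).left q ∈ LC G n := Iff.rfl

theorem ThG_Er (N : Subgroup G) (a : G) (n k : ℕ) (x : GG D N a) (hx : x ∈ Er D N a n) :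
    ThG N a k x ∈ Er D N a n := by
  refine ⟨?_, fun q => ?_⟩
  · change (x : Sg D G).right ^ k = 1
    rw [hx.1, one_pow]
  · exact hx.2 _

/-- the centre of the quotient by `LC G (r+1)` -/
abbrev Zq (G : Type) [Group G] (r : ℕ) : Type := Subgroup.center (G ⧸ LC G (r + 1))

instance (G : Type) [Group G] (r : ℕ) : CommGroup (Zq G r) :=
  { (inferInstance : Group (Zq G r)) with
    mul_comm := fun x y => Subtype.ext ((Subgroup.mem_center_iff.mp y.2) x) }

/-- the image of `LC G r` in the quotient by `LC G (r+1)` is central -/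
def kap (G : Type) [Group G] (r : ℕ) : LC G r →* Zq G r :=
  ((QuotientGroup.mk' (LC G (r + 1))).comp (LC G r).subtype).codRestrict _ (by
    intro x
    rw [Subgroup.mem_center_iff]
    intro g
    obtain ⟨g, rfl⟩ := QuotientGroup.mk'_surjective (LC G (r + 1)) g
    change (QuotientGroup.mk' (LC G (r + 1))) g * (QuotientGroup.mk' (LC G (r + 1))) x =
      (QuotientGroup.mk' (LC G (r + 1))) x * (QuotientGroup.mk' (LC G (r + 1))) g
    rw [← map_mul, ← map_mul]
    rw [QuotientGroup.mk'_eq_mk']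
    refine ⟨(g * x)⁻¹ * (x * g), ?_, by group⟩
    have h1 : ⁅(x : G)⁻¹, g⁻¹⁆ ∈ LC G (r + 1) :=
      Subgroup.commutator_mem_commutator ((LC G r).inv_mem x.2) (Subgroup.mem_top _)
    have h2 : (g * (x : G))⁻¹ * (x * g) = ⁅(x : G)⁻¹, g⁻¹⁆ := by
      rw [commutatorElement_def]; group
    rw [h2]; exact h1)

theorem kap_eq_one (r : ℕ) (x : LC G r) : kap G r x = 1 ↔ (x : G) ∈ LC G (r + 1) := by
  rw [Subtype.ext_iff]
  change (QuotientGroup.mk' (LC G (r + 1))) (x : G) = 1 ↔ _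
  rw [← MonoidHom.mem_ker, QuotientGroup.ker_mk']

theorem kap_eq (r : ℕ) (x y : LC G r) (h : ∃ w ∈ LC G (r + 1), (x : G) = y * w) :
    kap G r x = kap G r y := by
  obtain ⟨w, hw, h⟩ := h
  have h1 : kap G r (y⁻¹ * x) = 1 := by
    rw [kap_eq_one]
    change (y : G)⁻¹ * (x : G) ∈ _
    rw [h]
    simpa using hw
  rw [map_mul, map_inv, inv_mul_eq_one] at h1
  exact h1.symm

/-- the class of an element of `Er` -/
def fr (N : Subgroup G) (a : G) (r : ℕ) :
    Er D N a r →* (A D → Zq G r) where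
  toFun x := fun q => kap G r ⟨((x : GG D N a) : Sg D G).left q, x.2.2 q⟩
  map_one' := by
    funext q
    exact map_one (kap G r)
  map_mul' x y := by
    funext q
    rw [Pi.mul_apply, ← map_mul]
    congr 1
    apply Subtype.ext
    have h1 : ((x : GG D N a) : Sg D G).right = 1 := x.2.1
    have h2 : ((x : GG D N a) : Sg D G).left q *
      ((y : GG D N a) : Sg D G).left (U ((x : GG D N a) : Sg D G).right.toAdd q) =
      ((x : GG D N a) : Sg D G).left q * ((y : GG D N a) : Sg D G).left q := by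
      rw [h1, toAdd_one, U_zero]
    exact h2

theorem fr_apply (N : Subgroup G) (a : G) (r : ℕ) (x : Er D N a r) (q : A D) :
    fr N a r x q = kap G r ⟨((x : GG D N a) : Sg D G).left q, x.2.2 q⟩ := rfl

/-- dilation on `Er` -/
noncomputable def ThE (N : Subgroup G) (a : G) (r k : ℕ) : Er D N a r →* Er D N a r where
  toFun x := ⟨ThG N a k (x : GG D N a), ThG_Er N a r k (x : GG D N a) x.2⟩
  map_one' := Subtype.ext (map_one (ThG N a k))
  map_mul' x y := Subtype.ext (map_mul (ThG N a k) (x : GG D N a) (y : GG D N a))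

theorem fr_ThE (N : Subgroup G) (a : G) (r k : ℕ) (x : Er D N a r) (q : A D) :
    fr N a r (ThE N a r k x) q = fr N a r x (mm k q) := rfl

theorem phi_ThE {N : Subgroup G} {a : G} {V : Type} [CommGroup V] (φ : GG D N a →* V)
    (hφ : ∀ (b : G) (h : Tg D b ∈ GG D N a), φ ⟨Tg D b, h⟩ = 1) (r k : ℕ) (x : Er D N a r) :
    φ (ThE N a r k x) = φ x ^ k := phi_ThG φ hφ k x

/-- the combination `∏ Θ_{2^k} x ^ (c k)` -/
noncomputable def comb (N : Subgroup G) (a : G) (r K : ℕ) (c : ℕ → ℤ) (x : Er D N a r) :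
    Er D N a r :=
  ((List.range K).map fun k => (ThE N a r (2 ^ k) x) ^ (c k)).prod

theorem list_prod_range {V : Type} [CommGroup V] (f : ℕ → V) (K : ℕ) :
    ((List.range K).map f).prod = ∏ k ∈ Finset.range K, f k := by
  induction K with
  | zero => simp
  | succ K ih => rw [List.range_succ, List.map_append, List.prod_append, ih,
      Finset.prod_range_succ]; simp

theorem fr_comb (N : Subgroup G) (a : G) (r K : ℕ) (c : ℕ → ℤ) (x : Er D N a r) (q : A D) :
    fr N a r (comb N a r K c x) q = ∏ k ∈ Finset.range K, (fr N a r x (mm (2 ^ k) q)) ^ (c k) := by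
  have h1 : fr N a r (comb N a r K c x) =
      ((List.range K).map fun k => (fr N a r (ThE N a r (2 ^ k) x)) ^ (c k)).prod := by
    unfold comb
    rw [map_list_prod, List.map_map]
    congr 1
    apply List.map_congr_left
    intro k _
    simp only [Function.comp, map_zpow]
  rw [h1]
  have h2 := congrFun (list_prod_range
    (V := A D → Zq G r)
    (fun k => (fr N a r (ThE N a r (2 ^ k) x)) ^ (c k)) K) q
  rw [h2, Finset.prod_apply]
  rfl

theorem phi_comb {N : Subgroup G} {a : G} {V : Type} [CommGroup V] (φ : GG D N a →* V)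
    (hφ : ∀ (b : G) (h : Tg D b ∈ GG D N a), φ ⟨Tg D b, h⟩ = 1) (r K : ℕ) (c : ℕ → ℤ)
    (x : Er D N a r) :
    φ (comb N a r K c x) = φ x ^ (∑ k ∈ Finset.range K, c k * 2 ^ k) := by
  have h1 : φ (comb N a r K c x) =
      ((List.range K).map fun k => (φ (ThE N a r (2 ^ k) x : GG D N a)) ^ (c k)).prod := by
    unfold comb
    rw [← Subgroup.coe_subtype (Er D N a r)]
    rw [map_list_prod, map_list_prod, List.map_map, List.map_map]
    congr 1
    apply List.map_congr_left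
    intro k _
    simp only [Function.comp, map_zpow, Subgroup.coe_subtype]
  rw [h1, list_prod_range]
  have h2 : ∀ k ∈ Finset.range K, (φ (ThE N a r (2 ^ k) x : GG D N a)) ^ (c k) =
      (φ x) ^ (c k * 2 ^ k) := by
    intro k _
    rw [phi_ThE φ hφ, ← zpow_natCast, ← zpow_mul]
    congr 1
    push_cast
    ring
  rw [Finset.prod_congr rfl h2]
  clear h1 h2
  induction K with
  | zero => simp
  | succ K ih => rw [Finset.prod_range_succ, Finset.sum_range_succ, zpow_add, ih]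

end dil

/-! ### elements with linear left part -/

section lin

variable {D : ℕ} {G : Type} [Group G]

theorem comm_sg_left (g b : G) (q : A D) :
    (⁅Tg D b, sg D g⁆ : Sg D G).left q = ⁅b, g ^ ev q 1⁆ ∧ (⁅Tg D b, sg D g⁆ : Sg D G).right = 1 := by
  have h1 : (⁅Tg D b, sg D g⁆ : Sg D G) * (sg D g * Tg D b) = Tg D b * sg D g := by
    rw [commutatorElement_def]; group
  have h2 : (⟨fun q => ⁅b, g ^ ev q 1⁆, 1⟩ : Sg D G) * (sg D g * Tg D b) = Tg D b * sg D g := by
    ext q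
    · change ⁅b, g ^ ev q 1⁆ * (g ^ ev (U 0 q) 1 * b) = b * g ^ ev (U 0 q) 1
      rw [U_zero, commutatorElement_def]; group
    · change (1 : Multiplicative ℤ) * (Multiplicative.ofAdd 1 * 1) = 1 * Multiplicative.ofAdd 1
      rw [one_mul, mul_one, one_mul]
  have h3 := mul_right_cancel (h1.trans h2.symm)
  rw [h3]
  exact ⟨rfl, rfl⟩

/-- `g ↦ ⁅b, g⁆` is a homomorphism modulo `LC G (r+1)` -/
def cmh (r : ℕ) (b : G) (hb : b ∈ LC G r) : G →* Zq G (r + 1) where
  toFun g := kap G (r + 1) ⟨⁅b, g⁆, Subgroup.commutator_mem_commutator hb (Subgroup.mem_top g)⟩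
  map_one' := by
    rw [kap_eq_one]
    change ⁅b, (1 : G)⁆ ∈ _
    rw [commutatorElement_one_right]
    exact Subgroup.one_mem _
  map_mul' g h := by
    rw [← map_mul]
    apply kap_eq
    have hg : ⁅b, g⁆ ∈ LC G (r + 1) :=
      Subgroup.commutator_mem_commutator hb (Subgroup.mem_top g)
    have hh : ⁅b, h⁆ ∈ LC G (r + 1) :=
      Subgroup.commutator_mem_commutator hb (Subgroup.mem_top h)
    refine ⟨⁅(⁅b, h⁆)⁻¹, g⁆, Subgroup.commutator_mem_commutator (Subgroup.inv_mem _ hh)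
      (Subgroup.mem_top g), ?_⟩
    change ⁅b, g * h⁆ = (⁅b, g⁆ * ⁅b, h⁆) * ⁅(⁅b, h⁆)⁻¹, g⁆
    simp only [commutatorElement_def]
    group

/-- the linear elements -/
def Lin (D : ℕ) (N : Subgroup G) (a : G) (r : ℕ) (z : LC G r) (e : Er D N a r) : Prop :=
  (∀ q, fr N a r e q = kap G r z ^ ev q 1) ∧
    ∀ (V : Type) [CommGroup V] (φ : GG D N a →* V), φ e = 1

theorem Lin_exists (N : Subgroup G) (a : G) (hNa : ∀ g : G, ∃ v ∈ N, ∃ n : ℤ, g = v * a ^ n)
    (r : ℕ) (z : LC G (r + 1)) : ∃ e, Lin D N a (r + 1) z e := by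
  -- the set of good `z`
  let T : Subgroup G :=
    { carrier := {z | ∃ h : z ∈ LC G (r + 1), ∃ e, Lin D N a (r + 1) ⟨z, h⟩ e}
      one_mem' := by
        refine ⟨Subgroup.one_mem _, 1, fun q => ?_, fun V _ φ => ?_⟩
        · rw [map_one]
          have h1 : kap G (r + 1) ⟨1, Subgroup.one_mem _⟩ = 1 := map_one _
          rw [h1, one_zpow]
          rfl
        · exact map_one φ
      mul_mem' := by
        rintro x y ⟨hx, e, he1, he2⟩ ⟨hy, f, hf1, hf2⟩
        refine ⟨Subgroup.mul_mem _ hx hy, e * f, fun q => ?_, fun V _ φ => ?_⟩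
        · have h1 : kap G (r + 1) ⟨x * y, Subgroup.mul_mem _ hx hy⟩ =
              kap G (r + 1) ⟨x, hx⟩ * kap G (r + 1) ⟨y, hy⟩ :=
            map_mul (kap G (r + 1)) (⟨x, hx⟩ : LC G (r + 1)) ⟨y, hy⟩
          rw [h1, mul_zpow, map_mul, Pi.mul_apply, he1, hf1]
        · have h1 : φ ((e * f : Er D N a (r + 1)) : GG D N a) = φ e * φ f := map_mul φ _ _
          rw [h1, he2, hf2, one_mul]
      inv_mem' := by
        rintro x ⟨hx, e, he1, he2⟩
        refine ⟨Subgroup.inv_mem _ hx, e⁻¹, fun q => ?_, fun V _ φ => ?_⟩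
        · have h1 : kap G (r + 1) ⟨x⁻¹, Subgroup.inv_mem _ hx⟩ =
              (kap G (r + 1) ⟨x, hx⟩)⁻¹ := map_inv (kap G (r + 1)) (⟨x, hx⟩ : LC G (r + 1))
          rw [h1, inv_zpow, map_inv, Pi.inv_apply, he1]
        · have h1 : φ ((e⁻¹ : Er D N a (r + 1)) : GG D N a) = (φ e)⁻¹ := map_inv φ _
          rw [h1, he2, inv_one] }
  have hT1 : ∀ z, z ∈ LC G (r + 2) → z ∈ T := by
    intro z hz
    have hz1 : z ∈ LC G (r + 1) := Subgroup.lowerCentralSeries_antitone ⊤ (by omega) hz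
    refine ⟨hz1, 1, fun q => ?_, fun V _ φ => map_one φ⟩
    have h1 : kap G (r + 1) ⟨z, hz1⟩ = 1 := (kap_eq_one _ _).mpr hz
    rw [h1, one_zpow, map_one]
    rfl
  have hTm : ∀ z z', z ∈ T → (∃ w ∈ LC G (r + 2), z' = z * w) → z' ∈ T := by
    rintro z z' hz ⟨w, hw, rfl⟩
    exact T.mul_mem hz (hT1 w hw)
  -- basic commutators
  have hbas : ∀ b ∈ LC G r, ∀ v ∈ N, ⁅b, v * a⁆ ∈ T := by
    intro b hb v hv
    have hm : ⁅b, v * a⁆ ∈ LC G (r + 1) :=
      Subgroup.commutator_mem_commutator hb (Subgroup.mem_top _)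
    let x : GG D N a := ⁅(⟨Tg D b, Tg_mem N a b⟩ : GG D N a), ⟨sg D (v * a), sg_mem' N a v hv⟩⁆
    have hx : (x : Sg D G) = ⁅Tg D b, sg D (v * a)⁆ := rfl
    have hxE : x ∈ Er D N a (r + 1) := by
      refine ⟨?_, fun q => ?_⟩
      · rw [hx]; exact (comm_sg_left (v * a) b 0).2
      · rw [hx, (comm_sg_left (v * a) b q).1]
        exact Subgroup.commutator_mem_commutator hb (Subgroup.mem_top _)
    refine ⟨hm, ⟨x, hxE⟩, fun q => ?_, fun V _ φ => ?_⟩
    · have h1 : fr N a (r + 1) ⟨x, hxE⟩ q = cmh r b hb ((v * a) ^ ev q 1) := by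
        rw [fr_apply]
        apply congrArg (kap G (r + 1))
        apply Subtype.ext
        change (x : Sg D G).left q = ⁅b, (v * a) ^ ev q 1⁆
        rw [hx, (comm_sg_left (v * a) b q).1]
      rw [h1, map_zpow]
      rfl
    · change φ x = 1
      change φ ⁅(⟨Tg D b, Tg_mem N a b⟩ : GG D N a), ⟨sg D (v * a), sg_mem' N a v hv⟩⁆ = 1
      rw [map_commutatorElement]
      exact commutatorElement_eq_one_iff_mul_comm.mpr (mul_comm _ _)
  have hcom : ∀ b ∈ LC G r, ∀ g : G, ⁅b, g⁆ ∈ T := by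
    intro b hb
    let S : Subgroup G :=
      { carrier := {g | ⁅b, g⁆ ∈ T}
        one_mem' := by
          change ⁅b, (1 : G)⁆ ∈ T
          rw [commutatorElement_one_right]; exact T.one_mem
        mul_mem' := by
          intro g h hg hh
          change ⁅b, g * h⁆ ∈ T
          change ⁅b, g⁆ ∈ T at hg
          change ⁅b, h⁆ ∈ T at hh
          refine hTm (⁅b, g⁆ * ⁅b, h⁆) _ (T.mul_mem hg hh) ⟨⁅(⁅b, h⁆)⁻¹, g⁆,
            Subgroup.commutator_mem_commutator (Subgroup.inv_mem _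
              (Subgroup.commutator_mem_commutator hb (Subgroup.mem_top h)))
            (Subgroup.mem_top g), ?_⟩
          simp only [commutatorElement_def]
          group
        inv_mem' := by
          intro g hg
          change ⁅b, g⁻¹⁆ ∈ T
          change ⁅b, g⁆ ∈ T at hg
          refine hTm (⁅b, g⁆)⁻¹ _ (T.inv_mem hg) ⟨⁅⁅b, g⁆, g⁻¹⁆,
            Subgroup.commutator_mem_commutator
              (Subgroup.commutator_mem_commutator hb (Subgroup.mem_top g))
            (Subgroup.mem_top _), ?_⟩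
          simp only [commutatorElement_def]
          group }
    have hS : ∀ v ∈ N, v * a ∈ S := fun v hv => hbas b hb v hv
    have haS : a ∈ S := by simpa using hS 1 N.one_mem
    intro g
    obtain ⟨v, hv, n, rfl⟩ := hNa g
    have hvS : v ∈ S := by
      have := S.mul_mem (hS v hv) (S.inv_mem haS)
      simpa using this
    exact S.mul_mem hvS (S.zpow_mem haS n)
  have hLC : LC G (r + 1) ≤ T := by
    change ⁅LC G r, ⊤⁆ ≤ T
    rw [Subgroup.commutator_le]
    intro b hb g _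
    exact hcom b hb g
  obtain ⟨h, e, he⟩ := hLC z.2
  exact ⟨e, he⟩

end lin

/-! ### the induction step -/

section step

variable {D : ℕ} {G : Type} [Group G]

/-- good functions -/
def Good (D : ℕ) (G : Type) [Group G] (r : ℕ) (c : ℕ → ℤ) (K : ℕ) (f : A D → Zq G r) : Prop :=
  ∃ z : LC G r, ∀ q, ∏ k ∈ Finset.range K, (f (mm (2 ^ k) q)) ^ (c k) = kap G r z ^ q1 q

theorem Good_one (r : ℕ) (c : ℕ → ℤ) (K : ℕ) : Good D G r c K (fun _ => 1) := by
  refine ⟨1, fun q => ?_⟩
  simp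

theorem Good_mul (r : ℕ) (c : ℕ → ℤ) (K : ℕ) {f g : A D → Zq G r} (hf : Good D G r c K f)
    (hg : Good D G r c K g) : Good D G r c K (fun q => f q * g q) := by
  obtain ⟨z, hz⟩ := hf
  obtain ⟨y, hy⟩ := hg
  refine ⟨z * y, fun q => ?_⟩
  rw [map_mul, mul_zpow, ← hz, ← hy, ← Finset.prod_mul_distrib]
  refine Finset.prod_congr rfl fun k _ => ?_
  rw [mul_zpow]

theorem prod_zpow' {V : Type} [CommGroup V] (z : V) (K : ℕ) (f : ℕ → ℤ) :
    ∏ k ∈ Finset.range K, z ^ (f k) = z ^ (∑ k ∈ Finset.range K, f k) := by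
  induction K with
  | zero => simp
  | succ K ih => rw [Finset.prod_range_succ, Finset.sum_range_succ, zpow_add, ih]

theorem Good_bin (r i : ℕ) (z : LC G r) (μ : Fin D → ℕ) (hμ : ∑ l, μ l ≤ i) :
    Good D G r (fun k => (KP (D * i + D)).coeff k * (i.factorial : ℤ) ^ D)
      ((KP (D * i + D)).natDegree + 1) (fun q => kap G r z ^ bin μ q) := by
  obtain ⟨b, hb⟩ := bin_key i μ hμ
  refine ⟨z ^ ((KP (D * i + D)).eval 2 * b), fun q => ?_⟩
  have h1 : ∀ k ∈ Finset.range ((KP (D * i + D)).natDegree + 1),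
      (kap G r z ^ bin μ (mm (2 ^ k) q)) ^ ((KP (D * i + D)).coeff k * (i.factorial : ℤ) ^ D) =
      kap G r z ^ ((KP (D * i + D)).coeff k * (((i.factorial : ℤ) ^ D) *
        bin μ (mm (2 ^ k) q))) := by
    intro k _
    rw [← zpow_mul]
    congr 1
    ring
  rw [Finset.prod_congr rfl h1, prod_zpow', hb q, map_zpow, ← zpow_mul]

theorem list_mem (r : ℕ) (L : List (G × (Fin D → ℕ))) (hL : ∀ x ∈ L, x.1 ∈ LC G r) (q : A D) :
    (L.map fun x => x.1 ^ bin x.2 q).prod ∈ LC G r := by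
  apply Subgroup.list_prod_mem
  intro y hy
  obtain ⟨x, hx, rfl⟩ := List.mem_map.mp hy
  exact Subgroup.zpow_mem _ (hL x hx) _

theorem Good_list (r i : ℕ) (L : List (G × (Fin D → ℕ))) (hL : ∀ x ∈ L, x.1 ∈ LC G r)
    (hμ : ∀ x ∈ L, ∑ l, x.2 l ≤ i) :
    Good D G r (fun k => (KP (D * i + D)).coeff k * (i.factorial : ℤ) ^ D)
      ((KP (D * i + D)).natDegree + 1)
      (fun q => kap G r ⟨(L.map fun x => x.1 ^ bin x.2 q).prod, list_mem r L hL q⟩) := by
  induction L with
  | nil =>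
    have h1 : (fun q : A D => kap G r ⟨(([] : List (G × (Fin D → ℕ))).map
        fun x => x.1 ^ bin x.2 q).prod, list_mem r [] hL q⟩) = fun _ => 1 := by
      funext q
      exact map_one (kap G r)
    rw [h1]
    exact Good_one r _ _
  | cons x L ih =>
    have hL' : ∀ y ∈ L, y.1 ∈ LC G r := fun y hy => hL y (List.mem_cons_of_mem _ hy)
    have hx : x.1 ∈ LC G r := hL x List.mem_cons_self
    have h1 : (fun q : A D => kap G r ⟨((x :: L).map
        fun x => x.1 ^ bin x.2 q).prod, list_mem r (x :: L) hL q⟩) =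
        fun q => kap G r ⟨x.1, hx⟩ ^ bin x.2 q *
          kap G r ⟨(L.map fun x => x.1 ^ bin x.2 q).prod, list_mem r L hL' q⟩ := by
      funext q
      rw [← map_zpow, ← map_mul]
      apply congrArg (kap G r)
      apply Subtype.ext
      change ((x :: L).map fun x => x.1 ^ bin x.2 q).prod =
        x.1 ^ bin x.2 q * (L.map fun x => x.1 ^ bin x.2 q).prod
      rw [List.map_cons, List.prod_cons]
    rw [h1]
    exact Good_mul r _ _ (Good_bin r i _ _ (hμ x List.mem_cons_self))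
      (ih hL' (fun y hy => hμ y (List.mem_cons_of_mem _ hy)))

theorem step (N : Subgroup G) (a : G) (hNa : ∀ g : G, ∃ v ∈ N, ∃ n : ℤ, g = v * a ^ n)
    (hPl : ∀ x : Sg D G, x ∈ GG D N a → Pl (Fl G) 0 x.left)
    (hnewt : ∀ (i : ℕ) (p : A D → G), Pl (Fl G) 0 p → (∀ q, p q ∈ Fl G i) →
      ∃ L : List (G × (Fin D → ℕ)), (∀ x ∈ L, x.1 ∈ Fl G i ∧ ∑ l, x.2 l ≤ i) ∧
        ∀ q, ∃ w ∈ Fl G (i + 1), p q = (L.map fun x => x.1 ^ bin x.2 q).prod * w)
    (r M' : ℕ) (hM' : 1 ≤ M')
    (ih : ∀ (V : Type) [CommGroup V] (φ : GG D N a →* V),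
      (∀ (b : G) (h : Tg D b ∈ GG D N a), φ ⟨Tg D b, h⟩ = 1) →
      ∀ x ∈ Er D N a (r + 2), φ x ^ M' = 1) :
    ∃ M : ℕ, 1 ≤ M ∧ ∀ (V : Type) [CommGroup V] (φ : GG D N a →* V),
      (∀ (b : G) (h : Tg D b ∈ GG D N a), φ ⟨Tg D b, h⟩ = 1) →
      ∀ x ∈ Er D N a (r + 1), φ x ^ M = 1 := by
  set i := r + 2 with hi
  set P := KP (D * i + D) with hP
  set e2 : ℤ := P.eval 2 with he2
  set m : ℤ := (i.factorial : ℤ) ^ D with hm
  have hm0 : 0 < m := by
    rw [hm]; exact pow_pos (by exact_mod_cast Nat.factorial_pos i) D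
  have he20 : e2 ≠ 0 := KP_two _
  refine ⟨(m * e2 * e2).natAbs * M', ?_, ?_⟩
  · have h1 : 0 < (m * e2 * e2).natAbs := by
      rw [Int.natAbs_pos]
      exact mul_ne_zero (mul_ne_zero hm0.ne' he20) he20
    exact Nat.mul_pos h1 hM'
  intro V _ φ hφ x hx
  -- Newton expansion
  obtain ⟨L, hL, hLq⟩ := hnewt i _ (hPl (x : Sg D G) x.2) hx.2
  have hL1 : ∀ y ∈ L, y.1 ∈ LC G (r + 1) := fun y hy => (hL y hy).1
  have hL2 : ∀ y ∈ L, ∑ l, y.2 l ≤ i := fun y hy => (hL y hy).2
  obtain ⟨z, hz⟩ := Good_list (r + 1) i L hL1 hL2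
  set X : Er D N a (r + 1) := comb N a (r + 1) (P.natDegree + 1) (fun k => P.coeff k * m) ⟨x, hx⟩
    with hX
  have hfx : ∀ q, fr N a (r + 1) ⟨x, hx⟩ q =
      kap G (r + 1) ⟨(L.map fun x => x.1 ^ bin x.2 q).prod, list_mem (r + 1) L hL1 q⟩ := by
    intro q
    rw [fr_apply]
    apply kap_eq
    obtain ⟨w, hw, hpw⟩ := hLq q
    exact ⟨w, hw, hpw⟩
  have hfX : ∀ q, fr N a (r + 1) X q = kap G (r + 1) z ^ q1 q := by
    intro q
    rw [hX, fr_comb, ← hz q]
    refine Finset.prod_congr rfl fun k _ => ?_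
    rw [hfx]
  obtain ⟨e, he, heφ⟩ := Lin_exists N a hNa r z
  set E : Er D N a (r + 1) := comb N a (r + 1) (P.natDegree + 1) (fun k => P.coeff k) e with hE
  have hfE : ∀ q, fr N a (r + 1) E q = kap G (r + 1) z ^ (e2 * q1 q) := by
    intro q
    rw [hE, fr_comb]
    have h1 : ∀ k ∈ Finset.range (P.natDegree + 1),
        (fr N a (r + 1) e (mm (2 ^ k) q)) ^ (P.coeff k) =
        kap G (r + 1) z ^ (P.coeff k * ev (mm (2 ^ k) q) 1) := by
      intro k _
      rw [he, ← zpow_mul, mul_comm]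
    rw [Finset.prod_congr rfl h1, prod_zpow', ev_key]
  set Y : Er D N a (r + 1) := X ^ e2 * E⁻¹ with hY
  have hfY : ∀ q, fr N a (r + 1) Y q = 1 := by
    intro q
    rw [hY, map_mul, map_inv, map_zpow, Pi.mul_apply, Pi.inv_apply, Pi.pow_apply, hfX, hfE,
      ← zpow_mul, mul_comm (q1 q) e2, mul_inv_cancel]
  have hYE : (Y : GG D N a) ∈ Er D N a (r + 2) := by
    refine ⟨Y.2.1, fun q => ?_⟩
    have := hfY q
    rw [fr_apply, kap_eq_one] at this
    exact this
  have h1 := ih V φ hφ _ hYE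
  have hφX : φ X = φ x ^ (m * e2) := by
    rw [hX, phi_comb φ hφ]
    congr 1
    rw [he2, Polynomial.eval_eq_sum_range, Finset.mul_sum]
    refine Finset.sum_congr rfl fun k _ => ?_
    ring
  have hφE : φ E = 1 := by
    rw [hE, phi_comb φ hφ, heφ V φ, one_zpow]
  have hφY : φ Y = φ x ^ (m * e2 * e2) := by
    have h2 : φ (Y : GG D N a) = φ X ^ e2 * (φ E)⁻¹ := by
      rw [hY]
      have : ((X ^ e2 * E⁻¹ : Er D N a (r + 1)) : GG D N a) =
        (X : GG D N a) ^ e2 * (E : GG D N a)⁻¹ := rfl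
      rw [this, map_mul, map_inv, map_zpow]
    rw [h2, hφE, inv_one, mul_one, hφX, ← zpow_mul]
  rw [hφY] at h1
  rw [pow_mul]
  rcases Int.natAbs_eq (m * e2 * e2) with h | h
  · rw [h, zpow_natCast] at h1
    exact h1
  · rw [h, zpow_neg, zpow_natCast, inv_pow, inv_eq_one] at h1
    exact h1

end step

end AlgAux

/-- the algebraic core, from the Newton expansion and the polynomiality of `GG` -/
theorem AlgAux.alg_core_of {G : Type} [Group G] (hG : Group.IsNilpotent G) (D : ℕ)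
    (N : Subgroup G) (a : G) (hNa : ∀ g : G, ∃ v ∈ N, ∃ n : ℤ, g = v * a ^ n)
    (hPl : ∀ x : Sg D G, x ∈ GG D N a → Pl (Fl G) 0 x.left)
    (hnewt : ∀ (i : ℕ) (p : A D → G), Pl (Fl G) 0 p → (∀ q, p q ∈ Fl G i) →
      ∃ L : List (G × (Fin D → ℕ)), (∀ x ∈ L, x.1 ∈ Fl G i ∧ ∑ l, x.2 l ≤ i) ∧
        ∀ q, ∃ w ∈ Fl G (i + 1), p q = (L.map fun x => x.1 ^ bin x.2 q).prod * w) :
    ∃ M : ℕ, 1 ≤ M ∧ ∀ (V : Type) [CommGroup V] (φ : GG D N a →* V),
      (∀ (b : G) (h : Tg D b ∈ GG D N a), φ ⟨Tg D b, h⟩ = 1) →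
      ∀ p : GG D N a, (p : Sg D G).right = 1 → (∀ q, (p : Sg D G).left q ∈ LC G 1) →
        φ p ^ M = 1 := by
  obtain ⟨c, hc⟩ := Subgroup.nilpotent_iff_lowerCentralSeries.mp hG
  have key : ∀ k : ℕ, ∃ M : ℕ, 1 ≤ M ∧ ∀ (V : Type) [CommGroup V] (φ : GG D N a →* V),
      (∀ (b : G) (h : Tg D b ∈ GG D N a), φ ⟨Tg D b, h⟩ = 1) →
      ∀ x ∈ AlgAux.Er D N a (c - k + 1), φ x ^ M = 1 := by
    intro k
    induction k with
    | zero =>
      refine ⟨1, le_rfl, fun V _ φ hφ x hx => ?_⟩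
      have h1 : x = 1 := by
        apply Subtype.ext
        ext q
        · have h2 := hx.2 q
          have h3 : LC G (c - 0 + 1) ≤ LC G c :=
            Subgroup.lowerCentralSeries_antitone ⊤ (by omega)
          have h4 : (x : Sg D G).left q ∈ (⊤ : Subgroup G).lowerCentralSeries c := h3 h2
          rw [hc, Subgroup.mem_bot] at h4
          exact h4
        · exact congrArg _ hx.1
      rw [h1, map_one, one_pow]
    | succ k ih =>
      by_cases hk : k < c
      · obtain ⟨M', hM', h'⟩ := ih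
        have h1 : c - k + 1 = (c - (k + 1)) + 2 := by omega
        rw [h1] at h'
        exact AlgAux.step N a hNa hPl hnewt (c - (k + 1)) M' hM' h'
      · have h1 : c - (k + 1) + 1 = c - k + 1 := by omega
        rw [h1]
        exact ih
  obtain ⟨M, hM, h⟩ := key c
  refine ⟨M, hM, fun V _ φ hφ p hp1 hp2 => h V φ hφ p ⟨hp1, fun q => ?_⟩⟩
  have h1 : c - c + 1 = 1 := by omega
  rw [h1]
  exact hp2 q

end Pool.Agent.T6.H51.NS
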