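import Pool.Agent.T6.H51.NS.Defs

/-!
# Module Char (part independent of Alg) of the nilsystem project (MP_35c333_an)

`char_lemma`: a character of `GG D N a` which kills the constants, `sg a`, the `sg γ` (`γ ∈ Γ`) and
is continuous along `v ↦ sg (v a)` is trivial.
-/

set_option autoImplicit false

namespace Pool.Agent.T6.H51.NS

open Filter Topology
open scoped commutatorElement

namespace Char

theorem sg_mem' {G : Type} [Group G] (D : ℕ) (N : Subgroup G) (a : G) (v : N) :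
    sg D ((v : G) * a) ∈ GG D N a := Subgroup.subset_closure (Or.inl ⟨v, v.2, rfl⟩)

theorem mem_LC_one {G : Type} [Group G] {x : G} :
    x ∈ LC G 1 ↔ Abelianization.of x = 1 := by
  unfold LC
  rw [Subgroup.top_lowerCentralSeries_one, ← Abelianization.ker_of, MonoidHom.mem_ker]

theorem sgdiv_right {G : Type} [Group G] (D : ℕ) (g h : G) :
    (sg D g * (sg D h)⁻¹).right = 1 := by
  simp [sg]

theorem sgdiv_left {G : Type} [Group G] (D : ℕ) (g h : G) (q : A D) :
    (sg D g * (sg D h)⁻¹).left q = g ^ ev q 1 * (h ^ ev q 1)⁻¹ := by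
  rw [SemidirectProduct.mul_left, SemidirectProduct.inv_left]
  simp only [Pi.mul_apply, sh_apply, Pi.inv_apply, sg]
  rw [← U_add]
  simp [U_zero]

theorem finite_roots (M : ℕ) (hM : 1 ≤ M) : {z : Circle | z ^ M = 1}.Finite := by
  have h1 : {z : ℂ | z ^ M = 1}.Finite := by
    refine ((Polynomial.nthRoots M (1 : ℂ)).toFinset.finite_toSet).subset ?_
    intro z hz
    simp only [Finset.mem_coe, Multiset.mem_toFinset]
    exact (Polynomial.mem_nthRoots (by omega)).2 hz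
  have h2 : {z : Circle | z ^ M = 1} = (fun z : Circle => (z : ℂ)) ⁻¹' {z : ℂ | z ^ M = 1} := by
    ext z
    simp only [Set.mem_ofPred_eq, Set.mem_preimage]
    rw [← Circle.coe_pow, Circle.coe_eq_one]
  rw [h2]
  exact h1.preimage (Circle.coe_injective.injOn)

/-- `char_lemma` from the conclusion of `alg_core` -/
theorem char_of {G : Type} [Group G] [TopologicalSpace G] [IsTopologicalGroup G]
    {N Γ : Subgroup G} {a : G} (hS : NilSys G N Γ a) (D : ℕ)
    (hcore' : ∃ M : ℕ, 1 ≤ M ∧ ∀ (V : Type) [CommGroup V] (φ : GG D N a →* V),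
      (∀ (b : G) (h : Tg D b ∈ GG D N a), φ ⟨Tg D b, h⟩ = 1) →
      ∀ p : GG D N a, (p : Sg D G).right = 1 → (∀ q, (p : Sg D G).left q ∈ LC G 1) →
        φ p ^ M = 1)
    (φ : GG D N a →* Circle)
    (hT : ∀ (b : G) (h : Tg D b ∈ GG D N a), φ ⟨Tg D b, h⟩ = 1)
    (hs : ∀ h : sg D a ∈ GG D N a, φ ⟨sg D a, h⟩ = 1)
    (hγ : ∀ γ ∈ Γ, ∀ h : sg D γ ∈ GG D N a, φ ⟨sg D γ, h⟩ = 1)
    (hc : Continuous (fun v : N => φ ⟨sg D ((v : G) * a), sg_mem' D N a v⟩)) : φ = 1 := by
  obtain ⟨M, hM, hcore⟩ := hcore'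
  have hNn : N.Normal := hS.normal
  set s : N → GG D N a := fun v => ⟨sg D ((v : G) * a), sg_mem' D N a v⟩ with hsdef
  have hs1 : φ (s 1) = 1 := by
    have h1 : sg D ((1 : N) : G) * 1 = sg D ((1 : N) : G) := mul_one _
    have h2 : sg D (((1 : N) : G) * a) = sg D a := by simp
    have h3 : s 1 = ⟨sg D a, h2 ▸ sg_mem' D N a 1⟩ := Subtype.ext h2
    rw [h3]
    exact hs _
  -- the homomorphism χ
  have hmul : ∀ v w : N, φ (s (v * w)) ^ M = φ (s v) ^ M * φ (s w) ^ M := by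
    intro v w
    have key := hcore Circle φ hT ((s (v * w) * (s w)⁻¹) * (s 1 * (s v)⁻¹)) (by
      change ((sg D (((v * w : N) : G) * a) * (sg D ((w : G) * a))⁻¹) *
        (sg D (((1 : N) : G) * a) * (sg D ((v : G) * a))⁻¹)).right = 1
      rw [SemidirectProduct.mul_right, Char.sgdiv_right, Char.sgdiv_right, one_mul]) (by
      intro q
      change ((sg D (((v * w : N) : G) * a) * (sg D ((w : G) * a))⁻¹) *
        (sg D (((1 : N) : G) * a) * (sg D ((v : G) * a))⁻¹)).left q ∈ LC G 1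
      rw [SemidirectProduct.mul_left, Pi.mul_apply, Char.sgdiv_right, map_one,
        MulAut.one_apply, Char.sgdiv_left, Char.sgdiv_left, Char.mem_LC_one]
      simp only [map_mul, map_inv, map_zpow, Subgroup.coe_mul, mul_zpow, Subgroup.coe_one]
      simp only [map_one, one_zpow, one_mul]
      generalize Abelianization.of (v : G) ^ ev q 1 = x
      generalize Abelianization.of (w : G) ^ ev q 1 = y
      generalize Abelianization.of (a : G) ^ ev q 1 = z
      group
      try simp [mul_comm])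
    simp only [map_mul, map_inv, hs1, one_mul] at key
    rw [mul_pow, mul_pow, inv_pow, inv_pow] at key
    rw [mul_inv_eq_one.symm, mul_inv, ← key]
    rw [mul_assoc, mul_comm ((φ (s v) ^ M)⁻¹)]
  set χ : N →* Circle := MonoidHom.mk' (fun v => φ (s v) ^ M) hmul with hχdef
  have hχ : ∀ v, χ v = φ (s v) ^ M := fun v => rfl
  have hχc : Continuous χ := hc.pow M
  have hχL : ∀ v : N, (v : G) ∈ LC G 1 → χ v = 1 := by
    intro v hv
    have key := hcore Circle φ hT (s v * (s 1)⁻¹) (by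
      change ((sg D ((v : G) * a) * (sg D (((1 : N) : G) * a))⁻¹)).right = 1
      rw [Char.sgdiv_right]) (by
      intro q
      change ((sg D ((v : G) * a) * (sg D (((1 : N) : G) * a))⁻¹)).left q ∈ LC G 1
      rw [Char.sgdiv_left, Char.mem_LC_one]
      rw [Char.mem_LC_one] at hv
      simp [hv])
    rw [map_mul, map_inv, hs1, inv_one, mul_one] at key
    exact key
  -- an element of `Γ` in the coset `N a`
  obtain ⟨v₁, hv₁, γ₀, hγ₀, ha⟩ := hS.genΓ a
  have hγv : γ₀ = v₁⁻¹ * a := by rw [ha]; group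
  set v₀ : N := ⟨v₁⁻¹, N.inv_mem hv₁⟩ with hv₀
  have hγ0v : γ₀ = (v₀ : G) * a := hγv
  have hρ : ∀ v : N, (v : G) * a ∈ Γ → φ (s v) = 1 := by
    intro v hv
    exact hγ _ hv (sg_mem' D N a v)
  have hχv₀ : χ v₀ = 1 := by
    rw [hχ, hρ v₀ (by rw [← hγ0v]; exact hγ₀), one_pow]
  have hχΓ : ∀ v : N, (v : G) ∈ Γ → χ v = 1 := by
    intro v hv
    have h1 : χ (v * v₀) = 1 := by
      rw [hχ, hρ (v * v₀) (by
        rw [Subgroup.coe_mul, mul_assoc, ← hγ0v]; exact Γ.mul_mem hv hγ₀), one_pow]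
    rw [map_mul, hχv₀, mul_one] at h1
    exact h1
  have hχa : ∀ v : N, ∀ n : ℤ, ∀ γ ∈ Γ, (v : G) = a ^ n * γ → χ v = 1 := by
    intro v n γ hγm hv
    -- `γ₀ ^ n * γ ∈ N`
    have hmem : γ₀ ^ n * γ ∈ N := by
      rw [← QuotientGroup.eq_one_iff]
      have h1 : ((v : G) : G ⧸ N) = 1 := (QuotientGroup.eq_one_iff _).2 v.2
      have h2 : (γ₀ : G ⧸ N) = (a : G ⧸ N) := by
        rw [hγ0v, QuotientGroup.mk_mul, (QuotientGroup.eq_one_iff _).2 v₀.2, one_mul]
      rw [QuotientGroup.mk_mul, QuotientGroup.mk_zpow, h2, ← QuotientGroup.mk_zpow,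
        ← QuotientGroup.mk_mul, ← hv, h1]
    set u : N := ⟨γ₀ ^ n * γ, hmem⟩ with hu
    have hχu : χ u = 1 := hχΓ u (Γ.mul_mem (Γ.zpow_mem hγ₀ n) hγm)
    have hL : ((u⁻¹ * v₀ ^ n * v : N) : G) ∈ LC G 1 := by
      rw [Char.mem_LC_one]
      simp only [Subgroup.coe_mul, Subgroup.coe_inv, Subgroup.coe_zpow, map_mul, map_inv, map_zpow,
        hv, hu, hγ0v, mul_zpow]
      generalize Abelianization.of (v₀ : G) ^ n = x
      generalize Abelianization.of (a : G) ^ n = y
      generalize Abelianization.of γ = z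
      group
    have h3 := hχL _ hL
    rw [map_mul, map_mul, map_inv, map_zpow, hχu, hχv₀, inv_one, one_zpow, one_mul, one_mul] at h3
    exact h3
  -- density
  have hχ1 : ∀ v : N, χ v = 1 := by
    by_contra hcon
    push Not at hcon
    have hO : IsOpen {v : N | χ v ≠ 1} := isOpen_ne_fun hχc continuous_const
    have hO' : IsOpen ((Subtype.val : N → G) '' {v : N | χ v ≠ 1}) :=
      hS.isOpen.isOpenMap_subtype_val _ hO
    have hO'' : IsOpen ((QuotientGroup.mk : G → G ⧸ Γ) '' ((Subtype.val : N → G) ''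
        {v : N | χ v ≠ 1})) := QuotientGroup.isOpenMap_coe _ hO'
    obtain ⟨v, hv⟩ := hcon
    obtain ⟨y, hy, ⟨n, rfl⟩⟩ := (hS.mini ((1 : G) : G ⧸ Γ)).inter_open_nonempty _ hO''
      ⟨_, ⟨v, ⟨v, hv, rfl⟩, rfl⟩⟩
    obtain ⟨g, ⟨w, hw, rfl⟩, hg⟩ := hy
    have h1 : (a ^ n)⁻¹ * (w : G) ∈ Γ := by
      rw [← QuotientGroup.eq]
      rw [hg]
      change ((a ^ n : G) : G ⧸ Γ) = ((a ^ n * 1 : G) : G ⧸ Γ)
      rw [mul_one]
    exact hw (hχa w n _ h1 (by group))
  -- `ρ` is constant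
  have hρ1 : ∀ v : N, φ (s v) = 1 := by
    have : PreconnectedSpace N := Subtype.preconnectedSpace hS.conn
    have hr : IsPreconnected (Set.range fun v : N => φ (s v)) := isPreconnected_range hc
    have hfin : (Set.range fun v : N => φ (s v)).Finite := by
      refine (Char.finite_roots M hM).subset ?_
      rintro _ ⟨v, rfl⟩
      exact hχ1 v
    have hsub : (Set.range fun v : N => φ (s v)).Subsingleton := by
      by_contra hns
      rw [Set.not_subsingleton_iff] at hns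
      exact (hr.infinite_of_nontrivial hns) hfin
    intro v
    rw [← hs1]
    exact hsub ⟨v, rfl⟩ ⟨1, rfl⟩
  have hall : ∀ x (hx : x ∈ GG D N a), φ ⟨x, hx⟩ = 1 := by
    intro x hx
    refine Subgroup.closure_induction (p := fun x hx => φ ⟨x, hx⟩ = 1) ?_ ?_ ?_ ?_ hx
    · rintro x (⟨v, hv, rfl⟩ | ⟨b, rfl⟩)
      · exact hρ1 ⟨v, hv⟩
      · exact hT b _
    · exact map_one φ
    · intro x y hx hy h1 h2
      have h3 : (⟨x * y, Subgroup.mul_mem _ hx hy⟩ : GG D N a) = ⟨x, hx⟩ * ⟨y, hy⟩ := rfl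
      change φ (⟨x * y, Subgroup.mul_mem _ hx hy⟩ : GG D N a) = 1
      rw [h3, map_mul, h1, h2, mul_one]
    · intro x hx h1
      have h3 : (⟨x⁻¹, Subgroup.inv_mem _ hx⟩ : GG D N a) = (⟨x, hx⟩)⁻¹ := rfl
      change φ (⟨x⁻¹, Subgroup.inv_mem _ hx⟩ : GG D N a) = 1
      rw [h3, map_inv, h1, inv_one]
  ext x
  rw [hall x.1 x.2]
  rfl

end Char

end Pool.Agent.T6.H51.NS
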