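import Pool.Agent.T6.H51.NS.Alg
import Pool.Agent.T6.H51.NS.Char0

set_option autoImplicit false

namespace Pool.Agent.T6.H51.NS

theorem char_lemma {G : Type} [Group G] [TopologicalSpace G] [IsTopologicalGroup G]
    {N Γ : Subgroup G} {a : G} (hS : NilSys G N Γ a) (D : ℕ) (φ : GG D N a →* Circle)
    (hT : ∀ (b : G) (h : Tg D b ∈ GG D N a), φ ⟨Tg D b, h⟩ = 1)
    (hs : ∀ h : sg D a ∈ GG D N a, φ ⟨sg D a, h⟩ = 1)
    (hγ : ∀ γ ∈ Γ, ∀ h : sg D γ ∈ GG D N a, φ ⟨sg D γ, h⟩ = 1)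
    (hc : Continuous (fun v : N => φ ⟨sg D ((v : G) * a), sg_mem D N a v⟩)) : φ = 1 :=
  Char.char_of hS D (alg_core hS.nil D N hS.normal a hS.genA) φ hT hs hγ hc

end Pool.Agent.T6.H51.NS
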