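import Mathlib

/-!
# Definitions for the nilsystem project (MP_35c333_an, frozen statement S04319)

`A D = Fin D → ℤ` is the group of integer polynomials `q(t) = ∑ q_l t^(l+1)` of degree at most `D`
without constant term.  `U n` is the shift `(U n q)(t) = q(t+n) - q(n)`, `mm k` the dilation
`(mm k q)(t) = q(k t)`.  For a group `G`, `Sg D G` is the semidirect product of the group of all
maps `A D → G` with `ℤ` acting by the shift; it acts on the maps `A D → X` for every `G`-space `X`.
-/

set_option autoImplicit false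

namespace Pool.Agent.T6.H51.NS

open Polynomial Filter Topology
open scoped commutatorElement

/-! ### Filtrations and polynomial maps -/

section filt
variable {G : Type*} [Group G]

/-- the lower central series, `LC G 0 = ⊤` -/
abbrev LC (G : Type*) [Group G] (m : ℕ) : Subgroup G := (⊤ : Subgroup G).lowerCentralSeries m

/-- the lower central filtration: `Fl G 0 = Fl G 1 = ⊤`, `Fl G (m + 1) = LC G m` -/
def Fl (G : Type*) [Group G] (k : ℕ) : Subgroup G := LC G (k - 1)

/-- a filtration of a group -/
structure IsFilt (F : ℕ → Subgroup G) : Prop where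
  anti : Antitone F
  comm : ∀ i j, ⁅F i, F j⁆ ≤ F (i + j)
  zero : F 0 = ⊤

variable {A : Type*} [AddCommGroup A]

/-- the difference operator `(Dif h p)(q) = p (q + h) * (p q)⁻¹` -/
def Dif (h : A) (p : A → G) : A → G := fun q => p (q + h) * (p q)⁻¹

/-- truncated version of `Pl`: `k` differences are tested -/
def Cub (F : ℕ → Subgroup G) : ℕ → ℕ → (A → G) → Prop
  | 0, j, p => ∀ q, p q ∈ F j
  | (k + 1), j, p => Cub F k j p ∧ ∀ h, Cub F k (j + 1) (Dif h p)

/-- polynomial maps with values in `F j`: all `i`-fold differences have values in `F (i + j)` -/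
def Pl (F : ℕ → Subgroup G) (j : ℕ) (p : A → G) : Prop := ∀ k, Cub F k j p

/-- polynomial maps of degree at most `i` into a commutative group (multiplicative notation) -/
def Deg {V : Type*} [CommGroup V] : ℕ → (A → V) → Prop
  | 0, b => ∀ h, Dif h b = 1
  | (i + 1), b => ∀ h, Deg i (Dif h b)

end filt

/-! ### The index group `A D` -/

/-- integer polynomials of degree at most `D` without constant term -/
abbrev A (D : ℕ) : Type := Fin D → ℤ

/-- multi-binomial coefficients -/
def bin {D : ℕ} (μ : Fin D → ℕ) (q : A D) : ℤ := ∏ l, Ring.choose (q l) (μ l)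

/-- the point of `A D` attached to a multi-index -/
def pt {D : ℕ} (ν : Fin D → ℕ) : A D := fun l => (ν l : ℤ)

/-- the polynomial attached to an element of `A D` -/
noncomputable def pol {D : ℕ} (q : A D) : ℤ[X] := ∑ l : Fin D, C (q l) * X ^ ((l : ℕ) + 1)

/-- evaluation `q(t)` -/
def ev {D : ℕ} (q : A D) (t : ℤ) : ℤ := ∑ l : Fin D, q l * t ^ ((l : ℕ) + 1)

/-- the shift `(U n q)(t) = q(t + n) - q(n)` -/
noncomputable def U {D : ℕ} (n : ℤ) (q : A D) : A D :=
  fun l => ((pol q).comp (X + C n)).coeff ((l : ℕ) + 1)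

/-- the dilation `(mm k q)(t) = q(k t)` -/
def mm {D : ℕ} (k : ℕ) (q : A D) : A D := fun l => (k : ℤ) ^ ((l : ℕ) + 1) * q l

variable {D : ℕ}

theorem eval_pol (q : A D) (t : ℤ) : (pol q).eval t = ev q t := by
  simp [pol, ev, eval_finsetSum]

theorem ev_add (q r : A D) (t : ℤ) : ev (q + r) t = ev q t + ev r t := by
  simp [ev, add_mul, Finset.sum_add_distrib]

theorem ev_zero_left (t : ℤ) : ev (0 : A D) t = 0 := by simp [ev]

theorem ev_zero_right (q : A D) : ev q 0 = 0 := by simp [ev]

theorem ev_neg (q : A D) (t : ℤ) : ev (-q) t = -ev q t := by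
  simp [ev, Finset.sum_neg_distrib]

theorem coeff_pol (q : A D) (l : Fin D) : (pol q).coeff ((l : ℕ) + 1) = q l := by
  unfold pol
  rw [finsetSum_coeff, Finset.sum_eq_single l]
  · simp
  · intro b _ hb
    rw [coeff_C_mul, coeff_X_pow, if_neg, mul_zero]
    intro h
    exact hb (Fin.ext (by omega))
  · intro h; exact absurd (Finset.mem_univ l) h

theorem natDegree_pol (q : A D) : (pol q).natDegree ≤ D := by
  unfold pol
  refine natDegree_sum_le_of_forall_le _ _ (fun l _ => ?_)
  refine (natDegree_C_mul_X_pow_le _ _).trans ?_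
  have := l.2
  omega

theorem coeff_pol_zero (q : A D) : (pol q).coeff 0 = 0 := by
  rw [coeff_zero_eq_eval_zero, eval_pol, ev_zero_right]

/-- a polynomial of degree at most `D` vanishing at `0` comes from `A D` -/
theorem pol_coeff {P : ℤ[X]} (h : P.natDegree ≤ D) :
    pol (fun l : Fin D => P.coeff ((l : ℕ) + 1)) = P - C (P.coeff 0) := by
  ext k
  rcases Nat.eq_zero_or_pos k with hk | hk
  · subst hk
    rw [coeff_pol_zero]; simp
  · by_cases hkD : k ≤ D
    · have h1 : k = ((⟨k - 1, by omega⟩ : Fin D) : ℕ) + 1 := by simp only; omega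
      rw [coeff_sub, coeff_C, if_neg (by omega), sub_zero]
      conv_lhs => rw [h1]
      rw [coeff_pol]
      simp only
      congr 1
      omega
    · rw [coeff_eq_zero_of_natDegree_lt (lt_of_le_of_lt (natDegree_pol _) (by omega)),
        coeff_sub, coeff_C, if_neg (by omega), sub_zero,
        coeff_eq_zero_of_natDegree_lt (by omega)]

theorem pol_injective : Function.Injective (pol : A D → ℤ[X]) := by
  intro q r h
  funext l
  rw [← coeff_pol q l, h, coeff_pol]

theorem ext_ev {q r : A D} (h : ∀ t, ev q t = ev r t) : q = r := by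
  apply pol_injective
  refine Polynomial.funext (fun t => ?_)
  rw [eval_pol, eval_pol, h]

theorem pol_U (n : ℤ) (q : A D) : pol (U n q) = (pol q).comp (X + C n) - C (ev q n) := by
  have h : ((pol q).comp (X + C n)).natDegree ≤ D := by
    refine natDegree_comp_le.trans ?_
    have h2 : (X + C n : ℤ[X]).natDegree = 1 := natDegree_X_add_C n
    rw [h2, mul_one]
    exact natDegree_pol q
  rw [show U n q = fun l : Fin D => ((pol q).comp (X + C n)).coeff ((l : ℕ) + 1) from rfl,
    pol_coeff h, coeff_zero_eq_eval_zero, eval_comp]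
  simp [eval_pol]

theorem ev_U (n : ℤ) (q : A D) (t : ℤ) : ev (U n q) t = ev q (t + n) - ev q n := by
  rw [← eval_pol, pol_U, eval_sub, eval_comp, eval_C]
  simp [eval_pol]

theorem ev_mm (k : ℕ) (q : A D) (t : ℤ) : ev (mm k q) t = ev q (k * t) := by
  unfold ev mm
  refine Finset.sum_congr rfl (fun l _ => ?_)
  rw [mul_pow]; ring

theorem U_add_right (n : ℤ) (q r : A D) : U n (q + r) = U n q + U n r := by
  apply ext_ev; intro t
  rw [ev_U, ev_add, ev_add, ev_add, ev_U, ev_U]; ring

theorem U_zero_right (n : ℤ) : U n (0 : A D) = 0 := by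
  apply ext_ev; intro t
  rw [ev_U, ev_zero_left, ev_zero_left, ev_zero_left, sub_zero]

theorem U_zero (q : A D) : U 0 q = q := by
  apply ext_ev; intro t
  rw [ev_U, add_zero, ev_zero_right, sub_zero]

theorem U_add (n m : ℤ) (q : A D) : U (n + m) q = U n (U m q) := by
  apply ext_ev; intro t
  rw [ev_U, ev_U, ev_U, ev_U]
  rw [show t + n + m = t + (n + m) by ring]
  ring

theorem mm_add (k : ℕ) (q r : A D) : mm k (q + r) = mm k q + mm k r := by
  apply ext_ev; intro t
  rw [ev_mm, ev_add, ev_add, ev_mm, ev_mm]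

theorem U_mm (n : ℤ) (k : ℕ) (q : A D) : U n (mm k q) = mm k (U (k * n) q) := by
  apply ext_ev; intro t
  rw [ev_U, ev_mm, ev_mm, ev_mm, ev_U]
  rw [show (k : ℤ) * (t + n) = k * t + k * n by ring]

/-! ### The group `Sg D G` -/

section sg
variable (D) (G : Type*) [Group G]

/-- the shift acting on maps -/
noncomputable def sh : Multiplicative ℤ →* MulAut (A D → G) where
  toFun n :=
    { toFun := fun p q => p (U n.toAdd q)
      invFun := fun p q => p (U (-n.toAdd) q)
      left_inv := fun p => by
        funext q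
        change p (U n.toAdd (U (-n.toAdd) q)) = p q
        rw [← U_add, add_neg_cancel, U_zero]
      right_inv := fun p => by
        funext q
        change p (U (-n.toAdd) (U n.toAdd q)) = p q
        rw [← U_add, neg_add_cancel, U_zero]
      map_mul' := fun p p' => rfl }
  map_one' := by
    ext p q
    change p (U 0 q) = p q
    rw [U_zero]
  map_mul' n m := by
    ext p q
    change p (U (n.toAdd + m.toAdd) q) = p (U m.toAdd (U n.toAdd q))
    rw [add_comm, U_add]

/-- maps `A D → G` extended by the shift -/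
abbrev Sg : Type _ := (A D → G) ⋊[sh D G] Multiplicative ℤ

variable {D G}

theorem sh_apply (n : Multiplicative ℤ) (p : A D → G) (q : A D) :
    sh D G n p q = p (U n.toAdd q) := rfl

/-- `x ↦ g^{q(1)}` followed by the shift -/
noncomputable def sg (D : ℕ) (g : G) : Sg D G := ⟨fun q => g ^ ev q 1, Multiplicative.ofAdd 1⟩

/-- the constant map -/
noncomputable def Tg (D : ℕ) (g : G) : Sg D G := ⟨fun _ => g, 1⟩

/-- the group generated by the `sg (v * a)`, `v ∈ N`, and the constants -/
noncomputable def GG (D : ℕ) (N : Subgroup G) (a : G) : Subgroup (Sg D G) :=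
  Subgroup.closure ({x | ∃ v ∈ N, x = sg D (v * a)} ∪ {x | ∃ b : G, x = Tg D b})

/-- the abelian group generated by `sg a` to the power `k` and the constant `a` -/
noncomputable def AA (D : ℕ) (a : G) (k : ℕ) : Subgroup (Sg D G) :=
  Subgroup.closure {sg D a ^ k, Tg D a}

/-- product topology -/
instance [TopologicalSpace G] : TopologicalSpace (Sg D G) :=
  TopologicalSpace.induced (fun x => (x.left, x.right)) inferInstance

/-- action of `Sg D G` on maps -/
noncomputable instance actSg {X : Type*} [MulAction G X] : MulAction (Sg D G) (A D → X) where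
  smul x y := fun q => x.left q • y (U x.right.toAdd q)
  one_smul y := by
    funext q
    change (1 : A D → G) q • y (U 0 q) = y q
    rw [U_zero, Pi.one_apply, one_smul]
  mul_smul x x' y := by
    funext q
    change (x.left q * x'.left (U x.right.toAdd q)) • y (U (x.right.toAdd + x'.right.toAdd) q) =
      x.left q • x'.left (U x.right.toAdd q) • y (U x'.right.toAdd (U x.right.toAdd q))
    rw [mul_smul, ← U_add, add_comm]

theorem smul_apply {X : Type*} [MulAction G X] (x : Sg D G) (y : A D → X) (q : A D) :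
    (x • y) q = x.left q • y (U x.right.toAdd q) := rfl

end sg

/-- `c` has an `n`-th root for all large `n`, and these roots tend to `1` (as in `V11106`). -/
def Rooted {G : Type*} [Group G] [TopologicalSpace G] (c : G) : Prop :=
  ∃ f : ℕ → G, Tendsto f atTop (𝓝 1) ∧ ∀ᶠ n in atTop, f n ^ n = c

/-- The abstract nilsystems of the project. -/
structure NilSys (G : Type*) [Group G] [TopologicalSpace G] [IsTopologicalGroup G]
    (N Γ : Subgroup G) (a : G) : Prop where
  nil : Group.IsNilpotent G
  t2 : T2Space G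
  normal : N.Normal
  isOpen : IsOpen (N : Set G)
  conn : IsPreconnected (N : Set G)
  genA : ∀ g : G, ∃ v ∈ N, ∃ n : ℤ, g = v * a ^ n
  genΓ : ∀ g : G, ∃ v ∈ N, ∃ γ ∈ Γ, g = v * γ
  closedΓ : IsClosed (Γ : Set G)
  rat : ∀ k : ℕ, ∃ K : Set G, IsCompact K ∧ (∀ x ∈ K, x ∈ LC G k) ∧
    ∀ g ∈ LC G k, ∃ x ∈ K, ∃ γ ∈ Γ, γ ∈ LC G k ∧ g = x * γ
  mini : ∀ x : G ⧸ Γ, Dense (Set.range fun n : ℤ => a ^ n • x)

end Pool.Agent.T6.H51.NS
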