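import Mathlib

/-!
# Distal group actions on compact spaces have minimal orbit closures
-/

namespace Pool.Agent.T6.H51.NS

open Topology Filter

theorem ellis {Y : Type} [TopologicalSpace Y] [CompactSpace Y] [T2Space Y] {H : Type} [Group H]
    [MulAction H Y] (hc : ∀ h : H, Continuous (fun y : Y => h • y)) (F : Set Y) (hF : IsClosed F)
    (hinv : ∀ h : H, ∀ y ∈ F, h • y ∈ F)
    (hdist : ∀ y ∈ F, ∀ y' ∈ F, ∀ z : Y, ∀ l : Filter H, l.NeBot →
      Tendsto (fun h : H => h • y) l (𝓝 z) → Tendsto (fun h : H => h • y') l (𝓝 z) → y = y') :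
    ∀ y ∈ F, ∀ y' ∈ closure (Set.range fun h : H => h • y),
      y ∈ closure (Set.range fun h : H => h • y') := by
  intro y hy y' hy'
  let _ : TopologicalSpace (Function.End Y) := (inferInstance : TopologicalSpace (Y → Y))
  have : CompactSpace (Function.End Y) := (inferInstance : CompactSpace (Y → Y))
  have : T2Space (Function.End Y) := (inferInstance : T2Space (Y → Y))
  have hev : ∀ x : Y, Continuous (fun e : Function.End Y => e x) := fun x => continuous_apply x
  -- the action maps
  let a : H → Function.End Y := fun h x => h • x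
  set 𝓔 : Set (Function.End Y) := closure (Set.range a) with h𝓔
  have hcomp : IsCompact 𝓔 := isClosed_closure.isCompact
  have hright : ∀ r : Function.End Y, Continuous (fun e : Function.End Y => e * r) :=
    fun r => continuous_pi fun x => hev (r x)
  have hleft : ∀ h : H, Continuous (fun e : Function.End Y => a h * e) :=
    fun h => continuous_pi fun x => (hc h).comp (hev x)
  have hmul : ∀ e ∈ 𝓔, ∀ e' ∈ 𝓔, e * e' ∈ 𝓔 := by
    have h1 : ∀ h : H, ∀ e' ∈ 𝓔, a h * e' ∈ 𝓔 := by
      intro h e' he'
      refine map_mem_closure (hleft h) he' ?_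
      rintro _ ⟨h', rfl⟩
      refine ⟨h * h', ?_⟩
      funext x
      exact mul_smul h h' x
    intro e he e' he'
    have h2 : e * e' ∈ closure 𝓔 := by
      refine map_mem_closure (f := fun e : Function.End Y => e * e') (hright e') he ?_
      rintro _ ⟨h, rfl⟩
      exact h1 h e' he'
    rwa [h𝓔, closure_closure] at h2
  -- closed invariant sets are invariant under `𝓔`
  have hclosed : ∀ M : Set Y, IsClosed M → (∀ h : H, ∀ x ∈ M, h • x ∈ M) →
      ∀ e ∈ 𝓔, ∀ x ∈ M, e x ∈ M := by
    intro M hM hMi e he x hx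
    have h1 : e x ∈ closure M := by
      refine map_mem_closure (f := fun e : Function.End Y => e x) (hev x) he ?_
      rintro _ ⟨h, rfl⟩
      exact hMi h x hx
    rwa [hM.closure_eq] at h1
  -- the set `{e x | e ∈ 𝓔}` is the orbit closure
  have horb : ∀ x z : Y, z ∈ closure (Set.range fun h : H => h • x) → ∃ e ∈ 𝓔, e x = z := by
    intro x z hz
    have h1 : IsClosed ((fun e : Function.End Y => e x) '' 𝓔) := (hcomp.image (hev x)).isClosed
    have h2 : closure (Set.range fun h : H => h • x) ⊆ (fun e : Function.End Y => e x) '' 𝓔 := by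
      refine closure_minimal ?_ h1
      rintro _ ⟨h, rfl⟩
      exact ⟨a h, subset_closure ⟨h, rfl⟩, rfl⟩
    obtain ⟨e, he, hez⟩ := h2 hz
    exact ⟨e, he, hez⟩
  have hcinv : ∀ x : Y, ∀ h : H, ∀ z ∈ closure (Set.range fun h : H => h • x),
      h • z ∈ closure (Set.range fun h : H => h • x) := by
    intro x h z hz
    refine map_mem_closure (hc h) hz ?_
    rintro _ ⟨h', rfl⟩
    exact ⟨h * h', mul_smul h h' x⟩
  set M := closure (Set.range fun h : H => h • y') with hM
  have hy'M : y' ∈ M := subset_closure ⟨1, one_smul H y'⟩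
  -- the subsemigroup
  let S : Set (Function.End Y) := {e | e ∈ 𝓔 ∧ e y ∈ M}
  have hSc : IsCompact S :=
    (isClosed_closure.inter (isClosed_closure.preimage (hev y))).isCompact
  obtain ⟨e₀, he₀, he₀y⟩ := horb y y' hy'
  have hSne : S.Nonempty := ⟨e₀, he₀, by rw [he₀y]; exact hy'M⟩
  have hSmul : ∀ e ∈ S, ∀ e' ∈ S, e * e' ∈ S := by
    rintro e ⟨he, hey⟩ e' ⟨he', hey'⟩
    exact ⟨hmul e he e' he', hclosed M isClosed_closure (hcinv y') e he _ hey'⟩
  obtain ⟨v, ⟨hv, hvy⟩, hvv⟩ := exists_idempotent_in_compact_subsemigroup hright S hSne hSc hSmul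
  -- `v y` and `y` are proximal
  have hvyF : v y ∈ F := hclosed F hF hinv v hv y hy
  let l : Filter H := comap a (𝓝 v)
  have hl : l.NeBot := by
    rw [comap_neBot_iff_frequently]
    have := mem_closure_iff_frequently.mp hv
    exact this
  have ht : Tendsto a l (𝓝 v) := tendsto_comap
  have ht1 : Tendsto (fun h : H => h • y) l (𝓝 (v y)) := ((hev y).tendsto v).comp ht
  have ht2 : Tendsto (fun h : H => h • v y) l (𝓝 (v y)) := by
    have h1 : Tendsto (fun h : H => h • v y) l (𝓝 (v (v y))) := ((hev (v y)).tendsto v).comp ht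
    have h2 : v (v y) = v y := congrFun hvv y
    rwa [h2] at h1
  have h3 := hdist y hy (v y) hvyF (v y) l hl ht1 ht2
  rw [h3]
  exact hvy

end Pool.Agent.T6.H51.NS
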