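import Mathlib
import Pool.Agent.T6.H51.NS.Defs
import Pool.Agent.V11106.Nil1

/-!
# Generation of the lower central series by small elements (module Gen, helper60)
-/

set_option autoImplicit false

namespace Pool.Agent.T6.H51.NS

open Filter Topology
open scoped commutatorElement

open Pool.Agent.V11106 (q q_eq q_comm_mul_left q_comm_mul_right q_comm_inv_left q_comm_inv_right
  comm_mem)

private theorem mem_congr {H : Type*} [Group H] {m : ℕ} {M : Subgroup H}
    (hM : LC H m ≤ M) {x y : H} (h : q m x = q m y) (hy : y ∈ M) : x ∈ M := by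
  have h1 : x * y⁻¹ ∈ M := hM (q_eq.1 h)
  have h2 := M.mul_mem h1 hy
  rwa [inv_mul_cancel_right] at h2

private theorem gen_step {H : Type*} [Group H] [TopologicalSpace H] [IsTopologicalGroup H]
    (B : Subgroup H)
    (hB : ∀ x ∈ B, ∀ y ∈ B, x * y = y * x)
    (hgen : ∀ W ∈ 𝓝 (1 : H), Subgroup.closure ((B : Set H) ∪ W) = ⊤) (r : ℕ)
    (hP : ∀ W ∈ 𝓝 (1 : H),
      LC H r ≤ Subgroup.closure (W ∩ (LC H r : Set H)) ⊔ (B ⊓ LC H r) ⊔ LC H (r + 1))
    (W : Set H) (hW : W ∈ 𝓝 (1 : H)) :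
    LC H (r + 1) ≤ Subgroup.closure (W ∩ (LC H (r + 1) : Set H)) ⊔ LC H (r + 2) := by
  set M : Subgroup H := Subgroup.closure (W ∩ (LC H (r + 1) : Set H)) ⊔ LC H (r + 2) with hMdef
  have hM2 : LC H (r + 2) ≤ M := le_sup_right
  have hMW : ∀ x ∈ W, x ∈ LC H (r + 1) → x ∈ M := fun x hx hx' =>
    (le_sup_left : Subgroup.closure (W ∩ (LC H (r + 1) : Set H)) ≤ M)
      (Subgroup.subset_closure ⟨hx, hx'⟩)
  -- second step: elements of `B` on the left
  have hBt : ∀ t ∈ B, ∀ u ∈ LC H r, ⁅t, u⁆ ∈ M := by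
    intro t ht u hu
    let T : Subgroup H :=
      { carrier := {u | u ∈ LC H r ∧ ⁅t, u⁆ ∈ M}
        one_mem' := ⟨one_mem _, by simp [commutatorElement_def]⟩
        mul_mem' := by
          rintro x y ⟨hx, hx'⟩ ⟨hy, hy'⟩
          refine ⟨mul_mem hx hy, mem_congr hM2 (y := ⁅t, x⁆ * ⁅t, y⁆) ?_ (mul_mem hx' hy')⟩
          rw [q_comm_mul_right hx hy, map_mul]
        inv_mem' := by
          rintro x ⟨hx, hx'⟩
          refine ⟨inv_mem hx, mem_congr hM2 (y := ⁅t, x⁆⁻¹) ?_ (inv_mem hx')⟩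
          rw [q_comm_inv_right hx, map_inv] }
    have hc : Continuous (fun u : H => ⁅t, u⁆) := by
      have : (fun u : H => ⁅t, u⁆) = fun u => t * u * t⁻¹ * u⁻¹ := by
        funext u; rw [commutatorElement_def]
      rw [this]; fun_prop
    have hn : {u : H | ⁅t, u⁆ ∈ W} ∈ 𝓝 (1 : H) := by
      apply hc.continuousAt.preimage_mem_nhds
      simpa [commutatorElement_def] using hW
    have h1 := hP _ hn
    have h2 : Subgroup.closure ({u : H | ⁅t, u⁆ ∈ W} ∩ (LC H r : Set H)) ⊔ (B ⊓ LC H r) ⊔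
        LC H (r + 1) ≤ T := by
      refine sup_le (sup_le ?_ ?_) ?_
      · rw [Subgroup.closure_le]
        rintro x ⟨hx, hx'⟩
        exact ⟨hx', hMW _ hx (comm_mem hx' t)⟩
      · rintro x ⟨hx, hx'⟩
        refine ⟨hx', ?_⟩
        have : ⁅t, x⁆ = 1 := by
          rw [commutatorElement_eq_one_iff_mul_comm]
          exact hB t ht x hx
        rw [this]; exact one_mem _
      · intro x hx
        exact ⟨Subgroup.lowerCentralSeries_antitone _ (Nat.le_succ r) hx,
          hM2 (comm_mem hx t)⟩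
    exact (h2 (h1 hu)).2
  have hall : ∀ u ∈ LC H r, ∀ g : H, ⁅g, u⁆ ∈ M := by
    intro u hu g
    let T : Subgroup H :=
      { carrier := {g | ⁅g, u⁆ ∈ M}
        one_mem' := by simp [commutatorElement_def]
        mul_mem' := by
          intro x y hx hy
          refine mem_congr hM2 (y := ⁅x, u⁆ * ⁅y, u⁆) ?_ (mul_mem hx hy)
          rw [q_comm_mul_left hu, map_mul]
        inv_mem' := by
          intro x hx
          refine mem_congr hM2 (y := ⁅x, u⁆⁻¹) ?_ (inv_mem hx)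
          rw [q_comm_inv_left hu, map_inv] }
    have hc : Continuous (fun g : H => ⁅g, u⁆) := by
      have : (fun g : H => ⁅g, u⁆) = fun g => g * u * g⁻¹ * u⁻¹ := by
        funext g; rw [commutatorElement_def]
      rw [this]; fun_prop
    have hn : {g : H | ⁅g, u⁆ ∈ W} ∈ 𝓝 (1 : H) := by
      apply hc.continuousAt.preimage_mem_nhds
      simpa [commutatorElement_def] using hW
    have h1 := hgen _ hn
    have h2 : Subgroup.closure ((B : Set H) ∪ {g : H | ⁅g, u⁆ ∈ W}) ≤ T := by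
      rw [Subgroup.closure_le]
      rintro x (hx | hx)
      · exact hBt x hx u hu
      · exact hMW _ hx (comm_mem hu x)
    rw [h1] at h2
    exact h2 (Subgroup.mem_top g)
  change ⁅LC H r, (⊤ : Subgroup H)⁆ ≤ M
  rw [Subgroup.commutator_le]
  intro h hh g _
  rw [← commutatorElement_inv]
  exact inv_mem (hall h hh g)

theorem gen_LC {H : Type*} [Group H] [TopologicalSpace H] [IsTopologicalGroup H] (B : Subgroup H)
    (hB : ∀ x ∈ B, ∀ y ∈ B, x * y = y * x)
    (hgen : ∀ W ∈ 𝓝 (1 : H), Subgroup.closure ((B : Set H) ∪ W) = ⊤)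
    (W : Set H) (hW : W ∈ 𝓝 (1 : H)) (r : ℕ) :
    LC H (r + 1) ≤ Subgroup.closure (W ∩ (LC H (r + 1) : Set H)) ⊔ LC H (r + 2) := by
  have hP : ∀ r : ℕ, ∀ W ∈ 𝓝 (1 : H),
      LC H r ≤ Subgroup.closure (W ∩ (LC H r : Set H)) ⊔ (B ⊓ LC H r) ⊔ LC H (r + 1) := by
    intro r
    induction r with
    | zero =>
      intro W hW
      have h1 := hgen W hW
      intro x _
      have hx : x ∈ Subgroup.closure ((B : Set H) ∪ W) := by rw [h1]; exact Subgroup.mem_top x
      refine (Subgroup.closure_le _).2 ?_ hx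
      rintro y (hy | hy)
      · exact (le_sup_left : _ ≤ _ ⊔ LC H (0 + 1)) ((le_sup_right : B ⊓ LC H 0 ≤ _) ⟨hy,
          Subgroup.mem_top y⟩)
      · exact (le_sup_left : _ ≤ _ ⊔ LC H (0 + 1)) ((le_sup_left : _ ≤ _ ⊔ (B ⊓ LC H 0))
          (Subgroup.subset_closure ⟨hy, Subgroup.mem_top y⟩))
    | succ r ih =>
      intro W hW
      refine (gen_step B hB hgen r ih W hW).trans ?_
      exact sup_le_sup_right le_sup_left _
  exact gen_step B hB hgen r (hP r) W hW

end Pool.Agent.T6.H51.NS
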