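import Mathlib
import Pool.Agent.T6.H51.NS.Defs
import Pool.Agent.T6.H51.NS.Gen
import Pool.Agent.Helper472.Lat_Chars

/-!
# The abstract compact abelian extension step (module Ext, helper60)
-/

set_option autoImplicit false

namespace Pool.Agent.T6.H51.NS

open Filter Topology
open scoped commutatorElement

/-- An element of the circle all of whose powers are close to `1` is trivial. -/
private theorem circle_one (c g : Circle)
    (h : ∀ n : ℕ, ‖((c ^ n * g : Circle) : ℂ) - 1‖ < 1 / 2) : c = 1 := by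
  have h1 : ∀ n : ℕ, ‖((c : ℂ)) ^ n - 1‖ < 1 := by
    intro n
    have h0 := h 0
    have hn := h n
    rw [pow_zero, one_mul] at h0
    have e : ((c : ℂ)) ^ n - 1 = (((c ^ n * g : Circle) : ℂ) - 1) - (c : ℂ) ^ n * ((g : ℂ) - 1) := by
      push_cast; ring
    rw [e]
    refine lt_of_le_of_lt (norm_sub_le _ _) ?_
    rw [norm_mul, norm_pow, Circle.norm_coe, one_pow, one_mul]
    linarith
  have h2 : ∀ n : ℕ, 1 / 2 ≤ (((c : ℂ)) ^ n).re := by
    intro n
    have h3 := h1 n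
    have h4 : ‖((c : ℂ)) ^ n - 1‖ ^ 2 < 1 := by
      have := norm_nonneg (((c : ℂ)) ^ n - 1)
      nlinarith
    have h5 : ‖((c : ℂ)) ^ n‖ ^ 2 = 1 := by
      rw [norm_pow, Circle.norm_coe, one_pow, one_pow]
    rw [Complex.sq_norm, Complex.normSq_apply] at h4 h5
    simp only [Complex.sub_re, Complex.one_re, Complex.sub_im, Complex.one_im] at h4
    nlinarith
  have h3 : ∀ N : ℕ, (N : ℝ) / 2 ≤ ‖∑ n ∈ Finset.range N, ((c : ℂ)) ^ n‖ := by
    intro N
    refine le_trans ?_ (Complex.re_le_norm _)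
    rw [Complex.re_sum]
    have := Finset.sum_le_sum (s := Finset.range N) (fun n _ => h2 n)
    simp only [Finset.sum_const, Finset.card_range, nsmul_eq_mul] at this
    linarith
  by_contra hne
  have hc : (c : ℂ) - 1 ≠ 0 := by
    intro h
    apply hne
    apply Circle.ext
    rw [Circle.coe_one]
    exact sub_eq_zero.1 h
  have hpos : 0 < ‖(c : ℂ) - 1‖ := norm_pos_iff.2 hc
  obtain ⟨N, hN⟩ := exists_nat_gt (4 / ‖(c : ℂ) - 1‖)
  have h4 : ‖∑ n ∈ Finset.range N, ((c : ℂ)) ^ n‖ * ‖(c : ℂ) - 1‖ ≤ 2 := by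
    rw [← norm_mul, geom_sum_mul]
    refine (norm_sub_le _ _).trans ?_
    rw [norm_pow, Circle.norm_coe, one_pow, norm_one]
    norm_num
  have h5 := h3 N
  rw [div_lt_iff₀ hpos] at hN
  nlinarith

private theorem fchi {Y : Type} [TopologicalSpace Y] [CompactSpace Y] [T2Space Y]
    {B : Type} [CommGroup B] [TopologicalSpace B] [IsTopologicalGroup B] [CompactSpace B] [T2Space B]
    [MulAction B Y] [ContinuousSMul B Y]
    (B' : Subgroup B) (hB' : IsClosed (B' : Set B)) (F : Set Y) (hF : IsClosed F)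
    (χ : B →* Circle) (hχ : Continuous χ)
    (hwd : ∀ b ∈ B', ∀ y ∈ F, ∀ b' ∈ B', ∀ y' ∈ F, b • y = b' • y' → χ b = χ b') :
    ∃ f : Y → Circle, ContinuousOn f {z | ∃ b ∈ B', ∃ y ∈ F, z = b • y} ∧
      ∀ b ∈ B', ∀ y ∈ F, f (b • y) = χ b := by
  classical
  refine ⟨fun z => if h : ∃ b ∈ B', ∃ y ∈ F, z = b • y then χ h.choose else 1, ?_, ?_⟩
  · rw [continuousOn_iff_isClosed]
    intro t ht
    refine ⟨(fun p : B × Y => p.1 • p.2) '' (((B' : Set B) ∩ χ ⁻¹' t) ×ˢ F), ?_, ?_⟩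
    · apply IsCompact.isClosed
      apply IsCompact.image _ continuous_smul
      exact ((hB'.inter (ht.preimage hχ)).isCompact).prod hF.isCompact
    · ext z
      constructor
      · rintro ⟨hz1, hz2⟩
        have hz3 : ∃ b ∈ B', ∃ y ∈ F, z = b • y := hz2
        simp only [Set.mem_preimage] at hz1
        rw [dif_pos hz3] at hz1
        refine ⟨?_, hz2⟩
        obtain ⟨h1, y, hy, h2⟩ := hz3.choose_spec
        exact ⟨(hz3.choose, y), ⟨⟨h1, hz1⟩, hy⟩, h2.symm⟩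
      · rintro ⟨⟨⟨b, y⟩, ⟨⟨hb, hbt⟩, hy⟩, rfl⟩, hz2⟩
        refine ⟨?_, hz2⟩
        have hz3 : ∃ b' ∈ B', ∃ y' ∈ F, b • y = b' • y' := hz2
        simp only [Set.mem_preimage]
        rw [dif_pos hz3]
        obtain ⟨h1, y', hy', h2⟩ := hz3.choose_spec
        rw [← hwd b hb y hy _ h1 y' hy' h2]
        exact hbt
  · intro b hb y hy
    have hz3 : ∃ b' ∈ B', ∃ y' ∈ F, b • y = b' • y' := ⟨b, hb, y, hy, rfl⟩
    simp only
    rw [dif_pos hz3]
    obtain ⟨h1, y', hy', h2⟩ := hz3.choose_spec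
    exact (hwd b hb y hy _ h1 y' hy' h2).symm

theorem ext_lemma {Y : Type} [TopologicalSpace Y] [CompactSpace Y] [T2Space Y]
    {H : Type} [Group H] [TopologicalSpace H] [IsTopologicalGroup H] [MulAction H Y]
    [ContinuousSMul H Y]
    {B : Type} [CommGroup B] [TopologicalSpace B] [IsTopologicalGroup B] [CompactSpace B] [T2Space B]
    [MulAction B Y] [ContinuousSMul B Y]
    (ν : H → B → B) (hν : ∀ (p : H) (b : B) (y : Y), p • b • y = ν p b • p • y)
    (B' B'' : Subgroup B) (hB' : IsClosed (B' : Set B)) (hB'' : IsClosed (B'' : Set B))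
    (hle : B'' ≤ B') (hν' : ∀ p, ∀ b ∈ B', ν p b * b⁻¹ ∈ B'')
    (S : Subgroup H) (hS : ∀ x ∈ S, ∀ y ∈ S, x * y = y * x)
    (hgen : ∀ W ∈ 𝓝 (1 : H), Subgroup.closure ((S : Set H) ∪ W) = ⊤)
    (hnil : ∃ R, LC H R = ⊥)
    (F : Set Y) (hF : IsClosed F) (hne : F.Nonempty) (hinv : ∀ t ∈ S, ∀ y ∈ F, t • y ∈ F)
    (hmin : ∀ y ∈ F, F ⊆ closure {z | ∃ t ∈ S, z = t • y})
    (hBF : ∀ p : H, ∀ b ∈ B', ∀ y ∈ F, ∃ b₁ ∈ B', ∃ y₁ ∈ F, p • b • y = b₁ • y₁)
    (hchar : ∀ (φ : H →* Circle) (f : Y → Circle),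
      ContinuousOn f {z | ∃ b ∈ B', ∃ y ∈ F, z = b • y} → (∀ y ∈ F, f y = 1) →
      (∀ p : H, ∀ b ∈ B', ∀ y ∈ F, f (p • b • y) = φ p * f (b • y)) → φ = 1) :
    ∀ p : H, ∀ b ∈ B'', ∀ y ∈ F, ∃ b₁ ∈ B'', ∃ y₁ ∈ F, p • b • y = b₁ • y₁ := by
  classical
  set E1 : Set Y := {z | ∃ b ∈ B', ∃ y ∈ F, z = b • y} with hE1
  set E2 : Set Y := {z | ∃ b ∈ B'', ∃ y ∈ F, z = b • y} with hE2
  have hcl : ∀ K : Subgroup B, IsClosed (K : Set B) →
      IsCompact {z : Y | ∃ b ∈ K, ∃ y ∈ F, z = b • y} := by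
    intro K hK
    have : {z : Y | ∃ b ∈ K, ∃ y ∈ F, z = b • y} =
        (fun p : B × Y => p.1 • p.2) '' ((K : Set B) ×ˢ F) := by
      ext z
      constructor
      · rintro ⟨b, hb, y, hy, rfl⟩
        exact ⟨(b, y), ⟨hb, hy⟩, rfl⟩
      · rintro ⟨⟨b, y⟩, ⟨hb, hy⟩, rfl⟩
        exact ⟨b, hb, y, hy, rfl⟩
    rw [this]
    exact (hK.isCompact.prod hF.isCompact).image continuous_smul
  have hE1c : IsCompact E1 := hcl B' hB'
  have hE2c : IsCompact E2 := hcl B'' hB''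
  have hFE2 : F ⊆ E2 := fun y hy => ⟨1, one_mem _, y, hy, (one_smul _ _).symm⟩
  have hFE1 : F ⊆ E1 := fun y hy => ⟨1, one_mem _, y, hy, (one_smul _ _).symm⟩
  have hpE1 : ∀ p : H, ∀ z ∈ E1, p • z ∈ E1 := by
    rintro p z ⟨b, hb, y, hy, rfl⟩
    obtain ⟨b₁, hb₁, y₁, hy₁, h⟩ := hBF p b hb y hy
    exact ⟨b₁, hb₁, y₁, hy₁, h⟩
  have hνmem : ∀ p : H, ∀ b ∈ B', ∃ c ∈ B'', ν p b = c * b := by
    intro p b hb
    exact ⟨ν p b * b⁻¹, hν' p b hb, by rw [inv_mul_cancel_right]⟩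
  -- step 1
  have h1 : ∀ b ∈ B', ∀ y₀ ∈ F, b • y₀ ∈ E2 → ∀ y ∈ F, b • y ∈ E2 := by
    intro b hb y₀ hy₀ hb₀
    have hRc : IsClosed {y : Y | b • y ∈ E2} :=
      hE2c.isClosed.preimage (continuous_const_smul b)
    have hRS : {z | ∃ t ∈ S, z = t • y₀} ⊆ {y : Y | b • y ∈ E2} := by
      rintro z ⟨t, ht, rfl⟩
      obtain ⟨b₂, hb₂, y₂, hy₂, h⟩ := hb₀
      obtain ⟨c, hc, hc'⟩ := hνmem t b hb
      obtain ⟨d, hd, hd'⟩ := hνmem t b₂ (hle hb₂)
      have e1 : t • b • y₀ = (c * b) • t • y₀ := by rw [hν, hc']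
      have e2 : t • b • y₀ = (d * b₂) • t • y₂ := by rw [h, hν, hd']
      have e3 : b • t • y₀ = (c⁻¹ * (d * b₂)) • t • y₂ := by
        rw [mul_smul c⁻¹, ← e2, e1, mul_smul c, inv_smul_smul]
      exact ⟨c⁻¹ * (d * b₂), mul_mem (inv_mem hc) (mul_mem hd hb₂), t • y₂, hinv t ht y₂ hy₂, e3⟩
    intro y hy
    exact closure_minimal hRS hRc (hmin y₀ hy₀ hy)
  -- step 2
  obtain ⟨y₀, hy₀⟩ := hne
  let K : Subgroup B :=
    { carrier := {b | b ∈ B' ∧ ∀ y ∈ F, b • y ∈ E2}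
      one_mem' := ⟨one_mem _, fun y hy => by rw [one_smul]; exact hFE2 hy⟩
      mul_mem' := by
        rintro b c ⟨hb, hb'⟩ ⟨hc, hc'⟩
        refine ⟨mul_mem hb hc, fun y hy => ?_⟩
        obtain ⟨b₂, hb₂, y₂, hy₂, h⟩ := hc' y hy
        obtain ⟨b₃, hb₃, y₃, hy₃, h'⟩ := hb' y₂ hy₂
        refine ⟨b₂ * b₃, mul_mem hb₂ hb₃, y₃, hy₃, ?_⟩
        rw [mul_smul, h, ← mul_smul, mul_comm b b₂, mul_smul, h', mul_smul]
      inv_mem' := by
        rintro b ⟨hb, hb'⟩
        refine ⟨inv_mem hb, ?_⟩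
        obtain ⟨b₂, hb₂, y₂, hy₂, h⟩ := hb' y₀ hy₀
        refine h1 b⁻¹ (inv_mem hb) y₂ hy₂ ⟨b₂⁻¹, inv_mem hb₂, y₀, hy₀, ?_⟩
        have : y₂ = b₂⁻¹ • b • y₀ := by rw [h, inv_smul_smul]
        rw [this, ← mul_smul b₂⁻¹ b, mul_comm b₂⁻¹ b, mul_smul, inv_smul_smul] }
  have hKmem : ∀ b, b ∈ K ↔ b ∈ B' ∧ ∀ y ∈ F, b • y ∈ E2 := fun b => Iff.rfl
  have hKc : IsClosed (K : Set B) := by
    have : (K : Set B) = (B' : Set B) ∩ ⋂ y ∈ F, {b : B | b • y ∈ E2} := by
      ext b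
      simp only [Set.mem_inter_iff, Set.mem_iInter, SetLike.mem_coe, Set.mem_ofPred_eq]
      exact hKmem b
    rw [this]
    refine hB'.inter (isClosed_biInter fun y _ => ?_)
    exact hE2c.isClosed.preimage (by fun_prop : Continuous fun b : B => b • y)
  have hB''K : B'' ≤ K := fun b hb => ⟨hle hb, fun y hy => ⟨b, hb, y, hy, rfl⟩⟩
  have hKeq : ∀ b ∈ B', ∀ y ∈ F, ∀ b' ∈ B', ∀ y' ∈ F, b • y = b' • y' → b'⁻¹ * b ∈ K := by
    intro b hb y hy b' hb' y' hy' h
    have hm : b'⁻¹ * b ∈ B' := mul_mem (inv_mem hb') hb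
    refine ⟨hm, h1 _ hm y hy ?_⟩
    rw [mul_smul, h, inv_smul_smul]
    exact hFE2 hy'
  -- main claim
  have main : ∀ χ : B →* Circle, Continuous χ → (∀ b ∈ K, χ b = 1) →
      ∀ p : H, ∀ b ∈ B'', ∀ y ∈ F, ∀ b₁ ∈ B', ∀ y₁ ∈ F, p • b • y = b₁ • y₁ → χ b₁ = 1 := by
    intro χ hχ hχK
    have hwd : ∀ b ∈ B', ∀ y ∈ F, ∀ b' ∈ B', ∀ y' ∈ F, b • y = b' • y' → χ b = χ b' := by
      intro b hb y hy b' hb' y' hy' h
      have := hχK _ (hKeq b hb y hy b' hb' y' hy' h)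
      rw [map_mul, map_inv, inv_mul_eq_one] at this
      exact this.symm
    obtain ⟨f, hfc, hf⟩ := fchi B' hB' F hF χ hχ hwd
    have hfF : ∀ y ∈ F, f y = 1 := by
      intro y hy
      have := hf 1 (one_mem _) y hy
      rwa [one_smul, map_one] at this
    have hfb : ∀ b ∈ B', ∀ z ∈ E1, f (b • z) = χ b * f z := by
      rintro b hb z ⟨b₁, hb₁, y, hy, rfl⟩
      rw [← mul_smul, hf _ (mul_mem hb hb₁) y hy, hf _ hb₁ y hy, map_mul]
    have hχν : ∀ p : H, ∀ b ∈ B', χ (ν p b) = χ b := by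
      intro p b hb
      obtain ⟨c, hc, hc'⟩ := hνmem p b hb
      rw [hc', map_mul, hχK c (hB''K hc), one_mul]
    have hνB' : ∀ p : H, ∀ b ∈ B', ν p b ∈ B' := by
      intro p b hb
      obtain ⟨c, hc, hc'⟩ := hνmem p b hb
      rw [hc']
      exact mul_mem (hle hc) hb
    have hfS : ∀ t ∈ S, ∀ z ∈ E1, f (t • z) = f z := by
      rintro t ht z ⟨b, hb, y, hy, rfl⟩
      rw [hν, hf _ (hνB' t b hb) _ (hinv t ht y hy), hf _ hb y hy, hχν t b hb]
    have hfp : ∀ p : H, ∀ b ∈ B', ∀ z ∈ E1, f (p • b • z) = χ b * f (p • z) := by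
      intro p b hb z hz
      rw [hν, hfb _ (hνB' p b hb) _ (hpE1 p z hz), hχν p b hb]
    let C : Subgroup H :=
      { carrier := {p | ∃ c : Circle, ∀ z ∈ E1, f (p • z) = c * f z}
        one_mem' := ⟨1, fun z _ => by rw [one_smul, one_mul]⟩
        mul_mem' := by
          rintro p p' ⟨c, hc⟩ ⟨c', hc'⟩
          refine ⟨c * c', fun z hz => ?_⟩
          rw [mul_smul, hc _ (hpE1 p' z hz), hc' z hz, mul_assoc]
        inv_mem' := by
          rintro p ⟨c, hc⟩
          refine ⟨c⁻¹, fun z hz => ?_⟩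
          have := hc _ (hpE1 p⁻¹ z hz)
          rw [smul_inv_smul] at this
          rw [this, inv_mul_cancel_left] }
    have hCmem : ∀ p, p ∈ C ↔ ∃ c : Circle, ∀ z ∈ E1, f (p • z) = c * f z := fun p => Iff.rfl
    have hSC : S ≤ C := fun t ht => ⟨1, fun z hz => by rw [hfS t ht z hz, one_mul]⟩
    -- the neighbourhood
    obtain ⟨W, hW, hWn⟩ : ∃ W ∈ 𝓝 (1 : H), ∀ p ∈ W, ∀ z ∈ E1,
        ‖((f (p • z) * (f z)⁻¹ : Circle) : ℂ) - 1‖ < 1 / 2 := by
      have hG : ContinuousOn (fun w : H × Y => ‖((f (w.1 • w.2) * (f w.2)⁻¹ : Circle) : ℂ) - 1‖)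
          (Set.univ ×ˢ E1) := by
        have hm1 : ContinuousOn (fun w : H × Y => f (w.1 • w.2)) (Set.univ ×ˢ E1) := by
          refine hfc.comp (continuous_smul.continuousOn) ?_
          rintro ⟨p, z⟩ ⟨_, hz⟩
          exact hpE1 p z hz
        have hm2 : ContinuousOn (fun w : H × Y => f w.2) (Set.univ ×ˢ E1) := by
          refine hfc.comp (continuous_snd.continuousOn) ?_
          rintro ⟨p, z⟩ ⟨_, hz⟩
          exact hz
        have hm3 : ContinuousOn (fun w : H × Y => ((f (w.1 • w.2) * (f w.2)⁻¹ : Circle) : ℂ))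
            (Set.univ ×ˢ E1) :=
          (continuous_subtype_val : Continuous (fun x : Circle => (x : ℂ))).comp_continuousOn (hm1.mul hm2.inv)
        exact (hm3.sub continuousOn_const).norm
      have hev : ∀ᶠ p in 𝓝 (1 : H), ∀ z ∈ E1,
          (z ∈ E1 → ‖((f (p • z) * (f z)⁻¹ : Circle) : ℂ) - 1‖ < 1 / 2) := by
        refine hE1c.eventually_forall_of_forall_eventually (fun z hz => ?_)
        have hc := hG (1, z) ⟨Set.mem_univ _, hz⟩
        have h0 : ‖((f ((1 : H) • z) * (f z)⁻¹ : Circle) : ℂ) - 1‖ < 1 / 2 := by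
          rw [one_smul, mul_inv_cancel, Circle.coe_one, sub_self, norm_zero]; norm_num
        have h2 : ∀ᶠ w in 𝓝[Set.univ ×ˢ E1] ((1 : H), z),
            ‖((f (w.1 • w.2) * (f w.2)⁻¹ : Circle) : ℂ) - 1‖ < 1 / 2 :=
          hc.eventually (gt_mem_nhds h0)
        rw [eventually_nhdsWithin_iff] at h2
        filter_upwards [h2] with w hw hw2
        exact hw ⟨Set.mem_univ _, hw2⟩
      exact ⟨_, hev, fun p hp z hz => hp z hz hz⟩
    -- the key step
    have hkey : ∀ r, LC H (r + 1) ≤ C → ∀ p ∈ W, p ∈ LC H r → p ∈ C := by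
      intro r hr p hpW hpr
      have hconst : ∀ t ∈ S, ∀ z ∈ E1, f (p • t • z) * (f (t • z))⁻¹ = f (p • z) * (f z)⁻¹ := by
        intro t ht z hz
        have hcm : ⁅t⁻¹, p⁆ ∈ LC H (r + 1) := Pool.Agent.V11106.comm_mem hpr _
        obtain ⟨c, hc⟩ := (hCmem _).1 (hr hcm)
        have hstep : ∀ z ∈ E1, f (p • t • z) * (f (t • z))⁻¹ = c * (f (p • z) * (f z)⁻¹) := by
          intro z hz
          have e : p • t • z = t • ⁅t⁻¹, p⁆ • p • z := by
            simp only [← mul_smul, commutatorElement_def]; congr 1; group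
          rw [e, hfS t ht _ (hpE1 _ _ (hpE1 _ _ hz)), hc _ (hpE1 _ _ hz), hfS t ht z hz, mul_assoc]
        have hpow : ∀ n : ℕ, ∀ z ∈ E1, f (p • (t ^ n) • z) * (f ((t ^ n) • z))⁻¹ =
            c ^ n * (f (p • z) * (f z)⁻¹) := by
          intro n
          induction n with
          | zero => intro z _; rw [pow_zero, one_smul, pow_zero, one_mul]
          | succ n ih =>
            intro z hz
            have e : (t ^ (n + 1)) • z = t • (t ^ n) • z := by rw [← mul_smul, ← pow_succ']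
            rw [e, hstep _ (hpE1 _ z hz), ih z hz, pow_succ', mul_assoc]
        have hc1 : c = 1 := by
          refine circle_one c (f (p • z) * (f z)⁻¹) (fun n => ?_)
          rw [← hpow n z hz]
          exact hWn p hpW _ (hpE1 _ z hz)
        rw [hstep z hz, hc1, one_mul]
      -- constant on `F`
      have hFc : ∀ y ∈ F, f (p • y) = f (p • y₀) := by
        have hcont : ContinuousOn (fun y => f (p • y)) F := by
          refine hfc.comp ((continuous_const_smul p).continuousOn) ?_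
          intro y hy
          exact hpE1 p y (hFE1 hy)
        have hclo : IsClosed (F ∩ (fun y => f (p • y)) ⁻¹' {f (p • y₀)}) :=
          hcont.preimage_isClosed_of_isClosed hF isClosed_singleton
        have hsub : {z | ∃ t ∈ S, z = t • y₀} ⊆ F ∩ (fun y => f (p • y)) ⁻¹' {f (p • y₀)} := by
          rintro z ⟨t, ht, rfl⟩
          refine ⟨hinv t ht y₀ hy₀, ?_⟩
          have := hconst t ht y₀ (hFE1 hy₀)
          rw [hfF _ (hinv t ht y₀ hy₀), hfF _ hy₀, inv_one, mul_one, mul_one] at this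
          exact this
        intro y hy
        exact (closure_minimal hsub hclo (hmin y₀ hy₀ hy)).2
      refine (hCmem p).2 ⟨f (p • y₀), ?_⟩
      rintro z ⟨b, hb, y, hy, rfl⟩
      rw [hfp p b hb y (hFE1 hy), hFc y hy, hf b hb y hy, mul_comm]
    -- induction down the lower central series
    have hall : ∀ p : H, p ∈ C := by
      obtain ⟨R, hR⟩ := hnil
      have hdown : ∀ j r, r + j = R → LC H r ≤ C := by
        intro j
        induction j with
        | zero =>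
          intro r hr
          rw [add_zero] at hr
          rw [hr, hR]
          exact bot_le
        | succ j ih =>
          intro r hr
          have h2 := ih (r + 1) (by omega)
          rcases r with _ | r
          · intro x _
            have hx : x ∈ Subgroup.closure ((S : Set H) ∪ W) := by
              rw [hgen W hW]; exact Subgroup.mem_top x
            refine (Subgroup.closure_le _).2 ?_ hx
            rintro y (hy | hy)
            · exact hSC hy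
            · exact hkey 0 h2 y hy (Subgroup.mem_top y)
          · refine (gen_LC S hS hgen W hW r).trans ?_
            refine sup_le ?_ h2
            rw [Subgroup.closure_le]
            rintro y ⟨hy, hy'⟩
            exact hkey (r + 1) h2 y hy hy'
      intro p
      exact hdown R 0 (by omega) (Subgroup.mem_top p)
    -- the homomorphism
    have hφ : ∀ p : H, ∀ z ∈ E1, f (p • z) = f (p • y₀) * f z := by
      intro p z hz
      obtain ⟨c, hc⟩ := (hCmem p).1 (hall p)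
      have h3 := hc y₀ (hFE1 hy₀)
      rw [hfF y₀ hy₀, mul_one] at h3
      rw [h3, hc z hz]
    let φ : H →* Circle :=
      { toFun := fun p => f (p • y₀)
        map_one' := by rw [one_smul]; exact hfF y₀ hy₀
        map_mul' := fun p p' => by
          rw [mul_smul, hφ p _ (hpE1 p' _ (hFE1 hy₀))] }
    have hφ1 : φ = 1 := hchar φ f hfc hfF (fun p b hb y hy => hφ p _ ⟨b, hb, y, hy, rfl⟩)
    intro p b hb y hy b₁ hb₁ y₁ hy₁ h
    have h3 := hφ p (b • y) ⟨b, hle hb, y, hy, rfl⟩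
    have h4 : f (p • y₀) = 1 := DFunLike.congr_fun hφ1 p
    rw [h4, one_mul, h, hf b₁ hb₁ y₁ hy₁, hf b (hle hb) y hy, hχK b (hB''K hb)] at h3
    exact h3
  intro p b hb y hy
  obtain ⟨b₁, hb₁, y₁, hy₁, h⟩ := hBF p b (hle hb) y hy
  have hmemK : b₁ ∈ K := by
    by_contra hcon
    have : IsClosed (K : Set B) := hKc
    have hne1 : (QuotientGroup.mk' K b₁ : B ⧸ K) ≠ 1 := by
      intro h0
      exact hcon ((QuotientGroup.eq_one_iff b₁).1 h0)
    obtain ⟨χ, hχ⟩ := Pool.LatH472.chars (K := B ⧸ K) (QuotientGroup.mk' K b₁) hne1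
    apply hχ
    have := main (χ.toMonoidHom.comp (QuotientGroup.mk' K))
      (χ.continuous_toFun.comp QuotientGroup.continuous_mk)
      (fun k hk => by
        have : (QuotientGroup.mk' K k : B ⧸ K) = 1 := (QuotientGroup.eq_one_iff k).2 hk
        rw [MonoidHom.comp_apply, this, map_one])
      p b hb y hy b₁ hb₁ y₁ hy₁ h
    exact this
  obtain ⟨b₂, hb₂, y₂, hy₂, h'⟩ := hmemK.2 y₁ hy₁
  exact ⟨b₂, hb₂, y₂, hy₂, h.trans h'⟩

end Pool.Agent.T6.H51.NS
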