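import Pool.Agent.T6.H51.NS.Defs

set_option autoImplicit false

namespace Pool.Agent.T6.H51.NS

open Filter Topology
open scoped commutatorElement

section grp
variable {G : Type} [Group G] [TopologicalSpace G] [IsTopologicalGroup G]

/-- The compact abelian group acting on `G ⧸ C'` along a central section `L`. -/
theorem exists_B (L C' : Subgroup G)
    (hLC : ∀ z ∈ L, ∀ g h : G, h⁻¹ * ⁅z, g⁆ * h ∈ C') (hC' : IsClosed (C' : Set G))
    (K : Set G) (hK : IsCompact K) (hKL : ∀ x ∈ K, x ∈ L)
    (hKc : ∀ g ∈ L, ∃ x ∈ K, ∃ γ ∈ C', g = x * γ) :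
    ∃ (B : Type) (_ : CommGroup B) (_ : TopologicalSpace B) (_ : IsTopologicalGroup B)
      (_ : CompactSpace B) (_ : T2Space B) (_ : MulAction B (G ⧸ C'))
      (_ : ContinuousSMul B (G ⧸ C')) (ψ : L →* B),
      (∀ z : L, (z : G) ∈ C' → ψ z = 1) ∧ (∀ (z : L) (x : G ⧸ C'), ψ z • x = (z : G) • x) ∧
      (∀ (b : B) (x : G ⧸ C'), b • x = x → b = 1) ∧
      (∀ (g : G) (b : B) (x : G ⧸ C'), g • b • x = b • g • x) ∧ Function.Surjective ψ := by
  have hn : (C'.subgroupOf L).Normal := by
    constructor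
    intro n hn g
    rw [Subgroup.mem_subgroupOf] at hn ⊢
    have h1 := hLC g.1 g.2 n.1 1
    have h2 : ((g * n * g⁻¹ : L) : G) = (1⁻¹ * ⁅(g : G), (n : G)⁆ * 1) * (n : G) := by
      simp [commutatorElement_def]
    rw [h2]
    exact C'.mul_mem h1 hn
  let B : Type := L ⧸ C'.subgroupOf L
  let instG : Group B := QuotientGroup.Quotient.group _
  let instC : CommGroup B :=
    { instG with
      mul_comm := by
        intro x y
        induction x using QuotientGroup.induction_on with
        | H x =>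
        induction y using QuotientGroup.induction_on with
        | H y =>
        change ((x * y : L) : B) = ((y * x : L) : B)
        rw [QuotientGroup.eq, Subgroup.mem_subgroupOf]
        have h1 := hLC (y : G)⁻¹ (L.inv_mem y.2) (x : G)⁻¹ 1
        have h2 : (((x * y)⁻¹ * (y * x) : L) : G) = 1⁻¹ * ⁅(y : G)⁻¹, (x : G)⁻¹⁆ * 1 := by
          simp [commutatorElement_def, mul_assoc]
        rw [h2]
        exact h1 }
  have htriv : ∀ z ∈ L, z ∈ C' → ∀ x : G ⧸ C', z • x = x := by
    intro z hz hzC x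
    induction x using QuotientGroup.induction_on with
    | H g =>
    change ((z * g : G) : G ⧸ C') = (g : G ⧸ C')
    rw [eq_comm, QuotientGroup.eq]
    have h1 := hLC z⁻¹ (L.inv_mem hz) g⁻¹ 1
    have h2 : g⁻¹ * (z * g) = z * (1⁻¹ * ⁅z⁻¹, g⁻¹⁆ * 1) := by
      simp [commutatorElement_def, mul_assoc]
    rw [h2]
    exact C'.mul_mem hzC h1
  let τ : L →* Equiv.Perm (G ⧸ C') := (MulAction.toPermHom G (G ⧸ C')).comp L.subtype
  have hτ : ∀ z : L, z ∈ C'.subgroupOf L → τ z = 1 := by
    intro z hz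
    ext x
    exact htriv z.1 z.2 hz x
  let τB : B →* Equiv.Perm (G ⧸ C') := QuotientGroup.lift _ τ hτ
  let instA : MulAction B (G ⧸ C') := MulAction.compHom _ τB
  have hsm : ∀ (z : L) (x : G ⧸ C'), ((z : L ⧸ C'.subgroupOf L) : B) • x = (z : G) • x := by
    intro z x
    rfl
  have hclo : IsClosed ((C'.subgroupOf L : Subgroup L) : Set L) := by
    have : ((C'.subgroupOf L : Subgroup L) : Set L) = (Subtype.val : L → G) ⁻¹' (C' : Set G) := by
      ext x; rfl
    rw [this]
    exact hC'.preimage continuous_subtype_val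
  have hT2 : T2Space B := QuotientGroup.instT2Space (H := C'.subgroupOf L)
  have hTG : IsTopologicalGroup B := inferInstanceAs (IsTopologicalGroup (L ⧸ C'.subgroupOf L))
  have hcomp : CompactSpace B := by
    have hK' : IsCompact ((Subtype.val : L → G) ⁻¹' K) := by
      rw [Subtype.isCompact_iff]
      convert hK
      ext x
      exact ⟨fun ⟨y, hy, hyx⟩ => hyx ▸ hy, fun h => ⟨⟨x, hKL x h⟩, h, rfl⟩⟩
    have h2 := hK'.image (f := fun z : L => ((z : L ⧸ C'.subgroupOf L) : B))
      (QuotientGroup.continuous_mk)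
    constructor
    convert h2
    symm
    rw [Set.eq_univ_iff_forall]
    intro b
    induction b using QuotientGroup.induction_on with
    | H g =>
    obtain ⟨x, hx, γ, hγ, hg⟩ := hKc g.1 g.2
    refine ⟨⟨x, hKL x hx⟩, hx, ?_⟩
    change ((⟨x, hKL x hx⟩ : L) : L ⧸ C'.subgroupOf L) = (g : L ⧸ C'.subgroupOf L)
    rw [QuotientGroup.eq, Subgroup.mem_subgroupOf]
    have : (((⟨x, hKL x hx⟩ : L)⁻¹ * g : L) : G) = γ := by
      change x⁻¹ * (g : G) = γ
      rw [hg]; group
    rw [this]
    exact hγ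
  have hcs : ContinuousSMul B (G ⧸ C') := by
    constructor
    have hq : IsOpenQuotientMap (fun p : L × G => (((p.1 : L ⧸ C'.subgroupOf L) : B),
        (p.2 : G ⧸ C'))) :=
      (QuotientGroup.isOpenQuotientMap_mk (N := C'.subgroupOf L)).prodMap
        (QuotientGroup.isOpenQuotientMap_mk (N := C'))
    rw [hq.isQuotientMap.continuous_iff]
    change Continuous (fun p : L × G => (((p.1 : G) * p.2 : G) : G ⧸ C'))
    exact QuotientGroup.continuous_mk.comp
      ((continuous_subtype_val.comp continuous_fst).mul continuous_snd)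
  refine ⟨B, instC, inferInstance, hTG, hcomp, hT2, instA, hcs, QuotientGroup.mk' _, ?_, ?_, ?_, ?_,
    ?_⟩
  · intro z hz
    exact (QuotientGroup.eq_one_iff z).2 hz
  · intro z x
    exact hsm z x
  · intro b x
    induction b using QuotientGroup.induction_on with
    | H z =>
    induction x using QuotientGroup.induction_on with
    | H g =>
    intro h
    have h1 : (((z : G) * g : G) : G ⧸ C') = (g : G ⧸ C') := h
    rw [eq_comm, QuotientGroup.eq] at h1
    have h2 : (z : G) ∈ C' := by
      have h3 := hLC (z : G)⁻¹ (L.inv_mem z.2) g⁻¹ 1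
      have h4 : (z : G) = (g⁻¹ * ((z : G) * g)) * (1⁻¹ * ⁅(z : G)⁻¹, g⁻¹⁆ * 1)⁻¹ := by
        simp [commutatorElement_def, mul_assoc]
      rw [h4]
      exact C'.mul_mem h1 (C'.inv_mem h3)
    exact (QuotientGroup.eq_one_iff z).2 h2
  · intro g b x
    induction b using QuotientGroup.induction_on with
    | H z =>
    induction x using QuotientGroup.induction_on with
    | H h =>
    change ((g * ((z : G) * h) : G) : G ⧸ C') = (((z : G) * (g * h) : G) : G ⧸ C')
    rw [QuotientGroup.eq]
    have h3 := hLC (z : G)⁻¹ (L.inv_mem z.2) g⁻¹ h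
    have h4 : (g * ((z : G) * h))⁻¹ * ((z : G) * (g * h)) =
        (h⁻¹ * ⁅(z : G)⁻¹, g⁻¹⁆ * h) := by
      simp only [commutatorElement_def, mul_inv_rev, mul_assoc, inv_inv]
    rw [h4]
    exact h3
  · exact QuotientGroup.mk'_surjective _

end grp

end Pool.Agent.T6.H51.NS
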