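import Pool.Agent.T6.H51.NS.Defs

/-!
# Module Top of the nilsystem project: topology of `Sg D G` and generation by small elements
-/

set_option autoImplicit false

namespace Pool.Agent.T6.H51.NS

open Filter Topology
open scoped commutatorElement

section top
variable {G : Type} [Group G] [TopologicalSpace G] {D : ℕ}

private theorem cont_pair : Continuous (fun x : Sg D G => (x.left, x.right)) :=
  continuous_induced_dom

private theorem cont_left : Continuous (fun x : Sg D G => x.left) :=
  continuous_fst.comp cont_pair

private theorem cont_right : Continuous (fun x : Sg D G => x.right) :=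
  continuous_snd.comp cont_pair

private theorem cont_left_apply (q : A D) : Continuous (fun x : Sg D G => x.left q) :=
  (continuous_apply q).comp cont_left

private theorem cont_eval {X : Type*} [TopologicalSpace X] (F : ℤ → A D) :
    Continuous (fun x : (A D → X) × Multiplicative ℤ => x.1 (F x.2.toAdd)) := by
  rw [continuous_prod_of_discrete_right]
  intro n
  exact continuous_apply (F n.toAdd)

private theorem cont_eval' {Z X : Type*} [TopologicalSpace Z] [TopologicalSpace X]
    (F : ℤ → A D) {f : Z → A D → X} {g : Z → Multiplicative ℤ} (hf : Continuous f)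
    (hg : Continuous g) : Continuous (fun z => f z (F (g z).toAdd)) :=
  (cont_eval F).comp (hf.prodMk hg)

end top

instance instTopGroupSg {G : Type} [Group G] [TopologicalSpace G] [IsTopologicalGroup G] (D : ℕ) :
    IsTopologicalGroup (Sg D G) where
  continuous_mul := by
    refine continuous_induced_rng.2 ?_
    refine Continuous.prodMk ?_ ?_
    · refine continuous_pi fun q => ?_
      change Continuous fun x : Sg D G × Sg D G => x.1.left q * x.2.left (U x.1.right.toAdd q)
      refine ((cont_left_apply q).comp continuous_fst).mul ?_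
      exact cont_eval' (fun n => U n q) (cont_left.comp continuous_snd)
        (cont_right.comp continuous_fst)
    · change Continuous fun x : Sg D G × Sg D G => x.1.right * x.2.right
      exact (cont_right.comp continuous_fst).mul (cont_right.comp continuous_snd)
  continuous_inv := by
    refine continuous_induced_rng.2 ?_
    refine Continuous.prodMk ?_ ?_
    · refine continuous_pi fun q => ?_
      change Continuous fun x : Sg D G => (x.left (U (x.right⁻¹).toAdd q))⁻¹
      refine Continuous.inv ?_
      exact cont_eval' (fun n => U (-n) q) cont_left cont_right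
    · change Continuous fun x : Sg D G => (x.right)⁻¹
      exact cont_right.inv

instance instContSMulSg {G : Type} [Group G] [TopologicalSpace G] [IsTopologicalGroup G] (D : ℕ)
    {X : Type} [TopologicalSpace X] [MulAction G X] [ContinuousSMul G X] :
    ContinuousSMul (Sg D G) (A D → X) where
  continuous_smul := by
    refine continuous_pi fun q => ?_
    change Continuous fun x : Sg D G × (A D → X) => x.1.left q • x.2 (U x.1.right.toAdd q)
    refine ((cont_left_apply q).comp continuous_fst).smul ?_
    exact cont_eval' (fun n => U n q) continuous_snd (cont_right.comp continuous_fst)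

section small
variable {G : Type} [Group G] {D : ℕ}

private theorem Tg_mul (b b' : G) : Tg D (b * b') = Tg D b * Tg D b' := by
  refine SemidirectProduct.ext ?_ ?_
  · funext q
    rfl
  · change (1 : Multiplicative ℤ) = 1 * 1
    rw [one_mul]

private theorem Tg_mem (N : Subgroup G) (a b : G) : Tg D b ∈ GG D N a :=
  Subgroup.subset_closure (Or.inr ⟨b, rfl⟩)

private theorem sg_mem' (N : Subgroup G) (a : G) (v : N) : sg D ((v : G) * a) ∈ GG D N a :=
  Subgroup.subset_closure (Or.inl ⟨v, v.2, rfl⟩)

private noncomputable def THom (D : ℕ) (N : Subgroup G) (a : G) : G →* GG D N a :=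
  MonoidHom.mk' (fun b => ⟨Tg D b, Tg_mem N a b⟩) (fun b b' => Subtype.ext (Tg_mul b b'))

variable [TopologicalSpace G]

private theorem cont_Tg : Continuous (fun b : G => Tg D b) := by
  refine continuous_induced_rng.2 ?_
  change Continuous fun b : G => ((fun _ : A D => b), (1 : Multiplicative ℤ))
  exact (continuous_pi fun _ => continuous_id).prodMk continuous_const

private theorem cont_sg [IsTopologicalGroup G] (D : ℕ) : Continuous (fun b : G => sg D b) := by
  refine continuous_induced_rng.2 ?_
  change Continuous fun b : G => ((fun q : A D => b ^ ev q 1), (Multiplicative.ofAdd (1 : ℤ)))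
  exact (continuous_pi fun q => continuous_zpow _).prodMk continuous_const

end small

theorem GG_small {G : Type} [Group G] [TopologicalSpace G] [IsTopologicalGroup G]
    {N : Subgroup G} {a : G} (hop : IsOpen (N : Set G)) (hcon : IsPreconnected (N : Set G))
    (hNa : ∀ g : G, ∃ v ∈ N, ∃ n : ℤ, g = v * a ^ n) (D : ℕ)
    (W : Set (GG D N a)) (hW : W ∈ 𝓝 (1 : GG D N a)) :
    Subgroup.closure ((((AA D a 1).subgroupOf (GG D N a) : Subgroup (GG D N a)) :
      Set (GG D N a)) ∪ W) = ⊤ := by
  set L : Subgroup (GG D N a) := Subgroup.closure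
    ((((AA D a 1).subgroupOf (GG D N a) : Subgroup (GG D N a)) : Set (GG D N a)) ∪ W) with hL
  have hWL : ∀ x ∈ W, x ∈ L := fun x hx => Subgroup.subset_closure (Or.inr hx)
  have hAL : ∀ x : GG D N a, (x : Sg D G) ∈ AA D a 1 → x ∈ L := fun x hx =>
    Subgroup.subset_closure (Or.inl (by
      rw [SetLike.mem_coe, Subgroup.mem_subgroupOf]
      exact hx))
  -- constants
  have hTcont : Continuous (THom D N a) := by
    refine Continuous.subtype_mk cont_Tg _
  have hTP : IsOpen ((L.comap (THom D N a) : Subgroup G) : Set G) := by
    refine Subgroup.isOpen_of_mem_nhds _ (g := 1) ?_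
    have h1 : (THom D N a) ⁻¹' W ∈ 𝓝 (1 : G) := by
      refine hTcont.continuousAt.preimage_mem_nhds ?_
      rw [map_one]
      exact hW
    exact Filter.mem_of_superset h1 fun x hx => hWL _ hx
  have hNP : (N : Set G) ⊆ ((L.comap (THom D N a) : Subgroup G) : Set G) := by
    refine hcon.subset_isClopen ⟨Subgroup.isClosed_of_isOpen _ hTP, hTP⟩ ⟨1, N.one_mem, ?_⟩
    exact (L.comap (THom D N a)).one_mem
  have hTa : a ∈ L.comap (THom D N a) := by
    rw [Subgroup.mem_comap]
    refine hAL _ ?_
    exact Subgroup.subset_closure (Or.inr rfl)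
  have hT : ∀ b : G, THom D N a b ∈ L := by
    intro b
    obtain ⟨v, hv, n, rfl⟩ := hNa b
    rw [← Subgroup.mem_comap]
    exact mul_mem (hNP hv) (zpow_mem hTa n)
  -- the elements `sg (v a)`
  have : PreconnectedSpace N := isPreconnected_iff_preconnectedSpace.1 hcon
  let S : N → GG D N a := fun v => ⟨sg D ((v : G) * a), sg_mem' N a v⟩
  have hScont : Continuous S := by
    refine Continuous.subtype_mk ?_ _
    exact (cont_sg D).comp (continuous_subtype_val.mul continuous_const)
  have hnear : ∀ v : N, ∀ᶠ v' in 𝓝 v, S v' * (S v)⁻¹ ∈ L := by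
    intro v
    have h1 : ContinuousAt (fun v' => S v' * (S v)⁻¹) v :=
      (hScont.mul continuous_const).continuousAt
    have h2 : (fun v' => S v' * (S v)⁻¹) ⁻¹' W ∈ 𝓝 v := by
      refine h1.preimage_mem_nhds ?_
      rw [mul_inv_cancel]
      exact hW
    exact Filter.mem_of_superset h2 fun x hx => hWL _ hx
  have hZ : {v : N | S v ∈ L} = Set.univ := by
    refine IsClopen.eq_univ ⟨?_, ?_⟩ ⟨1, ?_⟩
    · rw [← isOpen_compl_iff, isOpen_iff_mem_nhds]
      intro v hv
      filter_upwards [hnear v] with v' hv'
      intro h
      apply hv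
      have h3 := L.mul_mem (L.inv_mem hv') h
      rw [mul_inv_rev, inv_inv, inv_mul_cancel_right] at h3
      exact h3
    · rw [isOpen_iff_mem_nhds]
      intro v hv
      filter_upwards [hnear v] with v' hv'
      have h3 := L.mul_mem hv' hv
      rw [inv_mul_cancel_right] at h3
      exact h3
    · refine hAL _ ?_
      change sg D (((1 : N) : G) * a) ∈ AA D a 1
      rw [OneMemClass.coe_one, one_mul]
      refine Subgroup.subset_closure (Or.inl ?_)
      rw [pow_one]
  have hle : Subgroup.closure ({x | ∃ v ∈ N, x = sg D (v * a)} ∪ {x | ∃ b : G, x = Tg D b}) ≤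
      L.map (GG D N a).subtype := by
    rw [Subgroup.closure_le]
    rintro x (⟨v, hv, rfl⟩ | ⟨b, rfl⟩)
    · have h := Set.mem_univ (⟨v, hv⟩ : N)
      rw [← hZ] at h
      exact ⟨S ⟨v, hv⟩, h, rfl⟩
    · exact ⟨THom D N a b, hT b, rfl⟩
  rw [eq_top_iff]
  intro y _
  obtain ⟨z, hz, hzy⟩ := hle y.2
  have h : z = y := Subtype.ext hzy
  rw [← h]
  exact hz

end Pool.Agent.T6.H51.NS
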