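import Pool.Agent.T6.H51.NS.MS
import Pool.Agent.T6.H51.NS.Ext
import Pool.Agent.T6.H51.NS.Top
import Pool.Agent.T6.H51.NS.Char

set_option autoImplicit false

namespace Pool.Agent.T6.H51.NS

open Filter Topology
open scoped commutatorElement Pointwise

section step
variable {G : Type} [Group G] {D : ℕ} [TopologicalSpace G] [IsTopologicalGroup G]

theorem Dist_step {Γ : Subgroup G} (hΓ : IsClosed (Γ : Set G))
    (hK : ∀ k, ∃ K : Set G, IsCompact K ∧ (∀ x ∈ K, x ∈ LC G k) ∧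
      ∀ g ∈ LC G k, ∃ x ∈ K, ∃ γ ∈ Γ, γ ∈ LC G k ∧ g = x * γ)
    (i : ℕ) (hD : Dist D (CC Γ i)) : Dist D (CC Γ (i + 1)) := by
  obtain ⟨K, hKc, hK1, hK2⟩ := hK i
  have hcl := CC_closed Γ hΓ (i + 1) hK
  obtain ⟨B, _, _, _, _, _, _, _, ψ, hψ1, hψ2, hfree, hcomm, -⟩ := exists_B (LC G i)
    (CC Γ (i + 1)) (comm_CC Γ i) hcl K hKc hK1 (by
      intro g hg
      obtain ⟨x, hx, γ, hγ, -, h⟩ := hK2 g hg
      exact ⟨x, hx, γ, Subgroup.mem_sup_right hγ, h⟩)
  obtain ⟨J, hJ⟩ := unip D (i + 1)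
  intro y hy y' hy' z l hl h1 h2
  have hc : Continuous (prj (D := D) (CC_le Γ i)) := prj_cont _
  have h3 : prj (CC_le Γ i) y = prj (CC_le Γ i) y' := by
    refine hD _ (prj_PP _ hy) _ (prj_PP _ hy') (prj (CC_le Γ i) z) l hl ?_ ?_
    · exact ((hc.tendsto z).comp h1).congr (fun h => prj_smul _ _ _)
    · exact ((hc.tendsto z).comp h2).congr (fun h => prj_smul _ _ _)
  obtain ⟨b, hb, rfl⟩ := PP_fibre Γ i ψ hψ1 hψ2 (hJ B) hy hy' h3
  have h4 : b = 1 := dist_core hcomm hfree hb hl h1 h2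
  rw [h4, one_smul]

theorem Dist_zero (Γ : Subgroup G) : Dist D (CC Γ 0) := by
  intro y _ y' _ z l _ _ _
  funext q
  generalize y q = u
  generalize y' q = v
  induction u using QuotientGroup.induction_on with
  | H u =>
  induction v using QuotientGroup.induction_on with
  | H v =>
  rw [QuotientGroup.eq]
  exact Subgroup.mem_sup_left (Subgroup.mem_top _)

theorem Dist_all {Γ : Subgroup G} (hΓ : IsClosed (Γ : Set G))
    (hK : ∀ k, ∃ K : Set G, IsCompact K ∧ (∀ x ∈ K, x ∈ LC G k) ∧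
      ∀ g ∈ LC G k, ∃ x ∈ K, ∃ γ ∈ Γ, γ ∈ LC G k ∧ g = x * γ) (i : ℕ) : Dist D (CC Γ i) := by
  induction i with
  | zero => exact Dist_zero Γ
  | succ i ih => exact Dist_step hΓ hK i ih

/-- invariance of the orbit closure -/
def Inv (D : ℕ) (N : Subgroup G) (a : G) (C : Subgroup G) : Prop :=
  ∀ p ∈ GG D N a, ∀ y ∈ FF D a 1 C, p • y ∈ FF D a 1 C

omit [IsTopologicalGroup G] in
theorem Inv_zero (N : Subgroup G) (a : G) (Γ : Subgroup G) : Inv D N a (CC Γ 0) := by
  intro p _ y hy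
  convert hy
  funext q
  generalize (p • y) q = u
  generalize y q = v
  induction u using QuotientGroup.induction_on with
  | H u =>
  induction v using QuotientGroup.induction_on with
  | H v =>
  rw [QuotientGroup.eq]
  exact Subgroup.mem_sup_left (Subgroup.mem_top _)

theorem Inv_step {N Γ : Subgroup G} {a : G} (hS : NilSys G N Γ a) {c : ℕ} (hc : LC G c = ⊥)
    (i : ℕ) (hI : Inv D N a (CC Γ i)) : Inv D N a (CC Γ (i + 1)) := by
  have hK := hS.rat
  have hΓ := hS.closedΓ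
  obtain ⟨K, hKc, hK1, hK2⟩ := hK i
  have hcl := CC_closed Γ hΓ (i + 1) hK
  have hcl' := CC_closed Γ hΓ i hK
  have hle : Γ ≤ CC Γ (i + 1) := le_sup_right
  obtain ⟨B, _, _, _, _, _, _, _, ψ, hψ1, hψ2, hfree, hcomm, -⟩ := exists_B (LC G i)
    (CC Γ (i + 1)) (comm_CC Γ i) hcl K hKc hK1 (by
      intro g hg
      obtain ⟨x, hx, γ, hγ, -, h⟩ := hK2 g hg
      exact ⟨x, hx, γ, Subgroup.mem_sup_right hγ, h⟩)
  obtain ⟨J, hJ⟩ := unip D (i + 1)
  have : CompactSpace (G ⧸ CC Γ (i + 1)) := X_compact Γ _ hle hK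
  have : T2Space (G ⧸ CC Γ (i + 1)) := QuotientGroup.instT2Space
  have : T2Space (G ⧸ CC Γ i) := QuotientGroup.instT2Space
  have hP : IsClosed (PP D (CC Γ (i + 1))) := PP_closed Γ _ hle hcl hc hK
  have hDist : Dist D (CC Γ (i + 1)) := Dist_all hΓ hK (i + 1)
  -- the invariance statement for the `n`-th group of the chain
  let P : ℕ → Prop := fun n => ∀ p : GG D N a, ∀ b ∈ KU D B n, ∀ y ∈ FF D a 1 (CC Γ (i + 1)),
    ∃ b₁ ∈ KU D B n, ∃ y₁ ∈ FF D a 1 (CC Γ (i + 1)), p • b • y = b₁ • y₁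
  have hν : ∀ (p : GG D N a) (b : A D → B) (y : A D → G ⧸ CC Γ (i + 1)),
      p • b • y = (fun q => b (U (p : Sg D G).right.toAdd q)) • p • y :=
    fun p b y => smul_pi_smul hcomm (p : Sg D G) b y
  have hPJ : P J := by
    intro p b hb y hy
    have hyP : y ∈ PP D (CC Γ (i + 1)) := FF_sub_PP hP hy
    have h1 : prj (CC_le Γ i) (p • y) ∈ FF D a 1 (CC Γ i) := by
      have h2 : prj (CC_le Γ i) (p • y) = (p : Sg D G) • prj (CC_le Γ i) y := prj_smul _ _ _
      rw [h2]
      exact hI p p.2 _ (prj_FF_mem _ hy)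
    obtain ⟨y₁, hy₁, h3⟩ := prj_FF_surj (CC_le Γ i) h1
    have hpy : p • y ∈ PP D (CC Γ (i + 1)) := PP_smul (GG_Pl D N a p p.2) hyP
    obtain ⟨b₂, hb₂, h4⟩ := PP_fibre Γ i ψ hψ1 hψ2 (hJ B) (FF_sub_PP hP hy₁) hpy h3
    refine ⟨(fun q => b (U (p : Sg D G).right.toAdd q)) * b₂,
      (KU D B J).mul_mem (KU_U _ hb) hb₂, y₁, hy₁, ?_⟩
    rw [hν, h4, mul_smul]
  have hstep : ∀ n, P (n + 1) → P n := by
    intro n hn
    have hFinv : ∀ t ∈ (AA D a 1).subgroupOf (GG D N a), ∀ y ∈ FF D a 1 (CC Γ (i + 1)),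
        t • y ∈ FF D a 1 (CC Γ (i + 1)) := by
      intro t ht y hy
      exact FF_inv (Subgroup.mem_subgroupOf.1 ht) hy
    refine ext_lemma (Y := A D → G ⧸ CC Γ (i + 1)) (H := GG D N a) (B := A D → B)
      (fun p b q => b (U (p : Sg D G).right.toAdd q)) hν (KU D B (n + 1)) (KU D B n)
      (KU_closed _) (KU_closed _) (KU_mono n) (fun p b hb => KU_diff _ hb)
      ((AA D a 1).subgroupOf (GG D N a)) ?_
      (GG_small hS.isOpen hS.conn hS.genA D) (GG_nil hS.nil D N a)
      (FF D a 1 (CC Γ (i + 1))) isClosed_closure ⟨_, FF_om⟩ hFinv ?_ hn ?_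
    · intro x hx y hy
      have := AA_comm (Subgroup.mem_subgroupOf.1 hx) (Subgroup.mem_subgroupOf.1 hy)
      exact Subtype.ext this
    · intro y hy
      have h1 := min_of_Dist (k := 1) hP hDist (PP_om _) hy
      refine h1.trans (closure_mono ?_)
      rintro z ⟨t, ht, rfl⟩
      exact ⟨⟨t, AA_le_GG N a 1 ht⟩, Subgroup.mem_subgroupOf.2 ht, rfl⟩
    · intro φ f hf hf1 hfφ
      have hω : om D (CC Γ (i + 1)) ∈ FF D a 1 (CC Γ (i + 1)) := FF_om
      have hfω : f (om D (CC Γ (i + 1))) = 1 := hf1 _ hω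
      have hfp : ∀ p : GG D N a, f (p • om D (CC Γ (i + 1))) = φ p := by
        intro p
        have := hfφ p 1 (KU D B (n + 1)).one_mem _ hω
        rw [one_smul, hfω, mul_one] at this
        exact this
      refine char_lemma hS D φ ?_ ?_ ?_ ?_
      · intro b h
        rw [← hfp]
        apply hf1
        have h1 : (⟨Tg D b, h⟩ : GG D N a) • om D (CC Γ (i + 1)) =
            fun _ => ((b : G) : G ⧸ CC Γ (i + 1)) := by
          change Tg D b • om D (CC Γ (i + 1)) = _
          rw [Tg_smul]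
          funext q
          change ((b * 1 : G) : G ⧸ CC Γ (i + 1)) = _
          rw [mul_one]
        rw [h1]
        exact const_mem hle 1 (hS.mini _) b
      · intro h
        rw [← hfp]
        apply hf1
        apply hFinv _ _ _ hω
        rw [Subgroup.mem_subgroupOf]
        have := sg_mem_AA (D := D) a 1 1
        simpa using this
      · intro γ hγ h
        rw [← hfp]
        have h1 : (⟨sg D γ, h⟩ : GG D N a) • om D (CC Γ (i + 1)) = om D (CC Γ (i + 1)) := by
          change sg D γ • om D (CC Γ (i + 1)) = _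
          funext q
          change ((γ ^ ev q 1 * 1 : G) : G ⧸ CC Γ (i + 1)) = ((1 : G) : G ⧸ CC Γ (i + 1))
          rw [eq_comm, QuotientGroup.eq]
          simpa using hle (Γ.zpow_mem hγ _)
        rw [h1, hfω]
      · have h1 : (fun v : N => φ ⟨sg D ((v : G) * a), sg_mem D N a v⟩) =
            fun v : N => f (sg D ((v : G) * a) • om D (CC Γ (i + 1))) := by
          funext v
          exact (hfp _).symm
        rw [h1]
        refine hf.comp_continuous ?_ ?_
        · refine continuous_pi fun q => ?_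
          change Continuous fun v : N => ((((v : G) * a) ^ ev q 1 * 1 : G) : G ⧸ CC Γ (i + 1))
          refine QuotientGroup.continuous_mk.comp ?_
          exact ((continuous_subtype_val.mul continuous_const).zpow _).mul continuous_const
        · intro v
          obtain ⟨b₁, hb₁, y₁, hy₁, h2⟩ := hn ⟨sg D ((v : G) * a), sg_mem D N a v⟩ 1
            (KU D B (n + 1)).one_mem _ hω
          rw [one_smul] at h2
          exact ⟨b₁, hb₁, y₁, hy₁, h2⟩
  have hdown : ∀ n, P n → P 0 := by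
    intro n
    induction n with
    | zero => exact id
    | succ n ih => exact fun h => ih (hstep n h)
  have hP0 : P 0 := hdown J hPJ
  intro p hp y hy
  obtain ⟨b₁, hb₁, y₁, hy₁, h⟩ := hP0 ⟨p, hp⟩ 1 (KU D B 0).one_mem y hy
  rw [mem_KU_zero] at hb₁
  rw [hb₁, one_smul, one_smul] at h

  have h' : p • y = y₁ := h
  rw [h']
  exact hy₁

theorem Inv_all {N Γ : Subgroup G} {a : G} (hS : NilSys G N Γ a) (i : ℕ) :
    Inv D N a (CC Γ i) := by
  have := hS.nil
  obtain ⟨c, hc⟩ := Subgroup.nilpotent_iff_lowerCentralSeries.1 this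
  induction i with
  | zero => exact Inv_zero N a Γ
  | succ i ih => exact Inv_step hS hc i ih

end step

end Pool.Agent.T6.H51.NS
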