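import Pool.Agent.T6.H51.NS.Unip

/-! Nilpotency of `GG` (module Nil of the nilsystem project). -/

set_option autoImplicit false

namespace Pool.Agent.T6.H51.NS

open Polynomial Filter Topology
open scoped commutatorElement

namespace NilAux

variable {G : Type} [Group G] {D : ℕ}

/-- the subgroup of the elements whose left part is polynomial -/
noncomputable def PP (D : ℕ) (G : Type) [Group G] : Subgroup (Sg D G) where
  carrier := {x | Pl (Fl G) 0 x.left}
  mul_mem' := by
    intro x y hx hy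
    change Pl (Fl G) 0 (x * y).left
    rw [SemidirectProduct.mul_left]
    exact Pl_mul (isFilt_Fl G) hx (Pl_comp hy (U x.right.toAdd) (U_add_right _))
  one_mem' := Pl_one 0
  inv_mem' := by
    intro x hx
    change Pl (Fl G) 0 (x⁻¹).left
    rw [SemidirectProduct.inv_left]
    exact Pl_comp (Pl_inv (isFilt_Fl G) hx) (U (x.right⁻¹).toAdd) (U_add_right _)

theorem mem_PP {x : Sg D G} : x ∈ PP D G ↔ Pl (Fl G) 0 x.left := Iff.rfl

theorem Fl_zero : Fl G 0 = ⊤ := rfl

theorem Fl_one : Fl G 1 = ⊤ := rfl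

theorem GG_le (N : Subgroup G) (a : G) : GG D N a ≤ PP D G := by
  unfold GG
  rw [Subgroup.closure_le]
  rintro x (⟨v, _, rfl⟩ | ⟨b, rfl⟩)
  · exact Pl_hom (isFilt_Fl G) Fl_one _ (fun q => ev q 1) (fun x y => ev_add x y 1)
  · exact Pl_const (by rw [Fl_zero]; exact Subgroup.mem_top b)

theorem EU_mul {V : Type} [CommGroup V] (b c : A D → V) : EU (b * c) = EU b * EU c := by
  funext q
  simp only [EU, Pi.mul_apply, mul_inv]
  rw [mul_mul_mul_comm]

theorem EU_inv {V : Type} [CommGroup V] (b : A D → V) : EU b⁻¹ = (EU b)⁻¹ := by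
  funext q
  simp only [EU, Pi.inv_apply, mul_inv]

theorem EU_one {V : Type} [CommGroup V] : EU (1 : A D → V) = 1 := by
  funext q
  simp [EU]

theorem EU_iter_mul {V : Type} [CommGroup V] (J : ℕ) (b c : A D → V) :
    (EU^[J]) (b * c) = (EU^[J]) b * (EU^[J]) c := by
  induction J generalizing b c with
  | zero => rfl
  | succ J ih => rw [Function.iterate_succ_apply, Function.iterate_succ_apply,
      Function.iterate_succ_apply, EU_mul, ih]

theorem EU_iter_inv {V : Type} [CommGroup V] (J : ℕ) (b : A D → V) :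
    (EU^[J]) b⁻¹ = ((EU^[J]) b)⁻¹ := by
  induction J generalizing b with
  | zero => rfl
  | succ J ih => rw [Function.iterate_succ_apply, Function.iterate_succ_apply, EU_inv, ih]

theorem EU_iter_one {V : Type} [CommGroup V] (J : ℕ) : (EU^[J]) (1 : A D → V) = 1 := by
  induction J with
  | zero => rfl
  | succ J ih => rw [Function.iterate_succ_apply, EU_one, ih]

theorem EU_comp {V : Type} [CommGroup V] (n : ℤ) (b : A D → V) :
    EU (fun q => b (U n q)) = fun q => EU b (U n q) := by
  funext q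
  simp only [EU]
  rw [← U_add, ← U_add, add_comm]

theorem EU_iter_comp {V : Type} [CommGroup V] (J : ℕ) (n : ℤ) (b : A D → V) :
    (EU^[J]) (fun q => b (U n q)) = fun q => (EU^[J]) b (U n q) := by
  induction J generalizing b with
  | zero => rfl
  | succ J ih => rw [Function.iterate_succ_apply, Function.iterate_succ_apply, EU_comp, ih]

theorem inv_of_EU {V : Type} [CommGroup V] {c : A D → V} (h : EU c = 1) (n : ℤ) (q : A D) :
    c (U n q) = c q := by
  have h1 : ∀ q, c (U 1 q) = c q := by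
    intro q
    have := congrFun h q
    simp only [EU, Pi.one_apply] at this
    exact mul_inv_eq_one.1 this
  have h2 : ∀ (m : ℕ) (q : A D), c (U m q) = c q := by
    intro m
    induction m with
    | zero => intro q; simp [U_zero]
    | succ m ih =>
      intro q
      rw [Nat.cast_succ, U_add, ih, h1]
  rcases Int.eq_nat_or_neg n with ⟨m, rfl | rfl⟩
  · exact h2 m q
  · have := h2 m (U (-(m : ℤ)) q)
    rw [← U_add, add_neg_cancel, U_zero] at this
    exact this.symm

/-- the class group -/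
abbrev Vq (G : Type) [Group G] (i : ℕ) : Type :=
  (Fl G (i + 1)) ⧸ ((Fl G (i + 2)).subgroupOf (Fl G (i + 1)))

theorem Fl_le (i : ℕ) : Fl G (i + 1) ≤ Fl G i := (isFilt_Fl G).anti (Nat.le_succ i)

theorem Fl_comm {i : ℕ} {x y : G} (hx : x ∈ Fl G (i + 1)) :
    x * y * x⁻¹ * y⁻¹ ∈ Fl G (i + 2) := by
  have := (isFilt_Fl G).comm (i + 1) 1
  rw [Subgroup.commutator_le] at this
  exact this x hx y (by rw [Fl_one]; exact Subgroup.mem_top y)

instance (i : ℕ) : (Fl G i).Normal := by
  unfold Fl; infer_instance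

noncomputable instance (i : ℕ) : CommGroup (Vq G i) where
  mul_comm := by
    intro a b
    induction a using QuotientGroup.induction_on with
    | H x =>
      induction b using QuotientGroup.induction_on with
      | H y =>
        rw [← QuotientGroup.mk_mul, ← QuotientGroup.mk_mul, QuotientGroup.eq,
          Subgroup.mem_subgroupOf]
        have := Fl_comm (i := i) (x := (y : G)⁻¹) (y := (x : G)⁻¹) (inv_mem y.2)
        simpa [mul_assoc] using this

/-- the class map -/
noncomputable abbrev ψ (G : Type) [Group G] (i : ℕ) : Fl G (i + 1) →* Vq G i :=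
  QuotientGroup.mk' ((Fl G (i + 2)).subgroupOf (Fl G (i + 1)))

theorem ψ_eq_one {i : ℕ} (x : Fl G (i + 1)) : ψ G i x = 1 ↔ (x : G) ∈ Fl G (i + 2) := by
  rw [← MonoidHom.mem_ker, QuotientGroup.ker_mk', Subgroup.mem_subgroupOf]

/-- elements without shift, values in `Fl (i+1)`, and class killed by `EU^[j]` -/
noncomputable def TT (D : ℕ) (G : Type) [Group G] (i j : ℕ) : Subgroup (Sg D G) where
  carrier := {x | Pl (Fl G) 0 x.left ∧ x.right = 1 ∧ ∃ h : ∀ q, x.left q ∈ Fl G (i + 1),
    (EU^[j]) (fun q => ψ G i ⟨x.left q, h q⟩) = 1}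
  mul_mem' := by
    rintro x y ⟨hx, hx1, hx2, hx3⟩ ⟨hy, hy1, hy2, hy3⟩
    have e : (x * y).left = x.left * y.left := by
      rw [SemidirectProduct.mul_left, hx1, map_one]; rfl
    have h : ∀ q, (x * y).left q ∈ Fl G (i + 1) := by
      intro q
      rw [e]
      exact mul_mem (hx2 q) (hy2 q)
    refine ⟨by rw [e]; exact Pl_mul (isFilt_Fl G) hx hy, ?_, h, ?_⟩
    · rw [SemidirectProduct.mul_right, hx1, hy1, mul_one]
    · have e2 : (fun q => ψ G i ⟨(x * y).left q, h q⟩) =
          (fun q => ψ G i ⟨x.left q, hx2 q⟩) * (fun q => ψ G i ⟨y.left q, hy2 q⟩) := by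
        funext q
        rw [Pi.mul_apply, ← map_mul]
        congr 1
        apply Subtype.ext
        simp only [e]
        rfl
      rw [e2, EU_iter_mul, hx3, hy3, mul_one]
  one_mem' := by
    refine ⟨Pl_one 0, rfl, fun q => one_mem _, ?_⟩
    have e2 : (fun q => ψ G i ⟨(1 : Sg D G).left q, one_mem _⟩) = 1 := by
      funext q
      exact map_one (ψ G i)
    exact (congrArg _ e2).trans (EU_iter_one j)
  inv_mem' := by
    rintro x ⟨hx, hx1, hx2, hx3⟩
    have e : (x⁻¹).left = (x.left)⁻¹ := by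
      rw [SemidirectProduct.inv_left, hx1, inv_one, map_one]; rfl
    have h : ∀ q, (x⁻¹).left q ∈ Fl G (i + 1) := by
      intro q
      rw [e]
      exact inv_mem (hx2 q)
    refine ⟨by rw [e]; exact Pl_inv (isFilt_Fl G) hx, ?_, h, ?_⟩
    · rw [SemidirectProduct.inv_right, hx1, inv_one]
    · have e2 : (fun q => ψ G i ⟨(x⁻¹).left q, h q⟩) =
          (fun q => ψ G i ⟨x.left q, hx2 q⟩)⁻¹ := by
        funext q
        rw [Pi.inv_apply, ← map_inv]
        congr 1
        apply Subtype.ext
        simp only [e]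
        rfl
      rw [e2, EU_iter_inv, hx3, inv_one]

theorem comm_left (x y : Sg D G) (hx : x.right = 1) (q : A D) :
    (x * y * x⁻¹ * y⁻¹).left q =
      x.left q * y.left q * (x.left (U y.right.toAdd q))⁻¹ * (y.left q)⁻¹ := by
  have h1 : (x * y * x⁻¹ * y⁻¹).left = x.left * y.left * (sh D G y.right (x.left)⁻¹) *
      (y.left)⁻¹ := by
    rw [SemidirectProduct.mul_left, SemidirectProduct.mul_left, SemidirectProduct.mul_left,
      SemidirectProduct.inv_left, SemidirectProduct.inv_left, hx, map_one, inv_one, map_one]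
    have h2 : (x * y * x⁻¹).right = y.right := by
      rw [SemidirectProduct.mul_right, SemidirectProduct.mul_right, SemidirectProduct.inv_right,
        hx, one_mul, inv_one, mul_one]
    have h3 : (x * y).right = y.right := by
      rw [SemidirectProduct.mul_right, hx, one_mul]
    have h4 : ∀ z : A D → G, (sh D G) y.right (((sh D G) y.right⁻¹) z) = z := by
      intro z
      rw [← MulAut.mul_apply, ← map_mul, mul_inv_cancel, map_one]
      rfl
    rw [h2, h3, h4]
    rfl
  rw [h1]
  rfl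

theorem comm_right (x y : Sg D G) : (x * y * x⁻¹ * y⁻¹).right = 1 := by
  rw [SemidirectProduct.mul_right, SemidirectProduct.mul_right, SemidirectProduct.mul_right,
    SemidirectProduct.inv_right, SemidirectProduct.inv_right]
  rw [mul_comm x.right y.right, mul_inv_cancel_right, mul_inv_cancel]

theorem TT_le_PP (i j : ℕ) : TT D G i j ≤ PP D G := fun _ hx => hx.1

theorem comm_TT {i j : ℕ} {x y : Sg D G} (hx : x ∈ TT D G i (j + 1)) (hy : y ∈ PP D G) :
    ⁅x, y⁆ ∈ TT D G i j := by
  have hPx := TT_le_PP _ _ hx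
  obtain ⟨_, hx1, hx2, hx3⟩ := hx
  rw [commutatorElement_def]
  have hval : ∀ q, (x * y * x⁻¹ * y⁻¹).left q =
      (x.left q * (x.left (U y.right.toAdd q))⁻¹) *
      ((x.left (U y.right.toAdd q)) * y.left q * (x.left (U y.right.toAdd q))⁻¹ *
        (y.left q)⁻¹) := by
    intro q
    rw [comm_left x y hx1 q]
    group
  have hc : ∀ q, (x.left (U y.right.toAdd q)) * y.left q * (x.left (U y.right.toAdd q))⁻¹ *
        (y.left q)⁻¹ ∈ Fl G (i + 2) := fun q => Fl_comm (hx2 _)
  have h : ∀ q, (x * y * x⁻¹ * y⁻¹).left q ∈ Fl G (i + 1) := by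
    intro q
    rw [hval]
    exact mul_mem (mul_mem (hx2 _) (inv_mem (hx2 _))) (Fl_le _ (hc q))
  refine ⟨?_, comm_right x y, h, ?_⟩
  · exact mul_mem (mul_mem (mul_mem hPx hy) (inv_mem hPx)) (inv_mem hy)
  · set b : A D → Vq G i := fun q => ψ G i ⟨x.left q, hx2 q⟩ with hb
    have e : (fun q => ψ G i ⟨(x * y * x⁻¹ * y⁻¹).left q, h q⟩) =
        b * (fun q => b (U y.right.toAdd q))⁻¹ := by
      funext q
      rw [Pi.mul_apply, Pi.inv_apply]
      simp only [hb]
      rw [← map_inv, ← map_mul]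
      have e3 : (⟨(x * y * x⁻¹ * y⁻¹).left q, h q⟩ : Fl G (i + 1)) =
          (⟨x.left q, hx2 q⟩ * (⟨x.left (U y.right.toAdd q), hx2 _⟩ : Fl G (i + 1))⁻¹) *
          ⟨_, Fl_le _ (hc q)⟩ := by
        apply Subtype.ext
        simp only [hval q]
        rfl
      have e4 : ψ G i ⟨_, Fl_le _ (hc q)⟩ = 1 := (ψ_eq_one _).2 (hc q)
      rw [e3]
      refine (MonoidHom.map_mul (ψ G i) _ _).trans ?_
      rw [e4, mul_one]
    rw [e, EU_iter_mul, EU_iter_inv, EU_iter_comp]
    have hE : EU ((EU^[j]) b) = 1 := by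
      rw [← Function.iterate_succ_apply' EU j b]
      exact hx3
    funext q
    rw [Pi.mul_apply, Pi.inv_apply, inv_of_EU hE, mul_inv_cancel]
    rfl

/-- elements of `PP` without shift and with values in `Fl (i+1)` lie in some `TT i J` -/
theorem exists_TT (i : ℕ) : ∃ J, ∀ x ∈ PP D G, x.right = 1 → (∀ q, x.left q ∈ Fl G (i + 1)) →
    x ∈ TT D G i J := by
  obtain ⟨J, hJ⟩ := unip D (i + 1)
  refine ⟨J, fun x hx h1 h2 => ⟨hx, h1, h2, ?_⟩⟩
  exact hJ (Vq G i) _ (Pl_Deg (isFilt_Fl G) hx h2 (ψ G i) (fun x hx => (ψ_eq_one x).2 hx))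

theorem TT_zero {i : ℕ} {x : Sg D G} (hx : x ∈ TT D G i 0) : ∀ q, x.left q ∈ Fl G (i + 2) := by
  obtain ⟨_, _, h2, h3⟩ := hx
  intro q
  have := congrFun h3 q
  exact (ψ_eq_one ⟨x.left q, h2 q⟩).1 this

theorem step (i : ℕ) (R : ℕ)
    (h : ∀ x ∈ (PP D G).lowerCentralSeries R, x.right = 1 ∧ ∀ q, x.left q ∈ Fl G (i + 1)) :
    ∃ R', ∀ x ∈ (PP D G).lowerCentralSeries R', x.right = 1 ∧ ∀ q, x.left q ∈ Fl G (i + 2) := by
  obtain ⟨J, hJ⟩ := exists_TT (D := D) (G := G) i
  have hanti : ∀ m, (PP D G).lowerCentralSeries m ≤ PP D G := fun m =>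
    ((PP D G).lowerCentralSeries_antitone (Nat.zero_le m)).trans (le_of_eq rfl)
  have hk : ∀ k j, k + j = J → (PP D G).lowerCentralSeries (R + k) ≤ TT D G i j := by
    intro k
    induction k with
    | zero =>
      intro j hj x hx
      rw [zero_add] at hj
      subst hj
      exact hJ x (hanti _ hx) (h x hx).1 (h x hx).2
    | succ k ih =>
      intro j hj
      rw [← add_assoc, Subgroup.lowerCentralSeries_succ, Subgroup.commutator_le]
      intro x hx y hy
      exact comm_TT (ih (j + 1) (by omega) hx) hy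
  refine ⟨R + J, fun x hx => ?_⟩
  have := hk J 0 (by omega) hx
  exact ⟨this.2.1, TT_zero this⟩

theorem chain (i : ℕ) :
    ∃ R, ∀ x ∈ (PP D G).lowerCentralSeries R, x.right = 1 ∧ ∀ q, x.left q ∈ Fl G (i + 1) := by
  induction i with
  | zero =>
    refine ⟨1, ?_⟩
    have h1 : (PP D G).lowerCentralSeries 1 ≤ (SemidirectProduct.rightHom : Sg D G →* _).ker := by
      rw [Subgroup.lowerCentralSeries_succ, Subgroup.commutator_le]
      intro x _ y _
      rw [MonoidHom.mem_ker, commutatorElement_def]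
      exact comm_right x y
    intro x hx
    exact ⟨h1 hx, fun q => by rw [zero_add, Fl_one]; exact Subgroup.mem_top _⟩
  | succ i ih =>
    obtain ⟨R, hR⟩ := ih
    exact step i R hR

end NilAux

open NilAux in
theorem GG_nil {G : Type} [Group G] (hG : Group.IsNilpotent G) (D : ℕ) (N : Subgroup G) (a : G) :
    ∃ R, LC (GG D N a) R = ⊥ := by
  obtain ⟨c, hc⟩ := (Subgroup.nilpotent_iff_lowerCentralSeries (G := G)).1 hG
  obtain ⟨R, hR⟩ := chain (D := D) (G := G) c
  have hmono : ∀ m, (GG D N a).lowerCentralSeries m ≤ (PP D G).lowerCentralSeries m := by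
    intro m
    induction m with
    | zero => exact GG_le N a
    | succ m ih =>
      rw [Subgroup.lowerCentralSeries_succ, Subgroup.lowerCentralSeries_succ]
      exact Subgroup.commutator_mono ih (GG_le N a)
  refine ⟨R, ?_⟩
  rw [eq_bot_iff]
  intro x hx
  have hx' : (x : Sg D G) ∈ (GG D N a).lowerCentralSeries R := by
    rw [← Subgroup.top_subtype_lowerCentralSeries]
    exact ⟨x, hx, rfl⟩
  obtain ⟨h1, h2⟩ := hR _ (hmono R hx')
  rw [Subgroup.mem_bot]
  apply Subtype.ext
  refine SemidirectProduct.ext ?_ h1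
  funext q
  have h3 := h2 q
  have h4 : Fl G (c + 1) = ⊥ := hc
  rw [h4, Subgroup.mem_bot] at h3
  exact h3

open NilAux in
theorem GG_Pl {G : Type} [Group G] (D : ℕ) (N : Subgroup G) (a : G) (x : Sg D G)
    (hx : x ∈ GG D N a) : Pl (Fl G) 0 x.left := GG_le N a hx

end Pool.Agent.T6.H51.NS
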