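import Pool.Agent.T6.H51.NS.Unip
import Pool.Agent.T6.H51.NS.Newton
import Pool.Agent.T6.H51.NS.Nil
import Pool.Agent.T6.H51.NS.Ellis

set_option autoImplicit false

namespace Pool.Agent.T6.H51.NS

open Filter Topology
open scoped commutatorElement

section KU
variable {D : ℕ} {B : Type} [CommGroup B]

/-- `EU` as a homomorphism -/
noncomputable def EUh (D : ℕ) (B : Type) [CommGroup B] : (A D → B) →* (A D → B) where
  toFun := EU
  map_one' := by funext q; simp [EU]
  map_mul' b c := by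
    funext q
    simp only [EU, Pi.mul_apply, mul_inv]
    exact mul_mul_mul_comm _ _ _ _

/-- kernels of the iterates of `EU` -/
noncomputable def KU (D : ℕ) (B : Type) [CommGroup B] : ℕ → Subgroup (A D → B)
  | 0 => ⊥
  | (n + 1) => (KU D B n).comap (EUh D B)

theorem mem_KU_succ {n : ℕ} {b : A D → B} : b ∈ KU D B (n + 1) ↔ EU b ∈ KU D B n := Iff.rfl

theorem mem_KU_zero {b : A D → B} : b ∈ KU D B 0 ↔ b = 1 := Iff.rfl

theorem KU_of_iter {n : ℕ} : ∀ {b : A D → B}, (EU^[n]) b = 1 → b ∈ KU D B n := by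
  induction n with
  | zero => intro b h; exact h
  | succ n ih =>
    intro b h
    rw [Function.iterate_succ_apply] at h
    exact ih h

theorem KU_mono (n : ℕ) : KU D B n ≤ KU D B (n + 1) := by
  induction n with
  | zero => exact bot_le
  | succ n ih => exact Subgroup.comap_mono ih

theorem EU_U (m : ℤ) (b : A D → B) : EU (fun q => b (U m q)) = fun q => EU b (U m q) := by
  funext q
  simp only [EU]
  rw [← U_add, ← U_add, add_comm]

theorem KU_U (m : ℤ) {n : ℕ} : ∀ {b : A D → B}, b ∈ KU D B n → (fun q => b (U m q)) ∈ KU D B n := by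
  induction n with
  | zero =>
    intro b h
    rw [mem_KU_zero] at h ⊢
    subst h; rfl
  | succ n ih =>
    intro b h
    rw [mem_KU_succ] at h ⊢
    rw [EU_U]
    exact ih h

theorem KU_diff_nat (m : ℕ) {n : ℕ} {b : A D → B} (hb : b ∈ KU D B (n + 1)) :
    (fun q => b (U (m : ℤ) q) * (b q)⁻¹) ∈ KU D B n := by
  induction m with
  | zero =>
    convert (KU D B n).one_mem using 1
    funext q
    simp [U_zero]
  | succ m ih =>
    have h1 : (fun q => EU b (U (m : ℤ) q)) ∈ KU D B n := KU_U _ hb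
    convert (KU D B n).mul_mem h1 ih using 1
    funext q
    simp only [EU, Pi.mul_apply]
    rw [← U_add]
    push_cast
    rw [add_comm (1 : ℤ)]
    group

theorem KU_diff (m : ℤ) {n : ℕ} {b : A D → B} (hb : b ∈ KU D B (n + 1)) :
    (fun q => b (U m q) * (b q)⁻¹) ∈ KU D B n := by
  obtain ⟨k, rfl | rfl⟩ := m.eq_nat_or_neg
  · exact KU_diff_nat k hb
  · have h1 := KU_U (-(k : ℤ)) (KU_diff_nat k hb)
    convert (KU D B n).inv_mem h1 using 1
    funext q
    simp only [Pi.inv_apply]
    rw [← U_add, add_neg_cancel, U_zero]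
    group

theorem KU_closed [TopologicalSpace B] [IsTopologicalGroup B] [T2Space B] (n : ℕ) :
    IsClosed (KU D B n : Set (A D → B)) := by
  induction n with
  | zero =>
    change IsClosed ({1} : Set (A D → B))
    exact isClosed_singleton
  | succ n ih =>
    have hc : Continuous (EU : (A D → B) → (A D → B)) := by
      unfold EU
      fun_prop
    exact ih.preimage hc

end KU

section sgl
variable {G : Type} [Group G] {D : ℕ}

/-- powers of `sg a` -/
noncomputable def sgn (D : ℕ) (a : G) : Multiplicative ℤ →* Sg D G where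
  toFun n := ⟨fun q => a ^ ev q n.toAdd, n⟩
  map_one' := by
    ext q
    · change a ^ ev q 0 = 1
      rw [ev_zero_right, zpow_zero]
    · rfl
  map_mul' n m := by
    ext q
    · change a ^ ev q (n.toAdd + m.toAdd) = a ^ ev q n.toAdd * a ^ ev (U n.toAdd q) m.toAdd
      rw [← zpow_add, ev_U, add_comm m.toAdd]
      congr 1
      ring
    · rfl

theorem sg_zpow (a : G) (n : ℤ) :
    sg D a ^ n = ⟨fun q => a ^ ev q n, Multiplicative.ofAdd n⟩ := by
  have h : sg D a = sgn D a (Multiplicative.ofAdd 1) := rfl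
  rw [h, ← map_zpow]
  change _ = sgn D a (Multiplicative.ofAdd n)
  congr 1
  rw [← ofAdd_zsmul, smul_eq_mul, mul_one]

/-- constants -/
noncomputable def Tgh (D : ℕ) (G : Type) [Group G] : G →* Sg D G where
  toFun g := Tg D g
  map_one' := rfl
  map_mul' g h := by
    ext q
    · rfl
    · rfl

theorem Tg_zpow (a : G) (n : ℤ) : Tg D a ^ n = Tg D (a ^ n) := by
  exact (map_zpow (Tgh D G) a n).symm

theorem Tg_smul {X : Type} [MulAction G X] (g : G) (y : A D → X) : Tg D g • y = fun q => g • y q := by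
  funext q
  rw [smul_apply]
  change g • y (U 0 q) = g • y q
  rw [U_zero]

theorem sg_zpow_smul {X : Type} [MulAction G X] (a : G) (n : ℤ) (y : A D → X) :
    sg D a ^ n • y = fun q => a ^ ev q n • y (U n q) := by
  rw [sg_zpow]; rfl

theorem sg_Tg_comm (a : G) : sg D a * Tg D a = Tg D a * sg D a := by
  ext q
  · change a ^ ev q 1 * a = a * a ^ ev (U 0 q) 1
    rw [U_zero, (Commute.zpow_self a _).eq]
  · rfl

theorem mem_AA {a : G} {k : ℕ} {x : Sg D G} (hx : x ∈ AA D a k) :
    ∃ n m : ℤ, x = sg D a ^ ((k : ℤ) * n) * Tg D a ^ m := by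
  unfold AA at hx
  have hc : Commute (sg D a) (Tg D a) := sg_Tg_comm a
  induction hx using Subgroup.closure_induction with
  | mem x hx =>
    rcases hx with rfl | hx
    · exact ⟨1, 0, by simp⟩
    · rw [Set.mem_singleton_iff] at hx
      subst hx
      exact ⟨0, 1, by simp⟩
  | one => exact ⟨0, 0, by simp⟩
  | mul x y _ _ hx hy =>
    obtain ⟨n, m, rfl⟩ := hx
    obtain ⟨n', m', rfl⟩ := hy
    refine ⟨n + n', m + m', ?_⟩
    rw [mul_add, zpow_add, zpow_add]
    rw [mul_assoc, mul_assoc, ← mul_assoc (Tg D a ^ m), ← mul_assoc (sg D a ^ (↑k * n'))]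
    rw [((hc.zpow_zpow (k * n') m).eq)]
  | inv x _ hx =>
    obtain ⟨n, m, rfl⟩ := hx
    refine ⟨-n, -m, ?_⟩
    rw [mul_inv_rev, mul_neg, zpow_neg, zpow_neg]
    exact ((hc.zpow_zpow (k * n) m).inv_inv.eq).symm

theorem AA_comm {a : G} {k : ℕ} {x y : Sg D G} (hx : x ∈ AA D a k) (hy : y ∈ AA D a k) :
    x * y = y * x := by
  obtain ⟨n, m, rfl⟩ := mem_AA hx
  obtain ⟨n', m', rfl⟩ := mem_AA hy
  have hc : Commute (sg D a) (Tg D a) := sg_Tg_comm a
  have h1 : Commute (sg D a ^ ((k : ℤ) * n) * Tg D a ^ m) (sg D a ^ ((k : ℤ) * n')) :=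
    Commute.mul_left (Commute.zpow_zpow_self _ _ _) ((hc.zpow_zpow _ _).symm)
  have h2 : Commute (sg D a ^ ((k : ℤ) * n) * Tg D a ^ m) (Tg D a ^ m') :=
    Commute.mul_left (hc.zpow_zpow _ _) (Commute.zpow_zpow_self _ _ _)
  exact (h1.mul_right h2).eq

theorem sg_mem_AA (a : G) (k : ℕ) (n : ℤ) : sg D a ^ ((k : ℤ) * n) ∈ AA D a k := by
  rw [zpow_mul, zpow_natCast]
  exact (AA D a k).zpow_mem (Subgroup.subset_closure (Or.inl rfl)) n

theorem Tg_mem_AA (a : G) (k : ℕ) (n : ℤ) : Tg D a ^ n ∈ AA D a k :=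
  (AA D a k).zpow_mem (Subgroup.subset_closure (Or.inr rfl)) n

theorem AA_le_one (a : G) (k : ℕ) : AA D a k ≤ AA D a 1 := by
  refine (Subgroup.closure_le _).2 ?_
  rintro x (rfl | hx)
  · have := sg_mem_AA (D := D) a 1 k
    simpa using this
  · rw [Set.mem_singleton_iff] at hx
    subst hx
    exact Subgroup.subset_closure (Or.inr rfl)

theorem AA_le_GG (N : Subgroup G) (a : G) (k : ℕ) : AA D a k ≤ GG D N a := by
  refine (AA_le_one a k).trans ?_
  unfold AA
  rw [Subgroup.closure_le]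
  rintro x (rfl | hx)
  · rw [pow_one]
    exact Subgroup.subset_closure (Or.inl ⟨1, N.one_mem, by rw [one_mul]⟩)
  · rw [Set.mem_singleton_iff] at hx
    subst hx
    exact Subgroup.subset_closure (Or.inr ⟨a, rfl⟩)

end sgl

end Pool.Agent.T6.H51.NS
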