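import Pool.Agent.T6.H51.NS.MT

set_option autoImplicit false

namespace Pool.Agent.T6.H51.NS

open Filter Topology
open scoped commutatorElement Pointwise

section step
variable {G : Type} [Group G] {D : ℕ}

/-- the tower of subgroups -/
abbrev CC (Γ : Subgroup G) (i : ℕ) : Subgroup G := LC G i ⊔ Γ

theorem CC_le (Γ : Subgroup G) (i : ℕ) : CC Γ (i + 1) ≤ CC Γ i :=
  sup_le_sup_right (Subgroup.lowerCentralSeries_antitone (⊤ : Subgroup G) (Nat.le_succ i)) Γ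

theorem comm_LC {i : ℕ} {z : G} (hz : z ∈ LC G i) (g : G) : ⁅z, g⁆ ∈ LC G (i + 1) :=
  Subgroup.commutator_mem_commutator hz (Subgroup.mem_top g)

theorem comm_CC (Γ : Subgroup G) (i : ℕ) : ∀ z ∈ LC G i, ∀ g h : G,
    h⁻¹ * ⁅z, g⁆ * h ∈ CC Γ (i + 1) := by
  intro z hz g h
  apply Subgroup.mem_sup_left
  have : (LC G (i + 1)).Normal := inferInstance
  have h1 := this.conj_mem _ (comm_LC hz g) h⁻¹
  rwa [inv_inv] at h1

theorem mem_CC {Γ : Subgroup G} {i : ℕ} {g : G} :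
    g ∈ CC Γ i ↔ ∃ z ∈ LC G i, ∃ γ ∈ Γ, g = z * γ := by
  rw [Subgroup.mem_sup_of_normal_left]
  constructor
  · rintro ⟨z, hz, γ, hγ, rfl⟩; exact ⟨z, hz, γ, hγ, rfl⟩
  · rintro ⟨z, hz, γ, hγ, rfl⟩; exact ⟨z, hz, γ, hγ, rfl⟩

theorem PP_fibre (Γ : Subgroup G) (i : ℕ) {B : Type} [CommGroup B]
    [MulAction B (G ⧸ CC Γ (i + 1))] (ψ : LC G i →* B)
    (hψ1 : ∀ z : LC G i, (z : G) ∈ CC Γ (i + 1) → ψ z = 1)
    (hψ2 : ∀ (z : LC G i) (x : G ⧸ CC Γ (i + 1)), ψ z • x = (z : G) • x) {J : ℕ}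
    (hJ : ∀ b : A D → B, Deg (i + 1) b → (EU^[J]) b = 1)
    {y y' : A D → G ⧸ CC Γ (i + 1)} (hy : y ∈ PP D (CC Γ (i + 1)))
    (hy' : y' ∈ PP D (CC Γ (i + 1))) (h : prj (CC_le Γ i) y = prj (CC_le Γ i) y') :
    ∃ b ∈ KU D B J, y' = b • y := by
  obtain ⟨p, hp, rfl⟩ := hy
  obtain ⟨r, hr, rfl⟩ := hy'
  have h1 : ∀ q, ∃ z ∈ Fl G (i + 1), ∃ γ ∈ Γ, (p⁻¹ * r) q = z * γ := by
    intro q
    have h2 : ((p q : G) : G ⧸ CC Γ i) = (r q : G ⧸ CC Γ i) := congrFun h q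
    rw [QuotientGroup.eq] at h2
    exact mem_CC.1 h2
  obtain ⟨Z, hZ, hZi, hZw⟩ := fibre (isFilt_Fl G) Γ
    (Pl_mul (isFilt_Fl G) (Pl_inv (isFilt_Fl G) hp) hr) h1
  refine ⟨fun q => ψ ⟨Z q, hZi q⟩, KU_of_iter (hJ _ (Pl_Deg (isFilt_Fl G) hZ hZi ψ ?_)), ?_⟩
  · intro x hx
    exact hψ1 x (Subgroup.mem_sup_left hx)
  · funext q
    change ((r q : G) : G ⧸ CC Γ (i + 1)) = ψ ⟨Z q, hZi q⟩ • ((p q : G) : G ⧸ CC Γ (i + 1))
    rw [hψ2]
    change ((r q : G) : G ⧸ CC Γ (i + 1)) = ((Z q * p q : G) : G ⧸ CC Γ (i + 1))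
    rw [eq_comm, QuotientGroup.eq]
    obtain ⟨w, hw, γ, hγ, h3⟩ := hZw q
    have h4 : (p q)⁻¹ * r q = Z q * w * γ := h3
    have h5 : (Z q * p q)⁻¹ * r q = (⁅(Z q)⁻¹, (p q)⁻¹⁆)⁻¹ * w * γ := by
      calc (Z q * p q)⁻¹ * r q = (p q)⁻¹ * (Z q)⁻¹ * p q * ((p q)⁻¹ * r q) := by group
        _ = _ := by rw [h4, commutatorElement_def]; group
    rw [h5]
    refine (CC Γ (i + 1)).mul_mem (Subgroup.mem_sup_left ?_) (Subgroup.mem_sup_right hγ)
    exact (LC G (i + 1)).mul_mem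
      ((LC G (i + 1)).inv_mem (comm_LC ((LC G i).inv_mem (hZi q)) _)) hw

variable [TopologicalSpace G] [IsTopologicalGroup G]

theorem CC_closed (Γ : Subgroup G) (hΓ : IsClosed (Γ : Set G)) (i : ℕ)
    (hK : ∀ k, ∃ K : Set G, IsCompact K ∧ (∀ x ∈ K, x ∈ LC G k) ∧
      ∀ g ∈ LC G k, ∃ x ∈ K, ∃ γ ∈ Γ, γ ∈ LC G k ∧ g = x * γ) :
    IsClosed (CC Γ i : Set G) := by
  obtain ⟨K, hKc, hK1, hK2⟩ := hK i
  have : (CC Γ i : Set G) = K • (Γ : Set G) := by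
    ext g
    rw [SetLike.mem_coe, mem_CC, Set.mem_smul]
    constructor
    · rintro ⟨z, hz, γ, hγ, rfl⟩
      obtain ⟨x, hx, γ', hγ', -, rfl⟩ := hK2 z hz
      exact ⟨x, hx, γ' * γ, Γ.mul_mem hγ' hγ, by rw [smul_eq_mul, mul_assoc]⟩
    · rintro ⟨x, hx, γ, hγ, rfl⟩
      exact ⟨x, hK1 x hx, γ, hγ, rfl⟩
  rw [this]
  exact hΓ.smul_left_of_isCompact hKc

theorem X_compact (Γ C : Subgroup G) (hle : Γ ≤ C)
    (hK : ∀ k, ∃ K : Set G, IsCompact K ∧ (∀ x ∈ K, x ∈ LC G k) ∧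
      ∀ g ∈ LC G k, ∃ x ∈ K, ∃ γ ∈ Γ, γ ∈ LC G k ∧ g = x * γ) : CompactSpace (G ⧸ C) := by
  obtain ⟨K, hKc, hK1, hK2⟩ := hK 0
  constructor
  convert hKc.image (QuotientGroup.continuous_mk (N := C))
  symm
  rw [Set.eq_univ_iff_forall]
  intro x
  induction x using QuotientGroup.induction_on with
  | H g =>
  obtain ⟨k, hk, γ, hγ, -, rfl⟩ := hK2 g (Subgroup.mem_top g)
  refine ⟨k, hk, ?_⟩
  rw [QuotientGroup.eq]
  simpa using hle hγ

theorem smul_pi_smul {X B : Type} [CommGroup B] [MulAction G X] [MulAction B X]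
    (hcomm : ∀ (g : G) (b : B) (x : X), g • b • x = b • g • x) (h : Sg D G) (b : A D → B)
    (y : A D → X) : h • b • y = (fun q => b (U h.right.toAdd q)) • h • y := by
  funext q
  rw [smul_apply]
  change h.left q • b (U h.right.toAdd q) • y (U h.right.toAdd q) =
    b (U h.right.toAdd q) • h.left q • y (U h.right.toAdd q)
  rw [hcomm]

/-- abstract distality step -/
theorem dist_core {X B : Type} [TopologicalSpace X] [T2Space X] [MulAction G X]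
    [CommGroup B] [TopologicalSpace B] [IsTopologicalGroup B] [CompactSpace B] [T2Space B]
    [MulAction B X] [ContinuousSMul B X]
    (hcomm : ∀ (g : G) (b : B) (x : X), g • b • x = b • g • x)
    (hfree : ∀ (b : B) (x : X), b • x = x → b = 1) {J : ℕ} {b : A D → B} (hb : b ∈ KU D B J)
    {y z : A D → X} {l : Filter (Sg D G)} (hl : l.NeBot)
    (h1 : Tendsto (fun h : Sg D G => h • y) l (𝓝 z))
    (h2 : Tendsto (fun h : Sg D G => h • b • y) l (𝓝 z)) : b = 1 := by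
  let u : Ultrafilter (Sg D G) := Ultrafilter.of l
  have hu : (u : Filter (Sg D G)) ≤ l := Ultrafilter.of_le l
  obtain ⟨β, -, hβ⟩ := isCompact_univ.ultrafilter_le_nhds
    (u.map (fun h : Sg D G => fun q => b (U h.right.toAdd q))) (by simp)
  have h3 : Tendsto (fun h : Sg D G => fun q => b (U h.right.toAdd q)) u (𝓝 β) := hβ
  have h4 : Tendsto (fun h : Sg D G => h • b • y) u (𝓝 (β • z)) := by
    have := h3.smul (h1.mono_left hu)
    refine this.congr (fun h => ?_)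
    rw [smul_pi_smul hcomm]
  have h5 : β • z = z := tendsto_nhds_unique h4 (h2.mono_left hu)
  have h6 : β = 1 := by
    funext q
    exact hfree (β q) (z q) (congrFun h5 q)
  subst h6
  have key : ∀ n, b ∈ KU D B n → b ∈ KU D B 0 := by
    intro n
    induction n with
    | zero => exact id
    | succ n ih =>
      intro hn
      apply ih
      have h7 : Tendsto (fun h : Sg D G => (fun q => b (U h.right.toAdd q)) * b⁻¹) u
          (𝓝 (1 * b⁻¹)) := h3.mul_const _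
      have h8 : (1 * b⁻¹ : A D → B) ∈ (KU D B n : Set (A D → B)) :=
        (KU_closed n).mem_of_tendsto h7 (Eventually.of_forall fun h => KU_diff _ hn)
      rw [one_mul] at h8
      exact ((KU D B n).inv_mem_iff).1 h8
  exact key J hb

end step

end Pool.Agent.T6.H51.NS
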