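import Pool.Agent.T6.H51.NS.MK
import Pool.Agent.T6.H51.NS.MB

set_option autoImplicit false

namespace Pool.Agent.T6.H51.NS

open Filter Topology
open scoped commutatorElement Pointwise

section tower
variable {G : Type} [Group G] {D : ℕ}

/-- the base point -/
def om (D : ℕ) (C : Subgroup G) : A D → G ⧸ C := fun _ => ((1 : G) : G ⧸ C)

/-- polynomial points -/
def PP (D : ℕ) (C : Subgroup G) : Set (A D → G ⧸ C) :=
  {y | ∃ p : A D → G, Pl (Fl G) 0 p ∧ y = fun q => ((p q : G) : G ⧸ C)}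

/-- projection -/
def prj {C' C : Subgroup G} (h : C' ≤ C) (y : A D → G ⧸ C') : A D → G ⧸ C :=
  fun q => Subgroup.quotientMapOfLE h (y q)

theorem quot_smul {C' C : Subgroup G} (h : C' ≤ C) (g : G) (x : G ⧸ C') :
    Subgroup.quotientMapOfLE h (g • x) = g • Subgroup.quotientMapOfLE h x := by
  induction x using QuotientGroup.induction_on with
  | H x => rfl

theorem prj_smul {C' C : Subgroup G} (h : C' ≤ C) (x : Sg D G) (y : A D → G ⧸ C') :
    prj h (x • y) = x • prj h y := by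
  funext q
  exact quot_smul h _ _

theorem prj_om {C' C : Subgroup G} (h : C' ≤ C) : prj h (om D C') = om D C := rfl

theorem prj_PP {C' C : Subgroup G} (h : C' ≤ C) {y : A D → G ⧸ C'} (hy : y ∈ PP D C') :
    prj h y ∈ PP D C := by
  obtain ⟨p, hp, rfl⟩ := hy
  exact ⟨p, hp, rfl⟩

theorem PP_smul {C : Subgroup G} {x : Sg D G} (hx : Pl (Fl G) 0 x.left) {y : A D → G ⧸ C}
    (hy : y ∈ PP D C) : x • y ∈ PP D C := by
  obtain ⟨p, hp, rfl⟩ := hy
  refine ⟨x.left * (fun q => p (U x.right.toAdd q)), ?_, ?_⟩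
  · exact Pl_mul (isFilt_Fl G) hx (Pl_comp hp _ (fun q r => U_add_right _ q r))
  · rfl

theorem PP_om (C : Subgroup G) : om D C ∈ PP D C := ⟨1, Pl_one 0, rfl⟩

variable [TopologicalSpace G]

/-- orbit closure of the base point -/
def FF (D : ℕ) (a : G) (k : ℕ) (C : Subgroup G) : Set (A D → G ⧸ C) :=
  closure {z | ∃ t ∈ AA D a k, z = t • om D C}

/-- distality on the polynomial points -/
def Dist (D : ℕ) (C : Subgroup G) : Prop :=
  ∀ y ∈ PP D C, ∀ y' ∈ PP D C, ∀ z : A D → G ⧸ C, ∀ l : Filter (Sg D G), l.NeBot →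
    Tendsto (fun h : Sg D G => h • y) l (𝓝 z) → Tendsto (fun h : Sg D G => h • y') l (𝓝 z) →
    y = y'

variable [IsTopologicalGroup G]

theorem quot_cont {C' C : Subgroup G} (h : C' ≤ C) :
    Continuous (Subgroup.quotientMapOfLE h : G ⧸ C' → G ⧸ C) := by
  rw [(QuotientGroup.isOpenQuotientMap_mk (N := C')).isQuotientMap.continuous_iff]
  exact QuotientGroup.continuous_mk

theorem prj_cont {C' C : Subgroup G} (h : C' ≤ C) :
    Continuous (prj (D := D) h) :=
  continuous_pi fun q => (quot_cont h).comp (continuous_apply q)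

theorem PP_closed (Γ C : Subgroup G) (hle : Γ ≤ C) (hC : IsClosed (C : Set G)) {c : ℕ}
    (hc : LC G c = ⊥)
    (hK : ∀ k, ∃ K : Set G, IsCompact K ∧ (∀ x ∈ K, x ∈ LC G k) ∧
      ∀ g ∈ LC G k, ∃ x ∈ K, ∃ γ ∈ Γ, γ ∈ LC G k ∧ g = x * γ) : IsClosed (PP D C) := by
  obtain ⟨𝒦, h𝒦, h1, h2⟩ := compact_Pl (D := D) (isFilt_Fl G) Γ (c := c) (by exact hc)
    (fun k => hK (k - 1))
  have : PP D C = (fun p : A D → G => fun q => ((p q : G) : G ⧸ C)) '' 𝒦 := by
    ext y
    constructor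
    · rintro ⟨p, hp, rfl⟩
      obtain ⟨k, hk, hpk⟩ := h2 p hp
      refine ⟨k, hk, ?_⟩
      funext q
      obtain ⟨γ, hγ, h3⟩ := hpk q
      change ((k q : G) : G ⧸ C) = (p q : G ⧸ C)
      rw [QuotientGroup.eq, h3]
      simpa using hle hγ
    · rintro ⟨p, hp, rfl⟩
      exact ⟨p, h1 p hp, rfl⟩
  rw [this]
  have := hC
  exact (h𝒦.image (continuous_pi fun q => QuotientGroup.continuous_mk.comp
    (continuous_apply q))).isClosed

theorem smul_cont {X : Type} [TopologicalSpace X] [MulAction G X] [ContinuousSMul G X]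
    (x : Sg D G) : Continuous (fun y : A D → X => x • y) := by
  refine continuous_pi fun q => ?_
  change Continuous fun y : A D → X => x.left q • y (U x.right.toAdd q)
  fun_prop

theorem FF_inv {a : G} {k : ℕ} {C : Subgroup G} {t : Sg D G} (ht : t ∈ AA D a k)
    {y : A D → G ⧸ C} (hy : y ∈ FF D a k C) : t • y ∈ FF D a k C := by
  refine map_mem_closure (smul_cont t) hy ?_
  rintro z ⟨s, hs, rfl⟩
  exact ⟨t * s, (AA D a k).mul_mem ht hs, by rw [mul_smul]⟩

theorem FF_om {a : G} {k : ℕ} {C : Subgroup G} : om D C ∈ FF D a k C :=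
  subset_closure ⟨1, (AA D a k).one_mem, by rw [one_smul]⟩

theorem FF_le {a : G} {k : ℕ} {C : Subgroup G} : FF D a k C ⊆ FF D a 1 C := by
  refine closure_mono ?_
  rintro z ⟨t, ht, rfl⟩
  exact ⟨t, AA_le_one a k ht, rfl⟩

theorem prj_FF_mem {a : G} {k : ℕ} {C' C : Subgroup G} (h : C' ≤ C) {y : A D → G ⧸ C'}
    (hy : y ∈ FF D a k C') : prj h y ∈ FF D a k C := by
  refine map_mem_closure (prj_cont h) hy ?_
  rintro z ⟨t, ht, rfl⟩
  exact ⟨t, ht, by rw [prj_smul, prj_om]⟩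

theorem prj_FF_surj {a : G} {k : ℕ} {C' C : Subgroup G} (h : C' ≤ C) [CompactSpace (G ⧸ C')]
    [T2Space (G ⧸ C)] {z : A D → G ⧸ C}
    (hz : z ∈ FF D a k C) : ∃ y ∈ FF D a k C', prj h y = z := by
  have hcl : IsClosed (prj (D := D) h '' FF D a k C') :=
    ((isClosed_closure.isCompact).image (prj_cont h)).isClosed
  have : FF D a k C ⊆ prj (D := D) h '' FF D a k C' := by
    refine closure_minimal ?_ hcl
    rintro z ⟨t, ht, rfl⟩
    refine ⟨t • om D C', FF_inv ht FF_om, ?_⟩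
    rw [prj_smul, prj_om]
  exact this hz

theorem AA_Pl {a : G} {k : ℕ} {t : Sg D G} (ht : t ∈ AA D a k) : Pl (Fl G) 0 t.left :=
  GG_Pl D ⊤ a t (AA_le_GG ⊤ a k ht)

theorem FF_sub_PP {a : G} {k : ℕ} {C : Subgroup G} (h : IsClosed (PP D C)) :
    FF D a k C ⊆ PP D C := by
  refine closure_minimal ?_ h
  rintro z ⟨t, ht, rfl⟩
  exact PP_smul (AA_Pl ht) (PP_om C)

/-- orbit closures in `PP` are minimal -/
theorem min_of_Dist {a : G} {k : ℕ} {C : Subgroup G} [CompactSpace (G ⧸ C)] [T2Space (G ⧸ C)]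
    (hP : IsClosed (PP D C)) (hD : Dist D C) {w : A D → G ⧸ C} (hw : w ∈ PP D C)
    {y : A D → G ⧸ C} (hy : y ∈ closure {z | ∃ t ∈ AA D a k, z = t • w}) :
    closure {z | ∃ t ∈ AA D a k, z = t • w} ⊆ closure {z | ∃ t ∈ AA D a k, z = t • y} := by
  have hE := ellis (Y := A D → G ⧸ C) (H := AA D a k) (fun h => smul_cont (h : Sg D G))
    (PP D C) hP (fun h y hy => PP_smul (AA_Pl h.2) hy) (by
      intro y hy y' hy' z l hl h1 h2
      have hl' : (l.map (Subtype.val : AA D a k → Sg D G)).NeBot := hl.map _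
      exact hD y hy y' hy' z (l.map Subtype.val) hl' (tendsto_map'_iff.2 h1)
        (tendsto_map'_iff.2 h2))
  have hr : ∀ w : A D → G ⧸ C, {z | ∃ t ∈ AA D a k, z = t • w} =
      Set.range (fun h : AA D a k => h • w) := by
    intro w
    ext z
    constructor
    · rintro ⟨t, ht, rfl⟩
      exact ⟨⟨t, ht⟩, rfl⟩
    · rintro ⟨⟨t, ht⟩, rfl⟩
      exact ⟨t, ht, rfl⟩
  have h1 : w ∈ closure {z | ∃ t ∈ AA D a k, z = t • y} := by
    rw [hr] at hy ⊢
    exact hE w hw y hy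
  refine closure_minimal ?_ isClosed_closure
  rintro z ⟨t, ht, rfl⟩
  refine map_mem_closure (smul_cont t) h1 ?_
  rintro z ⟨s, hs, rfl⟩
  exact ⟨t * s, (AA D a k).mul_mem ht hs, by rw [mul_smul]⟩

/-- constants lie in the orbit closure -/
theorem const_mem {Γ C : Subgroup G} (hle : Γ ≤ C) {a : G} (k : ℕ)
    (hm : Dense (Set.range fun n : ℤ => a ^ n • ((1 : G) : G ⧸ Γ))) (x : G) :
    (fun _ : A D => (x : G ⧸ C)) ∈ FF D a k C := by
  have h1 : (fun _ : A D => (x : G ⧸ Γ)) ∈ FF D a k Γ := by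
    have hc : Continuous (fun z : G ⧸ Γ => fun _ : A D => z) :=
      continuous_pi fun _ => continuous_id
    refine map_mem_closure hc (hm (x : G ⧸ Γ)) ?_
    rintro z ⟨n, rfl⟩
    refine ⟨Tg D a ^ n, Tg_mem_AA a k n, ?_⟩
    rw [Tg_zpow, Tg_smul]
    rfl
  exact prj_FF_mem hle h1

end tower

end Pool.Agent.T6.H51.NS
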