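import Pool.Agent.T6.H51.NS.Defs

/-!
# Polynomial maps into filtered groups (module Pl of the nilsystem project)
-/

set_option autoImplicit false

namespace Pool.Agent.T6.H51.NS

open Filter Topology
open scoped commutatorElement

namespace PlAux

theorem three {G : Type*} [Group G] (N H1 H2 H3 : Subgroup G) [N.Normal] (h1 : ⁅⁅H2, H3⁆, H1⁆ ≤ N)
    (h2 : ⁅⁅H3, H1⁆, H2⁆ ≤ N) : ⁅⁅H1, H2⁆, H3⁆ ≤ N := by
  have key : ∀ X : Subgroup G, X ≤ N ↔ X.map (QuotientGroup.mk' N) = ⊥ := by
    intro X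
    rw [Subgroup.map_eq_bot_iff, QuotientGroup.ker_mk']
  rw [key, Subgroup.map_commutator, Subgroup.map_commutator] at h1 h2 ⊢
  exact Subgroup.commutator_commutator_eq_bot_of_rotate h1 h2

theorem lcs_comm {G : Type*} [Group G] (j : ℕ) : ∀ i, ⁅(⊤ : Subgroup G).lowerCentralSeries i,
    (⊤ : Subgroup G).lowerCentralSeries j⁆ ≤ (⊤ : Subgroup G).lowerCentralSeries (i + j + 1) := by
  induction j with
  | zero =>
    intro i
    rfl
  | succ j ih =>
    intro i
    rw [Subgroup.commutator_comm, Subgroup.lowerCentralSeries_succ]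
    apply three
    · rw [Subgroup.commutator_comm ⊤, ← Subgroup.lowerCentralSeries_succ]
      refine (ih (i + 1)).trans (le_of_eq ?_)
      congr 1
      omega
    · have h1 := Subgroup.commutator_mono (ih i) (le_refl (⊤ : Subgroup G))
      rw [← Subgroup.lowerCentralSeries_succ] at h1
      refine h1.trans (le_of_eq ?_)
      congr 1

section
variable {G : Type*} [Group G] {F : ℕ → Subgroup G} {A₁ A₂ : Type*} [AddCommGroup A₁]
  [AddCommGroup A₂]

theorem Cub_mem {k j : ℕ} {p : A₁ → G} (hp : Cub F k j p) (q : A₁) : p q ∈ F j := by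
  induction k with
  | zero => exact hp q
  | succ k ih => exact ih hp.1

theorem Cub_anti (hF : IsFilt F) {k : ℕ} : ∀ {i j : ℕ} (_ : i ≤ j) {p : A₁ → G},
    Cub F k j p → Cub F k i p := by
  induction k with
  | zero => intro i j h p hp q; exact hF.anti h (hp q)
  | succ k ih =>
    intro i j h p hp
    exact ⟨ih h hp.1, fun u => ih (by omega) (hp.2 u)⟩

theorem Cub_one (k j : ℕ) : Cub F k j (1 : A₁ → G) := by
  induction k generalizing j with
  | zero => intro q; exact (F j).one_mem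
  | succ k ih =>
    refine ⟨ih j, fun h => ?_⟩
    have : Dif h (1 : A₁ → G) = 1 := by funext q; simp [Dif]
    rw [this]; exact ih (j + 1)

/-- products, inverses and commutators, all at once -/
theorem Cub_all (hF : IsFilt F) (k : ℕ) :
    (∀ (j : ℕ) (p r : A₁ → G), Cub F k j p → Cub F k j r → Cub F k j (p * r)) ∧
    (∀ (j : ℕ) (p : A₁ → G), Cub F k j p → Cub F k j p⁻¹) ∧
    (∀ (i j : ℕ) (p r : A₁ → G), Cub F k i p → Cub F k j r → Cub F k (i + j) ⁅p, r⁆) := by
  induction k with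
  | zero =>
    refine ⟨fun j p r hp hr q => (F j).mul_mem (hp q) (hr q), fun j p hp q => (F j).inv_mem (hp q),
      fun i j p r hp hr q => ?_⟩
    exact hF.comm i j (Subgroup.commutator_mem_commutator (hp q) (hr q))
  | succ k ih =>
    obtain ⟨hM, hI, hC⟩ := ih
    have hconj : ∀ (j : ℕ) (w g : A₁ → G), Cub F k 0 w → Cub F k j g →
        Cub F k j (w * g * w⁻¹) := by
      intro j w g hw hg
      have h1 : w * g * w⁻¹ = ⁅w, g⁆ * g := by rw [commutatorElement_def]; group
      rw [h1]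
      refine hM j _ _ ?_ hg
      have := hC 0 j w g hw hg
      rwa [zero_add] at this
    refine ⟨?_, ?_, ?_⟩
    · intro j p r hp hr
      refine ⟨hM j p r hp.1 hr.1, fun h => ?_⟩
      have h1 : Dif h (p * r) = Dif h p * (p * Dif h r * p⁻¹) := by
        funext q; simp only [Dif, Pi.mul_apply, Pi.inv_apply]; group
      rw [h1]
      exact hM _ _ _ (hp.2 h) (hconj _ _ _ (Cub_anti hF (Nat.zero_le _) hp.1) (hr.2 h))
    · intro j p hp
      refine ⟨hI j p hp.1, fun h => ?_⟩
      have h1 : Dif h p⁻¹ = p⁻¹ * (Dif h p)⁻¹ * (p⁻¹)⁻¹ := by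
        funext q; simp only [Dif, Pi.mul_apply, Pi.inv_apply]; group
      rw [h1]
      exact hconj _ _ _ (Cub_anti hF (Nat.zero_le _) (hI _ _ hp.1)) (hI _ _ (hp.2 h))
    · intro i j p r hp hr
      refine ⟨hC i j p r hp.1 hr.1, fun h => ?_⟩
      have hκ := hC i j p r hp.1 hr.1
      have h1 : Dif h ⁅p, r⁆ = (Dif h p * ⁅p, Dif h r⁆ * (Dif h p)⁻¹) *
          ⁅Dif h p * Dif h r, ⁅p, r⁆⁆ * (⁅p, r⁆ * ⁅Dif h p, Dif h r * r⁆ * ⁅p, r⁆⁻¹) := by
        funext q
        simp only [Dif, Pi.mul_apply, Pi.inv_apply, commutatorElement_def]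
        group
      rw [h1]
      have hu := hp.2 h
      have hv := hr.2 h
      have e1 : Cub F k (i + j + 1) ⁅p, Dif h r⁆ := hC i (j + 1) _ _ hp.1 hv
      have e2 : Cub F k (i + j + 1) ⁅Dif h p * Dif h r, ⁅p, r⁆⁆ := by
        have := hC 1 (i + j) _ _ (hM 1 _ _ (Cub_anti hF (by omega) hu)
          (Cub_anti hF (by omega) hv)) hκ
        rwa [add_comm 1 (i + j)] at this
      have e3 : Cub F k (i + j + 1) ⁅Dif h p, Dif h r * r⁆ := by
        have := hC (i + 1) j _ _ hu (hM j _ _ (Cub_anti hF (by omega) hv) hr.1)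
        rwa [show i + 1 + j = i + j + 1 by ring] at this
      refine hM _ _ _ (hM _ _ _ (hconj _ _ _ (Cub_anti hF (Nat.zero_le _) hu) e1) e2)
        (hconj _ _ _ (Cub_anti hF (Nat.zero_le _) hκ) e3)

/-! ### integer valued polynomials -/

/-- integer valued maps of degree at most `d` -/
def DZ : ℕ → (A₁ → ℤ) → Prop
  | 0, r => ∀ h q, r (q + h) = r q
  | (d + 1), r => ∀ h, DZ d (fun q => r (q + h) - r q)

theorem DZ_zero (d : ℕ) : DZ d (fun _ : A₁ => (0 : ℤ)) := by
  induction d with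
  | zero => intro h q; rfl
  | succ d ih => intro h; simpa using ih

theorem DZ_const (d : ℕ) (c : ℤ) : DZ d (fun _ : A₁ => c) := by
  cases d with
  | zero => intro h q; rfl
  | succ d => intro h; simpa using DZ_zero d

theorem DZ_add {d : ℕ} : ∀ {r s : A₁ → ℤ}, DZ d r → DZ d s → DZ d (fun q => r q + s q) := by
  induction d with
  | zero => intro r s hr hs h q; simp only [hr h q, hs h q]
  | succ d ih =>
    intro r s hr hs h
    have := ih (hr h) (hs h)
    refine (congrArg (DZ d) ?_).mp this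
    funext q; ring

theorem DZ_smul {d : ℕ} (c : ℤ) : ∀ {r : A₁ → ℤ}, DZ d r → DZ d (fun q => c * r q) := by
  induction d with
  | zero => intro r hr h q; simp only [hr h q]
  | succ d ih =>
    intro r hr h
    have := ih (hr h)
    refine (congrArg (DZ d) ?_).mp this
    funext q; ring

theorem DZ_succ {d : ℕ} : ∀ {r : A₁ → ℤ}, DZ d r → DZ (d + 1) r := by
  induction d with
  | zero =>
    intro r hr h
    have : (fun q => r (q + h) - r q) = fun _ => 0 := by funext q; rw [hr h q]; ring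
    rw [this]; exact DZ_zero 0
  | succ d ih => intro r hr h; exact ih (hr h)

theorem DZ_mono {d e : ℕ} (h : d ≤ e) {r : A₁ → ℤ} (hr : DZ d r) : DZ e r := by
  induction h with
  | refl => exact hr
  | step _ ih => exact DZ_succ ih

theorem DZ_sum {ι : Type*} (s : Finset ι) {d : ℕ} (f : ι → A₁ → ℤ) (hf : ∀ x ∈ s, DZ d (f x)) :
    DZ d (fun q => ∑ x ∈ s, f x q) := by
  classical
  induction s using Finset.induction_on with
  | empty => simpa using DZ_zero d
  | insert a s ha ih =>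
    simp only [Finset.sum_insert ha]
    exact DZ_add (hf a (Finset.mem_insert_self _ _))
      (ih fun x hx => hf x (Finset.mem_insert_of_mem hx))

theorem DZ_eq_const {r : A₁ → ℤ} (hr : DZ 0 r) : r = fun _ => r 0 := by
  funext q; have := hr q 0; rwa [zero_add] at this

theorem DZ_mul_aux (n : ℕ) : ∀ (d e : ℕ), d + e = n → ∀ {r s : A₁ → ℤ}, DZ d r → DZ e s →
    DZ (d + e) (fun q => r q * s q) := by
  induction n using Nat.strong_induction_on with
  | _ n ih =>
    intro d e hn r s hr hs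
    rcases d with _ | d
    · rw [DZ_eq_const hr, zero_add]
      exact DZ_smul _ hs
    rcases e with _ | e
    · rw [DZ_eq_const hs]
      simp only [mul_comm _ (s 0)]
      exact DZ_smul _ hr
    intro h
    have h1 := ih (d + 1 + e) (by omega) (d + 1) e rfl hr (hs h)
    have h2 := ih (d + (e + 1)) (by omega) d (e + 1) rfl (hr h) hs
    have h3 := ih (d + e) (by omega) d e rfl (hr h) (hs h)
    have e1 : DZ (d + 1 + e) (fun q => r q * (s (q + h) - s q) + (r (q + h) - r q) * s q +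
        (r (q + h) - r q) * (s (q + h) - s q)) :=
      DZ_add (DZ_add h1 (DZ_mono (by omega) h2)) (DZ_mono (by omega) h3)
    refine (congrArg (DZ (d + 1 + e)) ?_).mp e1
    funext q; ring

theorem DZ_mul {d e : ℕ} {r s : A₁ → ℤ} (hr : DZ d r) (hs : DZ e s) :
    DZ (d + e) (fun q => r q * s q) := DZ_mul_aux _ d e rfl hr hs

theorem DZ_prod {ι : Type*} (s : Finset ι) (d : ι → ℕ) (f : ι → A₁ → ℤ)
    (hf : ∀ x ∈ s, DZ (d x) (f x)) : DZ (∑ x ∈ s, d x) (fun q => ∏ x ∈ s, f x q) := by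
  classical
  induction s using Finset.induction_on with
  | empty => simpa using DZ_const 0 1
  | insert a s ha ih =>
    simp only [Finset.prod_insert ha, Finset.sum_insert ha]
    exact DZ_mul (hf a (Finset.mem_insert_self _ _))
      (ih fun x hx => hf x (Finset.mem_insert_of_mem hx))

theorem DZ_choose (ℓ : A₁ → ℤ) (hℓ : ∀ x y, ℓ (x + y) = ℓ x + ℓ y) (m : ℕ) :
    DZ m (fun q => Ring.choose (ℓ q) m) := by
  induction m using Nat.strong_induction_on with
  | _ m ih =>
    rcases m with _ | m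
    · simp only [Ring.choose_zero_right]; exact DZ_const 0 1
    intro h
    have h1 : (fun q => Ring.choose (ℓ (q + h)) (m + 1) - Ring.choose (ℓ q) (m + 1)) =
        fun q => ∑ i ∈ Finset.range (m + 1), Ring.choose (ℓ h) (m + 1 - i) * Ring.choose (ℓ q) i := by
      funext q
      rw [hℓ, Ring.add_choose_eq (m + 1) (Commute.all _ _),
        Finset.Nat.sum_antidiagonal_eq_sum_range_succ
          (fun i j => Ring.choose (ℓ q) i * Ring.choose (ℓ h) j), Finset.sum_range_succ]
      simp only [Nat.sub_self, Ring.choose_zero_right, mul_one, add_sub_cancel_right]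
      exact Finset.sum_congr rfl fun i _ => mul_comm _ _
    rw [h1]
    refine DZ_sum _ _ fun i hi => DZ_smul _ (DZ_mono (Nat.lt_succ_iff.mp (Finset.mem_range.mp hi))
      (ih i (Finset.mem_range.mp hi)))

end

end PlAux

open PlAux

section
variable {G : Type} [Group G] {F : ℕ → Subgroup G} {A₁ A₂ : Type} [AddCommGroup A₁]
  [AddCommGroup A₂]

theorem isFilt_Fl (G : Type) [Group G] : IsFilt (Fl G) where
  anti i j h := Subgroup.lowerCentralSeries_antitone _ (by omega)
  comm i j := by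
    rcases Nat.eq_zero_or_pos i with rfl | hi
    · rw [Subgroup.commutator_comm]
      have h1 : ⁅Fl G j, Fl G 0⁆ ≤ LC G (j - 1 + 1) := le_refl _
      exact h1.trans (Subgroup.lowerCentralSeries_antitone _ (by omega))
    rcases Nat.eq_zero_or_pos j with rfl | hj
    · have h1 : ⁅Fl G i, Fl G 0⁆ ≤ LC G (i - 1 + 1) := le_refl _
      exact h1.trans (Subgroup.lowerCentralSeries_antitone _ (by omega))
    exact (lcs_comm (G := G) (j - 1) (i - 1)).trans
      (Subgroup.lowerCentralSeries_antitone _ (by omega))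
  zero := rfl

theorem Pl_mem {j : ℕ} {p : A₁ → G} (hp : Pl F j p) (q : A₁) : p q ∈ F j := hp 0 q

theorem Pl_Dif {j : ℕ} {p : A₁ → G} (hp : Pl F j p) (h : A₁) : Pl F (j + 1) (Dif h p) :=
  fun k => (hp (k + 1)).2 h

theorem Pl_of {j : ℕ} {p : A₁ → G} (h0 : ∀ q, p q ∈ F j) (h1 : ∀ h, Pl F (j + 1) (Dif h p)) :
    Pl F j p := by
  intro k
  induction k with
  | zero => exact h0
  | succ k ih => exact ⟨ih, fun h => h1 h k⟩

theorem Pl_one (j : ℕ) : Pl F j (1 : A₁ → G) := fun k => Cub_one k j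

theorem Pl_mul (hF : IsFilt F) {j : ℕ} {p r : A₁ → G} (hp : Pl F j p) (hr : Pl F j r) :
    Pl F j (p * r) := fun k => (Cub_all hF k).1 j p r (hp k) (hr k)

theorem Pl_inv (hF : IsFilt F) {j : ℕ} {p : A₁ → G} (hp : Pl F j p) : Pl F j p⁻¹ :=
  fun k => (Cub_all hF k).2.1 j p (hp k)

theorem Pl_comm (hF : IsFilt F) {i j : ℕ} {p r : A₁ → G} (hp : Pl F i p) (hr : Pl F j r) :
    Pl F (i + j) ⁅p, r⁆ := fun k => (Cub_all hF k).2.2 i j p r (hp k) (hr k)

theorem Pl_anti (hF : IsFilt F) {i j : ℕ} (h : i ≤ j) {p : A₁ → G} (hp : Pl F j p) : Pl F i p :=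
  fun k => Cub_anti hF h (hp k)

theorem Pl_comp {j : ℕ} {p : A₂ → G} (hp : Pl F j p) (τ : A₁ → A₂)
    (hτ : ∀ x y, τ (x + y) = τ x + τ y) : Pl F j (fun q => p (τ q)) := by
  intro k
  induction k generalizing j p with
  | zero => intro q; exact Pl_mem hp _
  | succ k ih =>
    refine ⟨ih hp, fun h => ?_⟩
    have h1 : Dif h (fun q => p (τ q)) = fun q => Dif (τ h) p (τ q) := by
      funext q; simp only [Dif, hτ]
    rw [h1]
    exact ih (Pl_Dif hp (τ h))

theorem Pl_const {j : ℕ} {g : G} (hg : g ∈ F j) : Pl F j (fun _ : A₁ => g) := by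
  refine Pl_of (fun _ => hg) fun h => ?_
  have h1 : Dif h (fun _ : A₁ => g) = 1 := by funext q; simp [Dif]
  rw [h1]; exact Pl_one _

/-- powers `g ^ r` with `r` of degree at most `d` -/
theorem Pl_pow (hF : IsFilt F) {g : G} : ∀ (d j : ℕ), g ∈ F (j + d) → ∀ r : A₁ → ℤ, DZ d r →
    Pl F j (fun q => g ^ r q) := by
  intro d
  induction d with
  | zero =>
    intro j hg r hr
    rw [DZ_eq_const hr]
    exact Pl_const ((F j).zpow_mem hg _)
  | succ d ih =>
    intro j hg r hr
    refine Pl_of (fun q => (F j).zpow_mem (hF.anti (by omega) hg) _) fun h => ?_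
    have h1 : Dif h (fun q => g ^ r q) = fun q => g ^ (r (q + h) - r q) := by
      funext q; simp only [Dif]; rw [zpow_sub]
    rw [h1]
    exact ih (j + 1) (by rwa [show j + 1 + d = j + (d + 1) by ring]) _ (hr h)

theorem Pl_hom (hF : IsFilt F) (hF1 : F 1 = ⊤) (g : G) (ℓ : A₁ → ℤ)
    (hℓ : ∀ x y, ℓ (x + y) = ℓ x + ℓ y) : Pl F 0 (fun q => g ^ ℓ q) := by
  refine Pl_pow hF 1 0 (by rw [zero_add, hF1]; trivial) ℓ ?_
  intro h
  have h1 : (fun q => ℓ (q + h) - ℓ q) = fun _ => ℓ h := by funext q; rw [hℓ]; ring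
  rw [h1]; exact DZ_const 0 _

theorem PlAux.DZ_bin {D : ℕ} (μ : Fin D → ℕ) : DZ (∑ l, μ l) (bin μ : A D → ℤ) :=
  DZ_prod Finset.univ μ (fun l (q : A D) => Ring.choose (q l) (μ l))
    fun l _ => DZ_choose (fun q : A D => q l) (fun _ _ => rfl) (μ l)

theorem Pl_bin (hF : IsFilt F) {D i : ℕ} {g : G} (hg : g ∈ F i) (μ : Fin D → ℕ)
    (hμ : ∑ l, μ l ≤ i) : Pl F 0 (fun q : A D => g ^ bin μ q) :=
  Pl_pow hF i 0 (by rwa [zero_add]) _ (DZ_mono hμ (DZ_bin μ))

set_option linter.unusedVariables false in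
theorem Pl_Deg (hF : IsFilt F) {i : ℕ} {p : A₁ → G} (hp : Pl F 0 p) (hpi : ∀ q, p q ∈ F i)
    {V : Type} [CommGroup V] (ψ : F i →* V) (hψ : ∀ x : F i, (x : G) ∈ F (i + 1) → ψ x = 1) :
    Deg i (fun q => ψ ⟨p q, hpi q⟩) := by
  have key : ∀ (m k : ℕ) (p : A₁ → G) (hpi : ∀ q, p q ∈ F i), k + m = i → Pl F k p →
      Deg m (fun q => ψ ⟨p q, hpi q⟩) := by
    intro m
    induction m with
    | zero =>
      intro k p hpi hk hp h
      funext q
      have h1 : Dif h (fun q => ψ ⟨p q, hpi q⟩) q =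
          ψ (⟨p (q + h), hpi (q + h)⟩ * ⟨p q, hpi q⟩⁻¹) := by
        simp only [Dif, map_mul, map_inv]
      rw [h1]
      refine hψ _ ?_
      have h2 := Pl_mem (Pl_Dif hp h) q
      rw [show k + 1 = i + 1 by omega] at h2
      exact h2
    | succ m ih =>
      intro k p hpi hk hp h
      have hpi' : ∀ q, Dif h p q ∈ F i := fun q => (F i).mul_mem (hpi _) ((F i).inv_mem (hpi _))
      have h1 : Dif h (fun q => ψ ⟨p q, hpi q⟩) = fun q => ψ ⟨Dif h p q, hpi' q⟩ := by
        funext q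
        have h2 : Dif h (fun q => ψ ⟨p q, hpi q⟩) q =
          ψ (⟨p (q + h), hpi (q + h)⟩ * ⟨p q, hpi q⟩⁻¹) := by
          simp only [Dif, map_mul, map_inv]
        rw [h2]; rfl
      rw [h1]
      exact ih (k + 1) _ hpi' (by omega) (Pl_Dif hp h)
  exact key i 0 p hpi (zero_add i) hp

end

end Pool.Agent.T6.H51.NS
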