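import Pool.Agent.T6.H51.NS.Pl
import Pool.Agent.T6.H51.NS.Newton

/-! Unipotence of the shift on polynomial maps (module Unip of the nilsystem project). -/

set_option autoImplicit false

namespace Pool.Agent.T6.H51.NS

open Polynomial Filter Topology
open scoped commutatorElement

/-- the operator `b ↦ b (U 1 q) / b q` -/
noncomputable def EU {D : ℕ} {V : Type} [CommGroup V] (b : A D → V) : A D → V :=
  fun q => b (U 1 q) * (b q)⁻¹

namespace UnipAux

open scoped fwdDiff

/-- the multiplicative difference operator on sequences -/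
def dl {V : Type} [CommGroup V] (s : ℤ → V) : ℤ → V := fun n => s (n + 1) * (s n)⁻¹

theorem dl_mul {V : Type} [CommGroup V] (s t : ℤ → V) : dl (s * t) = dl s * dl t := by
  funext n
  simp only [dl, Pi.mul_apply, mul_inv]
  rw [mul_mul_mul_comm]

theorem dl_iter_mul {V : Type} [CommGroup V] (J : ℕ) (s t : ℤ → V) :
    (dl^[J]) (s * t) = (dl^[J]) s * (dl^[J]) t := by
  induction J generalizing s t with
  | zero => rfl
  | succ J ih => rw [Function.iterate_succ_apply, Function.iterate_succ_apply,
      Function.iterate_succ_apply, dl_mul, ih]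

theorem dl_one {V : Type} [CommGroup V] : dl (1 : ℤ → V) = 1 := by
  funext n; simp [dl]

theorem dl_iter_one {V : Type} [CommGroup V] (J : ℕ) : (dl^[J]) (1 : ℤ → V) = 1 := by
  induction J with
  | zero => rfl
  | succ J ih => rw [Function.iterate_succ_apply, dl_one, ih]

theorem dl_zpow {V : Type} [CommGroup V] (z : V) (f : ℤ → ℤ) :
    dl (fun n => z ^ f n) = fun n => z ^ (fwdDiff (1:ℤ) f) n := by
  funext n
  simp only [dl, fwdDiff]
  rw [zpow_sub]

theorem dl_iter_zpow {V : Type} [CommGroup V] (z : V) (J : ℕ) (f : ℤ → ℤ) :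
    (dl^[J]) (fun n => z ^ f n) = fun n => z ^ ((fwdDiff (1:ℤ))^[J] f) n := by
  induction J generalizing f with
  | zero => rfl
  | succ J ih => rw [Function.iterate_succ_apply, Function.iterate_succ_apply, dl_zpow, ih]

theorem EU_iter {D : ℕ} {V : Type} [CommGroup V] (J : ℕ) (b : A D → V) (q : A D) (n : ℤ) :
    (EU^[J]) b (U n q) = (dl^[J]) (fun m => b (U m q)) n := by
  induction J generalizing b with
  | zero => rfl
  | succ J ih =>
    rw [Function.iterate_succ_apply, Function.iterate_succ_apply, ih]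
    have h : (fun m => EU b (U m q)) = dl fun m => b (U m q) := by
      funext m
      simp only [EU, dl]
      rw [← U_add, add_comm 1 m]
    rw [h]

theorem bin_diff {D i : ℕ} (μ : Fin D → ℕ) (hμ : ∑ l, μ l ≤ i) (q : A D) :
    (fwdDiff (1 : ℤ))^[D * i + 1] (fun n : ℤ => bin μ (U n q)) = 0 := by
  set P : ℤ[X] := ∏ l : Fin D, (descPochhammer ℤ (μ l)).comp (hasseDeriv ((l : ℕ) + 1) (pol q))
    with hP
  have hdeg : P.natDegree < D * i + 1 := by
    have h1 : P.natDegree ≤ ∑ l : Fin D, μ l * D := by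
      rw [hP]
      refine (natDegree_prod_le _ _).trans (Finset.sum_le_sum fun l _ => ?_)
      refine natDegree_comp_le.trans ?_
      refine Nat.mul_le_mul ?_ ?_
      · rw [descPochhammer_natDegree]
      · refine (natDegree_hasseDeriv_le _ _).trans ?_
        have := natDegree_pol q
        omega
    rw [← Finset.sum_mul] at h1
    have h2 : (∑ l : Fin D, μ l) * D ≤ i * D := Nat.mul_le_mul_right _ hμ
    rw [mul_comm D i]
    omega
  have hU : ∀ (n : ℤ) (l : Fin D), U n q l = (hasseDeriv ((l : ℕ) + 1) (pol q)).eval n := by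
    intro n l
    rw [← taylor_coeff, taylor_apply]
    rfl
  have hev : ∀ n : ℤ, P.eval n = (∏ l : Fin D, ((μ l).factorial : ℤ)) * bin μ (U n q) := by
    intro n
    rw [hP, eval_prod, bin, ← Finset.prod_mul_distrib]
    refine Finset.prod_congr rfl fun l _ => ?_
    rw [eval_comp, ← hU]
    have h3 := Ring.descPochhammer_eq_factorial_smul_choose (U n q l) (μ l)
    rw [nsmul_eq_mul] at h3
    rw [← h3, Polynomial.eval_eq_smeval]
  have hz := Polynomial.fwdDiff_iter_eq_zero_of_degree_lt hdeg
  have hfun : (fun n : ℤ => P.eval n) =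
      (∏ l : Fin D, ((μ l).factorial : ℤ)) • (fun n : ℤ => bin μ (U n q)) := by
    funext n
    rw [hev, Pi.smul_apply, smul_eq_mul]
  have hz' : (fwdDiff (1 : ℤ))^[D * i + 1] (fun n : ℤ => P.eval n) = 0 := hz
  rw [hfun, fwdDiff_iter_const_smul] at hz'
  have hc : (∏ l : Fin D, ((μ l).factorial : ℤ)) ≠ 0 := by
    rw [Finset.prod_ne_zero_iff]
    intro l _
    exact_mod_cast Nat.factorial_ne_zero (μ l)
  funext n
  have := congrFun hz' n
  rw [Pi.smul_apply, smul_eq_mul, Pi.zero_apply] at this
  simpa [hc] using this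

/-- the filtration of a commutative group with `F k = ⊤` for `k ≤ i` -/
def Fi (V : Type) [CommGroup V] (i k : ℕ) : Subgroup V := if k ≤ i then ⊤ else ⊥

theorem isFilt_Fi (V : Type) [CommGroup V] (i : ℕ) : IsFilt (Fi V i) where
  anti := by
    intro a b hab
    unfold Fi
    by_cases h : b ≤ i
    · rw [if_pos h, if_pos (hab.trans h)]
    · rw [if_neg h]; exact bot_le
  comm a b := by
    rw [Subgroup.commutator_le]
    intro x _ y _
    rw [commutatorElement_def, mul_comm x y]
    simp
  zero := by simp [Fi]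

theorem Pl_of_Deg {V : Type} [CommGroup V] {D : ℕ} (i : ℕ) (k : ℕ) :
    ∀ (j : ℕ) (p : A D → V), Deg k p → j + k = i → Pl (Fi V i) j p := by
  induction k with
  | zero =>
    intro j p hp hj
    refine Pl_of (fun q => ?_) (fun h => ?_)
    · simp [Fi, show j ≤ i by omega]
    · rw [hp h]; exact Pl_one _
  | succ k ih =>
    intro j p hp hj
    refine Pl_of (fun q => ?_) (fun h => ?_)
    · simp [Fi, show j ≤ i by omega]
    · exact ih (j + 1) _ (hp h) (by omega)

end UnipAux

open UnipAux in
theorem unip (D i : ℕ) : ∃ J : ℕ, ∀ (V : Type) [CommGroup V] (b : A D → V), Deg i b →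
    (EU^[J]) b = 1 := by
  refine ⟨D * i + 1, fun V _ b hb => ?_⟩
  obtain ⟨L, hL, hLb⟩ := newton (isFilt_Fi V i) (Pl_of_Deg i i 0 b hb (by omega)) (i := i)
    (fun q => by simp [Fi])
  have hb' : ∀ q, b q = (L.map fun x => x.1 ^ bin x.2 q).prod := by
    intro q
    obtain ⟨w, hw, h⟩ := hLb q
    simp only [Fi, show ¬ i + 1 ≤ i by omega, if_false, Subgroup.mem_bot] at hw
    rw [h, hw, mul_one]
  funext q
  have h1 := EU_iter (D * i + 1) b q 0
  rw [U_zero] at h1
  rw [h1]
  have h2 : ∀ L : List (V × (Fin D → ℕ)), (∀ x ∈ L, ∑ l, x.2 l ≤ i) →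
      (dl^[D * i + 1]) (fun m : ℤ => (L.map fun x => x.1 ^ bin x.2 (U m q)).prod) = 1 := by
    intro L
    induction L with
    | nil =>
      intro _
      simp only [List.map_nil, List.prod_nil]
      exact dl_iter_one _
    | cons x L ih =>
      intro hx
      simp only [List.map_cons, List.prod_cons]
      have h3 : (fun m : ℤ => x.1 ^ bin x.2 (U m q) *
          (L.map fun x => x.1 ^ bin x.2 (U m q)).prod) =
          (fun m : ℤ => x.1 ^ bin x.2 (U m q)) *
          (fun m : ℤ => (L.map fun x => x.1 ^ bin x.2 (U m q)).prod) := rfl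
      rw [h3, dl_iter_mul, ih (fun y hy => hx y (List.mem_cons_of_mem _ hy)), mul_one,
        dl_iter_zpow, bin_diff x.2 (hx x List.mem_cons_self) q]
      funext n
      simp
  have h3 : (fun m => b (U m q)) =
      fun m : ℤ => (L.map fun x => x.1 ^ bin x.2 (U m q)).prod := by
    funext m
    exact hb' _
  rw [h3, h2 L (fun x hx => (hL x hx).2)]
  rfl

end Pool.Agent.T6.H51.NS
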